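import Pool.Agent.W180.OP.Base

set_option autoImplicit false

/-!
The homogeneous coordinate ring as a module over the ring generated by forms without common zeros.
-/

namespace Pool.Agent.TH875

open MvPolynomial Finset

section comp

variable {K : Type} [Field K] {n : ℕ}

lemma homComp_mul_lt (p F : MvPolynomial (Fin n) K) {m g : ℕ} (hF : F.IsHomogeneous g)
    (hm : m < g) : homogeneousComponent m (p * F) = 0 := by
  conv_lhs => rw [← sum_homogeneousComponent p]
  rw [Finset.sum_mul, map_sum]
  refine Finset.sum_eq_zero fun i _ => ?_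
  have h1 : (homogeneousComponent i p * F).IsHomogeneous (i + g) :=
    (homogeneousComponent_isHomogeneous i p).mul hF
  rw [homogeneousComponent_of_mem h1, if_neg (by omega)]

/-- the ideal of homogeneous polynomials is homogeneous -/
lemma comp_mem {ι : Type} [Fintype ι] (G : ι → MvPolynomial (Fin n) K) (g : ι → ℕ)
    (hG : ∀ k, (G k).IsHomogeneous (g k)) {F : MvPolynomial (Fin n) K}
    (hF : F ∈ Ideal.span (Set.range G)) (m : ℕ) :
    homogeneousComponent m F ∈ Ideal.span (Set.range G) := by
  classical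
  obtain ⟨A, hA⟩ := Ideal.mem_span_range_iff_exists_fun.1 hF
  rw [← hA, map_sum]
  refine Ideal.sum_mem _ fun k _ => ?_
  rcases Nat.lt_or_ge m (g k) with h | h
  · rw [homComp_mul_lt _ _ (hG k) h]
    exact Ideal.zero_mem _
  · have h1 := Pool.Agent.W180.OP.homComp_mul (A k) (G k) (m - g k) (g k) (hG k)
    rw [Nat.sub_add_cancel h] at h1
    rw [h1]
    exact Ideal.mul_mem_left _ _ (Ideal.subset_span (Set.mem_range_self k))

end comp

section mod

variable {K : Type} [Field K] {n r : ℕ}

/-- monomials in the forms `y` times monomials in the variables -/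
noncomputable def ym (y : Fin r → MvPolynomial (Fin n) K) (s : (Fin r → ℕ) × (Fin n →₀ ℕ)) :
    MvPolynomial (Fin n) K := (∏ k, y k ^ s.1 k) * monomial s.2 1

/-- the degree -/
noncomputable def dg (d : ℕ) (s : (Fin r → ℕ) × (Fin n →₀ ℕ)) : ℕ := d * ∑ k, s.1 k + s.2.degree

lemma ym_hom {d : ℕ} {y : Fin r → MvPolynomial (Fin n) K} (hy : ∀ k, (y k).IsHomogeneous d)
    (s : (Fin r → ℕ) × (Fin n →₀ ℕ)) : (ym y s).IsHomogeneous (dg d s) := by
  unfold ym dg
  refine IsHomogeneous.mul ?_ (isHomogeneous_monomial _ rfl)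
  rw [Finset.mul_sum]
  exact IsHomogeneous.prod _ _ _ fun k _ => (hy k).pow _

/-- the span of the `ym s` of degree `m` with `s.2` in `E`, plus the ideal -/
noncomputable def Wm (I : Ideal (MvPolynomial (Fin n) K)) (d : ℕ)
    (y : Fin r → MvPolynomial (Fin n) K) (E : Finset (Fin n →₀ ℕ)) (m : ℕ) :
    Submodule K (MvPolynomial (Fin n) K) :=
  Submodule.span K (ym y '' {s | s.2 ∈ E ∧ dg d s = m}) ⊔ I.restrictScalars K

lemma ideal_le_Wm (I : Ideal (MvPolynomial (Fin n) K)) (d : ℕ)
    (y : Fin r → MvPolynomial (Fin n) K) (E : Finset (Fin n →₀ ℕ)) (m : ℕ)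
    {F : MvPolynomial (Fin n) K} (hF : F ∈ I) : F ∈ Wm I d y E m :=
  Submodule.mem_sup_right hF

lemma ym_mem (I : Ideal (MvPolynomial (Fin n) K)) (d : ℕ)
    (y : Fin r → MvPolynomial (Fin n) K) (E : Finset (Fin n →₀ ℕ))
    (s : (Fin r → ℕ) × (Fin n →₀ ℕ)) (hs : s.2 ∈ E) : ym y s ∈ Wm I d y E (dg d s) :=
  Submodule.mem_sup_left (Submodule.subset_span ⟨s, ⟨hs, rfl⟩, rfl⟩)

/-- an ideal-like induction principle -/
lemma Wm_induction (I : Ideal (MvPolynomial (Fin n) K)) (d : ℕ)
    (y : Fin r → MvPolynomial (Fin n) K) (E : Finset (Fin n →₀ ℕ)) (m : ℕ)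
    (V : Submodule K (MvPolynomial (Fin n) K)) (Q : MvPolynomial (Fin n) K)
    (h1 : ∀ s : (Fin r → ℕ) × (Fin n →₀ ℕ), s.2 ∈ E → dg d s = m → Q * ym y s ∈ V)
    (h2 : ∀ F ∈ I, F ∈ V) {F : MvPolynomial (Fin n) K} (hF : F ∈ Wm I d y E m) : Q * F ∈ V := by
  have h3 : Wm I d y E m ≤ V.comap (LinearMap.mulLeft K Q) := by
    refine sup_le (Submodule.span_le.2 ?_) ?_
    · rintro _ ⟨s, ⟨hs1, hs2⟩, rfl⟩
      exact h1 s hs1 hs2
    · intro F hF
      have hF' : F ∈ I := hF
      exact h2 _ (Ideal.mul_mem_left _ _ hF')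
  exact h3 hF

lemma ym_mul (y : Fin r → MvPolynomial (Fin n) K) (a : Fin r → ℕ)
    (s : (Fin r → ℕ) × (Fin n →₀ ℕ)) : (∏ k, y k ^ a k) * ym y s = ym y (a + s.1, s.2) := by
  unfold ym
  rw [← mul_assoc, ← Finset.prod_mul_distrib]
  congr 1
  exact Finset.prod_congr rfl fun k _ => (pow_add _ _ _).symm

lemma dg_add (d : ℕ) (a : Fin r → ℕ) (s : (Fin r → ℕ) × (Fin n →₀ ℕ)) :
    dg d (a + s.1, s.2) = dg d s + d * ∑ k, a k := by
  unfold dg
  simp only [Pi.add_apply, Finset.sum_add_distrib]
  ring

/-- multiplication by a form in the `y` -/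
lemma mul_Wm (I : Ideal (MvPolynomial (Fin n) K)) (d : ℕ)
    (y : Fin r → MvPolynomial (Fin n) K) (E : Finset (Fin n →₀ ℕ)) (m t : ℕ)
    (Q : MvPolynomial (Fin r) K) (hQ : Q.IsHomogeneous t) {F : MvPolynomial (Fin n) K}
    (hF : F ∈ Wm I d y E m) : aeval y Q * F ∈ Wm I d y E (m + d * t) := by
  classical
  refine Wm_induction I d y E m _ _ (fun s hs1 hs2 => ?_) (fun F hF => ideal_le_Wm _ _ _ _ _ hF) hF
  rw [aeval_def, eval₂_eq, Finset.sum_mul]
  refine Submodule.sum_mem _ fun a ha => ?_
  rw [mul_assoc, ← Algebra.smul_def]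
  refine Submodule.smul_mem _ _ ?_
  have e1 : ∏ i ∈ a.support, y i ^ a i = ∏ k, y k ^ (fun k => a k) k := by
    refine Finset.prod_subset (Finset.subset_univ _) fun k _ hk => ?_
    rw [Finsupp.notMem_support_iff.1 hk, pow_zero]
  rw [e1, ym_mul]
  have h1 : ∑ k, a k = t := by
    have := hQ (mem_support_iff.1 ha)
    rw [← this, Finsupp.weight_apply, Finsupp.sum_fintype]
    · simp
    · intro i; simp
  have h2 := ym_mem I d y E ((fun k => a k) + s.1, s.2) hs1
  rw [dg_add, hs2] at h2
  have h3 : (∑ k, (fun k => a k) k) = t := h1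
  rw [h3] at h2
  exact h2

/-- generators of the homogeneous coordinate ring -/
lemma gen {ι : Type} [Fintype ι] (G : ι → MvPolynomial (Fin n) K)
    (g : ι → ℕ) (hG : ∀ k, (G k).IsHomogeneous (g k)) (d : ℕ) (hd : 1 ≤ d)
    (y : Fin r → MvPolynomial (Fin n) K) (hy : ∀ k, (y k).IsHomogeneous d)
    (h0 : ∀ (L : Type) [Field L] [Algebra K L] (x : Fin n → L), (∀ k, aeval x (G k) = 0) →
      (∀ k, aeval x (y k) = 0) → x = 0) :
    ∃ E : Finset (Fin n →₀ ℕ), 0 ∈ E ∧ ∀ (M : ℕ) (F : MvPolynomial (Fin n) K),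
      F.IsHomogeneous M → F ∈ Wm (Ideal.span (Set.range G)) d y E M := by
  classical
  set I := Ideal.span (Set.range G) with hI
  obtain ⟨N0, hN0, hA⟩ := Pool.Agent.W180.OP.null_hom (Sum.elim y G) (Sum.elim (fun _ => d) g)
    (by
      rintro (k | k)
      · exact hy k
      · exact hG k) (by
      intro L _ _ x hx
      exact h0 L x (fun k => hx (Sum.inr k)) fun k => hx (Sum.inl k))
  choose A hAh hAe using hA
  -- exponents of degree less than `B`
  set B : ℕ := n * N0 + 1 with hB
  have hfin : {β : Fin n →₀ ℕ | β.degree < B}.Finite := by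
    refine ((Finset.finite_toSet (Finset.range B)).biUnion fun m _ =>
      (Finset.finite_toSet (Finset.univ.finsuppAntidiag m))).subset ?_
    intro β hβ
    refine Set.mem_biUnion (x := β.degree) (by simpa using hβ) ?_
    simp [Finsupp.degree_eq_sum]
  refine ⟨hfin.toFinset, by simp [hB], ?_⟩
  set E := hfin.toFinset with hE
  have hEm : ∀ β : Fin n →₀ ℕ, β ∈ E ↔ β.degree < B := by
    intro β
    rw [hE, Set.Finite.mem_toFinset]
    rfl
  intro M
  induction M using Nat.strong_induction_on with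
  | _ M ih =>
    intro F hF
    rw [F.as_sum]
    refine Submodule.sum_mem _ fun β hβ => ?_
    have hdeg : β.degree = M := by
      have := hF (mem_support_iff.1 hβ)
      exact (DFunLike.congr_fun (Finsupp.degree_eq_weight_one (σ := Fin n) (R := ℕ)) β).trans this
    have e1 : monomial β (F.coeff β) = F.coeff β • (monomial β 1 : MvPolynomial (Fin n) K) := by
      rw [smul_monomial, smul_eq_mul, mul_one]
    rw [e1]
    refine Submodule.smul_mem _ _ ?_
    by_cases hM : M < B
    · have h1 := ym_mem I d y E (0, β) ((hEm β).2 (by rw [hdeg]; exact hM))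
      have e2 : ym y (0, β) = (monomial β 1 : MvPolynomial (Fin n) K) := by
        simp [ym]
      have e3 : dg d ((0, β) : (Fin r → ℕ) × (Fin n →₀ ℕ)) = M := by
        simp [dg, hdeg]
      rwa [e2, e3] at h1
    · -- some exponent is large
      have h1 : ∃ a, N0 ≤ β a := by
        by_contra hcon
        push Not at hcon
        have h2 : β.degree = ∑ a, β a := by rw [Finsupp.degree_eq_sum]
        have h3 : ∑ a, β a ≤ ∑ _a : Fin n, N0 := Finset.sum_le_sum fun a _ => (hcon a).le
        rw [Finset.sum_const, Finset.card_univ, Fintype.card_fin, smul_eq_mul] at h3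
        omega
      obtain ⟨a, ha⟩ := h1
      set β' : Fin n →₀ ℕ := β - Finsupp.single a N0 with hβ'
      have hsub : β = β' + Finsupp.single a N0 := by
        rw [hβ', tsub_add_cancel_of_le]
        rw [Finsupp.single_le_iff]
        exact ha
      have hdeg' : β'.degree + N0 = M := by
        rw [← hdeg]
        conv_rhs => rw [hsub]
        rw [map_add, Finsupp.degree_single]
      have e2 : (monomial β 1 : MvPolynomial (Fin n) K) =
          ∑ k, y k * (monomial β' 1 * A a (Sum.inl k)) +
            ∑ k, (monomial β' 1 * A a (Sum.inr k)) * G k := by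
        have e3 : (monomial β 1 : MvPolynomial (Fin n) K) = monomial β' 1 * X a ^ N0 := by
          rw [X_pow_eq_monomial, monomial_mul, one_mul, ← hsub]
        rw [e3, hAe a, Fintype.sum_sum_type, mul_add, Finset.mul_sum, Finset.mul_sum]
        congr 1
        · refine Finset.sum_congr rfl fun k _ => ?_
          simp only [Sum.elim_inl]
          ring
        · refine Finset.sum_congr rfl fun k _ => ?_
          simp only [Sum.elim_inr]
          ring
      rw [e2]
      refine Submodule.add_mem _ (Submodule.sum_mem _ fun k _ => ?_)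
        (Submodule.sum_mem _ fun k _ => ?_)
      · have hdN : d ≤ N0 := hN0 (Sum.inl k)
        have h4 : (monomial β' 1 * A a (Sum.inl k)).IsHomogeneous (M - d) := by
          have := (isHomogeneous_monomial (R := K) (d := β') 1 rfl).mul (hAh a (Sum.inl k))
          have e4 : β'.degree + (N0 - Sum.elim (fun _ => d) g (Sum.inl k)) = M - d := by
            simp only [Sum.elim_inl]
            omega
          rwa [e4] at this
        have h5 := ih (M - d) (by omega) _ h4
        have h6 := mul_Wm I d y E (M - d) 1 (X k) (isHomogeneous_X K k) h5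
        rw [aeval_X, mul_one, Nat.sub_add_cancel (by omega)] at h6
        exact h6
      · refine ideal_le_Wm _ _ _ _ _ ?_
        exact Ideal.mul_mem_left _ _ (Ideal.subset_span (Set.mem_range_self k))

end mod

end Pool.Agent.TH875
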