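import Pool.Agent.TH875.Cm1

set_option autoImplicit false

/-!
Linearly independent monomials, and a comparison of dimensions.
-/

namespace Pool.Agent.TH875

open MvPolynomial Finset

variable {K : Type} [Field K] {n r : ℕ}

/-- the classes of the monomials `ym s`, `s.2 ∈ E`, are linearly independent -/
def Ind (I : Ideal (MvPolynomial (Fin n) K)) (y : Fin r → MvPolynomial (Fin n) K)
    (E : Finset (Fin n →₀ ℕ)) : Prop :=
  LinearIndepOn K (fun s => (Ideal.Quotient.mkₐ K I) (ym y s)) {s | s.2 ∈ E}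

/-- the main comparison: a form in the `y` multiplies the degree `M` part into the span of a
linearly independent family -/
lemma exists_mult {ι : Type} [Fintype ι] (G : ι → MvPolynomial (Fin n) K)
    (g : ι → ℕ) (hG : ∀ k, (G k).IsHomogeneous (g k)) (d : ℕ) (hd : 1 ≤ d)
    (y : Fin r → MvPolynomial (Fin n) K) (hy : ∀ k, (y k).IsHomogeneous d)
    (E : Finset (Fin n →₀ ℕ)) (hE : Ind (Ideal.span (Set.range G)) y E) (β : Fin n →₀ ℕ)
    (hβ : ¬ Ind (Ideal.span (Set.range G)) y (insert β E)) :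
    ∃ (t : ℕ) (Q : MvPolynomial (Fin r) K), Q ≠ 0 ∧ Q.IsHomogeneous t ∧
      aeval y Q * monomial β 1 ∈ Wm (Ideal.span (Set.range G)) d y E (β.degree + d * t) := by
  classical
  set I := Ideal.span (Set.range G) with hI
  unfold Ind at hE hβ
  rw [linearIndepOn_iff] at hE hβ
  push Not at hβ
  obtain ⟨l, hl, hl0, hne⟩ := hβ
  -- there is a term with `β`
  have h1 : ∃ s0 ∈ l.support, s0.2 = β := by
    by_contra hcon
    push Not at hcon
    apply hne
    refine hE l ?_ hl0
    rw [Finsupp.mem_supported] at hl ⊢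
    intro s hs
    have h2 := hl hs
    have h3 : s.2 ∈ insert β E := h2
    rcases Finset.mem_insert.1 h3 with h4 | h4
    · exact absurd h4 (hcon s hs)
    · exact h4
  obtain ⟨s0, hs0, hs0β⟩ := h1
  set Λ : MvPolynomial (Fin n) K := ∑ s ∈ l.support, l s • ym y s with hΛ
  have hΛI : Λ ∈ I := by
    have h2 : (Ideal.Quotient.mkₐ K I) Λ = 0 := by
      rw [← hl0, hΛ, map_sum, Finsupp.linearCombination_apply, Finsupp.sum]
      exact Finset.sum_congr rfl fun s _ => map_smul _ _ _
    rw [Ideal.Quotient.mkₐ_eq_mk] at h2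
    exact Ideal.Quotient.eq_zero_iff_mem.1 h2
  set m : ℕ := dg d s0 with hm
  have hcomp := comp_mem G g hG hΛI m
  have hc2 : homogeneousComponent m Λ = ∑ s ∈ l.support.filter (fun s => dg d s = m),
      l s • ym y s := by
    rw [hΛ, map_sum, Finset.sum_filter]
    refine Finset.sum_congr rfl fun s _ => ?_
    rw [map_smul, homogeneousComponent_of_mem (ym_hom hy s)]
    by_cases h : dg d s = m
    · rw [if_pos h.symm, if_pos h]
    · rw [if_neg (Ne.symm h), if_neg h, smul_zero]
  set S : Finset ((Fin r → ℕ) × (Fin n →₀ ℕ)) := l.support.filter (fun s => dg d s = m) with hS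
  set S1 := S.filter (fun s => s.2 = β) with hS1
  set S2 := S.filter (fun s => ¬ s.2 = β) with hS2
  have hsplit : ∑ s ∈ S1, l s • ym y s + ∑ s ∈ S2, l s • ym y s ∈ I := by
    rw [Finset.sum_filter_add_sum_filter_not, ← hc2]
    exact hcomp
  set Q : MvPolynomial (Fin r) K := ∑ s ∈ S1, monomial (Finsupp.equivFunOnFinite.symm s.1) (l s)
    with hQ
  set t : ℕ := ∑ k, s0.1 k with ht
  have hs0S1 : s0 ∈ S1 := by
    rw [hS1, Finset.mem_filter, hS, Finset.mem_filter]
    exact ⟨⟨hs0, rfl⟩, hs0β⟩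
  have hdt : β.degree + d * t = m := by
    rw [hm, dg, hs0β, ht]
    ring
  have hS1sum : ∀ s ∈ S1, s.2 = β ∧ dg d s = m := by
    intro s hs
    rw [hS1, Finset.mem_filter, hS, Finset.mem_filter] at hs
    exact ⟨hs.2, hs.1.2⟩
  refine ⟨t, Q, ?_, ?_, ?_⟩
  · intro h0
    have h3 : coeff (Finsupp.equivFunOnFinite.symm s0.1) Q = l s0 := by
      rw [hQ, coeff_sum, Finset.sum_eq_single s0]
      · rw [coeff_monomial, if_pos rfl]
      · intro s hs hne'
        rw [coeff_monomial, if_neg]
        intro h4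
        apply hne'
        have h5 := Finsupp.equivFunOnFinite.symm.injective h4
        exact Prod.ext h5 (by rw [(hS1sum s hs).1, hs0β])
      · intro h4
        exact absurd hs0S1 h4
    rw [h0, coeff_zero] at h3
    exact (Finsupp.mem_support_iff.1 hs0) h3.symm
  · refine IsHomogeneous.sum _ _ _ fun s hs => isHomogeneous_monomial _ ?_
    have h4 := hS1sum s hs
    have h5 : dg d s = dg d s0 := h4.2
    unfold dg at h5
    rw [h4.1, hs0β] at h5
    have h6 : d * ∑ k, s.1 k = d * ∑ k, s0.1 k := by omega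
    have h7 := Nat.eq_of_mul_eq_mul_left hd h6
    rw [Finsupp.degree_eq_sum]
    exact h7
  · have e1 : aeval y Q * monomial β 1 = ∑ s ∈ S1, l s • ym y s := by
      rw [hQ, map_sum, Finset.sum_mul]
      refine Finset.sum_congr rfl fun s hs => ?_
      rw [aeval_monomial, Finsupp.prod_fintype _ _ (fun _ => pow_zero _), ym,
        (hS1sum s hs).1, Algebra.smul_def, mul_assoc]
      rfl
    rw [hdt, e1]
    have e2 : ∑ s ∈ S1, l s • ym y s = (∑ s ∈ S1, l s • ym y s + ∑ s ∈ S2, l s • ym y s) -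
        ∑ s ∈ S2, l s • ym y s := by ring
    rw [e2]
    refine Submodule.sub_mem _ (ideal_le_Wm _ _ _ _ _ hsplit) (Submodule.sum_mem _ fun s hs => ?_)
    refine Submodule.smul_mem _ _ ?_
    rw [hS2, Finset.mem_filter, hS, Finset.mem_filter] at hs
    have h8 : s.2 ∈ E := by
      have h9 := (Finsupp.mem_supported K l).1 hl hs.1.1
      have h10 : s.2 ∈ insert β E := h9
      rcases Finset.mem_insert.1 h10 with h11 | h11
      · exact absurd h11 hs.2
      · exact h11
    have h12 := ym_mem I d y E s h8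
    rwa [hs.1.2] at h12

/-- the index set of degree `m` -/
noncomputable def Sm (d : ℕ) (E : Finset (Fin n →₀ ℕ)) (r m : ℕ) :
    Finset ((Fin r → ℕ) × (Fin n →₀ ℕ)) :=
  ((Fintype.piFinset fun _ => Finset.range (m + 1)) ×ˢ E).filter fun s => dg d s = m

lemma mem_Sm {d : ℕ} (hd : 1 ≤ d) (E : Finset (Fin n →₀ ℕ)) (m : ℕ)
    (s : (Fin r → ℕ) × (Fin n →₀ ℕ)) : s ∈ Sm d E r m ↔ s.2 ∈ E ∧ dg d s = m := by
  unfold Sm
  rw [Finset.mem_filter, Finset.mem_product, Fintype.mem_piFinset]
  constructor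
  · rintro ⟨⟨-, h1⟩, h2⟩
    exact ⟨h1, h2⟩
  · rintro ⟨h1, h2⟩
    refine ⟨⟨fun k => ?_, h1⟩, h2⟩
    rw [Finset.mem_range]
    have h3 : s.1 k ≤ ∑ k, s.1 k := Finset.single_le_sum (f := s.1) (fun _ _ => Nat.zero_le _)
      (Finset.mem_univ k)
    have h4 : ∑ k, s.1 k ≤ d * ∑ k, s.1 k := Nat.le_mul_of_pos_left _ hd
    unfold dg at h2
    omega

/-- the degree `M` part of the homogeneous coordinate ring -/
noncomputable def VM (I : Ideal (MvPolynomial (Fin n) K)) (M : ℕ) :
    Submodule K (MvPolynomial (Fin n) K ⧸ I) :=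
  (homogeneousSubmodule (Fin n) K M).map (Ideal.Quotient.mkₐ K I).toLinearMap

lemma ind_zero (I : Ideal (MvPolynomial (Fin n) K)) (y : Fin r → MvPolynomial (Fin n) K)
    (halg : AlgebraicIndependent K (fun k => Ideal.Quotient.mkₐ K I (y k))) :
    Ind I y {0} := by
  unfold Ind LinearIndepOn
  have h1 := (MvPolynomial.basisMonomials (Fin r) K).linearIndependent.map'
    (aeval (fun k => Ideal.Quotient.mkₐ K I (y k))).toLinearMap
    (LinearMap.ker_eq_bot.2 halg)
  have h2 := h1.comp (fun s : {s : (Fin r → ℕ) × (Fin n →₀ ℕ) | s.2 ∈ ({0} : Finset _)} =>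
    Finsupp.equivFunOnFinite.symm s.1.1) (by
      intro s s' h
      have h3 := Finsupp.equivFunOnFinite.symm.injective h
      have h4 : s.1.2 = 0 := by simpa using s.2
      have h5 : s'.1.2 = 0 := by simpa using s'.2
      exact Subtype.ext (Prod.ext h3 (by rw [h4, h5])))
  have e : (fun x : {s : (Fin r → ℕ) × (Fin n →₀ ℕ) | s.2 ∈ ({0} : Finset _)} =>
      Ideal.Quotient.mkₐ K I (ym y x.1)) =
      ((aeval (fun k => Ideal.Quotient.mkₐ K I (y k))).toLinearMap ∘
        (MvPolynomial.basisMonomials (Fin r) K)) ∘ (fun s :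
          {s : (Fin r → ℕ) × (Fin n →₀ ℕ) | s.2 ∈ ({0} : Finset _)} =>
          Finsupp.equivFunOnFinite.symm s.1.1) := by
    funext s
    have h4 : s.1.2 = 0 := by simpa using s.2
    simp only [Function.comp_apply, AlgHom.toLinearMap_apply, coe_basisMonomials, aeval_monomial,
      map_one, one_mul]
    rw [Finsupp.prod_fintype _ _ (fun _ => pow_zero _), ym, h4]
    simp [map_prod]
  rw [e]
  exact h2

theorem module_main {ι : Type} [Fintype ι] (G : ι → MvPolynomial (Fin n) K)
    (g : ι → ℕ) (hG : ∀ k, (G k).IsHomogeneous (g k)) (d : ℕ) (hd : 1 ≤ d)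
    (y : Fin r → MvPolynomial (Fin n) K) (hy : ∀ k, (y k).IsHomogeneous d) (k0 : Fin r)
    (h0 : ∀ (L : Type) [Field L] [Algebra K L] (x : Fin n → L), (∀ k, aeval x (G k) = 0) →
      (∀ k, aeval x (y k) = 0) → x = 0) (hprime : (Ideal.span (Set.range G)).IsPrime)
    (halg : AlgebraicIndependent K
      (fun k => Ideal.Quotient.mkₐ K (Ideal.span (Set.range G)) (y k))) :
    ∃ (E : Finset (Fin n →₀ ℕ)) (t0 : ℕ), Ind (Ideal.span (Set.range G)) y E ∧ ∀ t, t0 ≤ t →
      ∀ M, Module.finrank K (VM (Ideal.span (Set.range G)) M) ≤ (Sm d E r (M + d * t)).card := by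
  classical
  obtain ⟨E0, hE00, hgen⟩ := gen G g hG d hd y hy h0
  set I := Ideal.span (Set.range G) with hI
  -- a maximal set
  obtain ⟨E, hEm, hEmax⟩ := Finset.exists_max_image
    (E0.powerset.filter fun E => Ind I y E) (fun E => E.card)
    ⟨{0}, Finset.mem_filter.2 ⟨Finset.mem_powerset.2 (Finset.singleton_subset_iff.2 hE00),
      ind_zero I y halg⟩⟩
  rw [Finset.mem_filter, Finset.mem_powerset] at hEm
  obtain ⟨hEsub, hEind⟩ := hEm
  have hmul : ∀ β : E0, ∃ (t : ℕ) (Q : MvPolynomial (Fin r) K), Q ≠ 0 ∧ Q.IsHomogeneous t ∧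
      aeval y Q * monomial β.1 1 ∈ Wm I d y E (β.1.degree + d * t) := by
    intro β
    by_cases hβ : β.1 ∈ E
    · refine ⟨0, 1, one_ne_zero, isHomogeneous_one _ _, ?_⟩
      have h1 := ym_mem I d y E (0, β.1) hβ
      have e2 : ym y (0, β.1) = (monomial β.1 1 : MvPolynomial (Fin n) K) := by
        simp [ym]
      have e3 : dg d ((0, β.1) : (Fin r → ℕ) × (Fin n →₀ ℕ)) = β.1.degree := by
        simp [dg]
      rw [e2, e3] at h1
      rw [map_one, one_mul, mul_zero, add_zero]
      exact h1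
    · refine exists_mult G g hG d hd y hy E hEind β.1 fun hcon => ?_
      have h1 := hEmax (insert β.1 E) (Finset.mem_filter.2 ⟨Finset.mem_powerset.2
        (Finset.insert_subset β.2 hEsub), hcon⟩)
      rw [Finset.card_insert_of_notMem hβ] at h1
      omega
  choose t Q hQ0 hQh hQm using hmul
  refine ⟨E, ∑ β, t β, hEind, fun t' ht' M => ?_⟩
  set P : MvPolynomial (Fin r) K := (∏ β, Q β) * X k0 ^ (t' - ∑ β, t β) with hP
  have hP0 : P ≠ 0 := mul_ne_zero (Finset.prod_ne_zero_iff.2 fun β _ => hQ0 β)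
    (pow_ne_zero _ (X_ne_zero _))
  have hPβ : ∀ β : E0, aeval y P * monomial β.1 1 ∈ Wm I d y E (β.1.degree + d * t') := by
    intro β
    set P' : MvPolynomial (Fin r) K := (∏ β' ∈ Finset.univ.erase β, Q β') *
      X k0 ^ (t' - ∑ β, t β) with hP'
    have hP'h : P'.IsHomogeneous ((∑ β' ∈ Finset.univ.erase β, t β') +
        1 * (t' - ∑ β, t β)) := by
      refine IsHomogeneous.mul (IsHomogeneous.prod _ _ _ fun β' _ => hQh β') ?_
      exact (isHomogeneous_X K k0).pow _
    have h1 := mul_Wm I d y E _ _ P' hP'h (hQm β)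
    have e1 : aeval y P' * (aeval y (Q β) * monomial β.1 1) =
        aeval y P * (monomial β.1 1 : MvPolynomial (Fin n) K) := by
      rw [← mul_assoc, ← map_mul]
      congr 2
      rw [hP', hP, ← Finset.mul_prod_erase Finset.univ Q (Finset.mem_univ β)]
      ring
    have e2 : β.1.degree + d * t β + d * ((∑ β' ∈ Finset.univ.erase β, t β') +
        1 * (t' - ∑ β, t β)) = β.1.degree + d * t' := by
      have h2 : t β + ∑ β' ∈ Finset.univ.erase β, t β' = ∑ β, t β :=
        Finset.add_sum_erase _ _ (Finset.mem_univ β)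
      have h3 : t β + ((∑ β' ∈ Finset.univ.erase β, t β') + 1 * (t' - ∑ β, t β)) = t' := by
        omega
      rw [add_assoc, ← mul_add, h3]
    rw [e1, e2] at h1
    exact h1
  have hPF : ∀ F : MvPolynomial (Fin n) K, F.IsHomogeneous M →
      aeval y P * F ∈ Wm I d y E (M + d * t') := by
    intro F hF
    refine Wm_induction I d y E0 M _ _ (fun s hs1 hs2 => ?_)
      (fun F hF => ideal_le_Wm _ _ _ _ _ hF) (hgen M F hF)
    have h1 := mul_Wm I d y E _ _ (∏ k, X k ^ s.1 k : MvPolynomial (Fin r) K)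
      (IsHomogeneous.prod _ _ _ fun k _ => (isHomogeneous_X K k).pow (s.1 k)) (hPβ ⟨s.2, hs1⟩)
    have e1 : aeval y (∏ k, X k ^ s.1 k : MvPolynomial (Fin r) K) *
        (aeval y P * monomial s.2 1) = aeval y P * ym y s := by
      rw [map_prod, ym]
      simp only [map_pow, aeval_X]
      ring
    have e2 : s.2.degree + d * t' + d * ∑ k, 1 * s.1 k = M + d * t' := by
      rw [← hs2, dg]
      simp only [one_mul]
      ring
    rw [e1, e2] at h1
    exact h1
  -- dimensions
  set A := MvPolynomial (Fin n) K ⧸ I with hA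
  set π : MvPolynomial (Fin n) K →ₐ[K] A := Ideal.Quotient.mkₐ K I with hπ
  set p : A := π (aeval y P) with hp
  have hp0 : p ≠ 0 := by
    intro h1
    have h2 : aeval (fun k => π (y k)) P = 0 := by
      rw [← h1, hp, comp_aeval_apply]
    have h3 := halg (a₁ := P) (a₂ := 0) (by
      rw [map_zero]
      exact h2)
    exact hP0 h3
  have hinj : Function.Injective (LinearMap.mulLeft K p) := by
    intro a b hab
    exact mul_left_cancel₀ hp0 hab
  set W : Submodule K A := Submodule.span K ((fun s => π (ym y s)) '' (Sm d E r (M + d * t') :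
    Set ((Fin r → ℕ) × (Fin n →₀ ℕ)))) with hW
  have hle : (VM I M).map (LinearMap.mulLeft K p) ≤ W := by
    rintro _ ⟨_, ⟨F, hF, rfl⟩, rfl⟩
    have h1 := hPF F hF
    have h2 : ∀ F' ∈ Wm I d y E (M + d * t'), π F' ∈ W := by
      intro F' hF'
      have h3 : Wm I d y E (M + d * t') ≤ W.comap π.toLinearMap := by
        refine sup_le (Submodule.span_le.2 ?_) ?_
        · rintro _ ⟨s, ⟨hs1, hs2⟩, rfl⟩
          exact Submodule.subset_span ⟨s, (mem_Sm hd E _ s).2 ⟨hs1, hs2⟩, rfl⟩
        · intro F' hF'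
          have h4 : π F' = 0 := Ideal.Quotient.eq_zero_iff_mem.2 hF'
          show π F' ∈ W
          rw [h4]
          exact zero_mem _
      exact h3 hF'
    have h3 := h2 _ h1
    rw [map_mul] at h3
    exact h3
  have hWfin : Module.Finite K W := by
    rw [hW]
    exact Module.Finite.span_of_finite K ((Finset.finite_toSet _).image _)
  have h1 := Submodule.finrank_mono hle
  have h2 : Module.finrank K ((VM I M).map (LinearMap.mulLeft K p)) = Module.finrank K (VM I M) :=
    (Submodule.equivMapOfInjective _ hinj (VM I M)).finrank_eq.symm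
  have h3 : Module.finrank K W ≤ (Sm d E r (M + d * t')).card := by
    rw [hW]
    have h4 := finrank_span_finset_le_card (R := K)
      ((Sm d E r (M + d * t')).image fun s => π (ym y s))
    rw [Finset.coe_image] at h4
    exact h4.trans Finset.card_image_le
  omega

end Pool.Agent.TH875
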