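import Pool.Agent.TH875.Cm2

set_option autoImplicit false

/-!
Algebraic independence, growth and symmetry.
-/

namespace Pool.Agent.TH875

open MvPolynomial Finset

section alg

variable {K : Type} [Field K] {n r : ℕ}

theorem alg_ind {ι : Type} [Fintype ι] (G : ι → MvPolynomial (Fin n) K)
    (g : ι → ℕ) (hG : ∀ k, (G k).IsHomogeneous (g k)) (d : ℕ) (hd : 1 ≤ d)
    (y : Fin r → MvPolynomial (Fin n) K) (hy : ∀ k, (y k).IsHomogeneous d)
    (h0 : ∀ (L : Type) [Field L] [Algebra K L] (x : Fin n → L), (∀ k, aeval x (G k) = 0) →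
      (∀ k, aeval x (y k) = 0) → x = 0) (hprime : (Ideal.span (Set.range G)).IsPrime)
    (htr : Algebra.trdeg K (MvPolynomial (Fin n) K ⧸ Ideal.span (Set.range G)) = r) :
    AlgebraicIndependent K
      (fun k => Ideal.Quotient.mkₐ K (Ideal.span (Set.range G)) (y k)) := by
  classical
  obtain ⟨E0, hE00, hgen⟩ := gen G g hG d hd y hy h0
  set I := Ideal.span (Set.range G) with hI
  set A := MvPolynomial (Fin n) K ⧸ I with hA
  set π : MvPolynomial (Fin n) K →ₐ[K] A := Ideal.Quotient.mkₐ K I with hπ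
  set S := Algebra.adjoin K (Set.range fun k => π (y k)) with hS
  have hyS : ∀ k, π (y k) ∈ S := fun k => Algebra.subset_adjoin ⟨k, rfl⟩
  -- `A` is finite over `S`
  set U : Submodule S A := Submodule.span S ((fun β => π (monomial β 1)) '' (E0 : Set _)) with hU
  have hmem : ∀ F : MvPolynomial (Fin n) K, π F ∈ U := by
    intro F
    rw [← sum_homogeneousComponent F, map_sum]
    refine Submodule.sum_mem _ fun M _ => ?_
    have h1 := hgen M _ (homogeneousComponent_isHomogeneous M F)
    have h2 : Wm I d y E0 M ≤ (U.restrictScalars K).comap π.toLinearMap := by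
      refine sup_le (Submodule.span_le.2 ?_) ?_
      · rintro _ ⟨s, ⟨hs1, hs2⟩, rfl⟩
        show π (ym y s) ∈ U
        rw [ym, map_mul, map_prod]
        simp only [map_pow]
        have h3 : (∏ k, π (y k) ^ s.1 k) ∈ S :=
          Subalgebra.prod_mem _ fun k _ => Subalgebra.pow_mem _ (hyS k) _
        have h4 := Submodule.smul_mem U (⟨_, h3⟩ : S) (Submodule.subset_span
          ⟨s.2, hs1, rfl⟩ : π (monomial s.2 1) ∈ U)
        exact h4
      · intro F' hF'
        have h4 : π F' = 0 := Ideal.Quotient.eq_zero_iff_mem.2 hF'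
        show π F' ∈ U
        rw [h4]
        exact zero_mem _
    exact h2 h1
  have hfin : Module.Finite S A := by
    refine ⟨⟨E0.image fun β => π (monomial β 1), ?_⟩⟩
    rw [eq_top_iff]
    rintro a -
    obtain ⟨F, rfl⟩ := Ideal.Quotient.mk_surjective a
    rw [Finset.coe_image]
    exact hmem F
  have halg : Algebra.IsAlgebraic S A := inferInstance
  have h1 := Algebra.IsAlgebraic.isTranscendenceBasis_of_le_trdeg_of_finite (R := K)
    (fun k => π (y k)) (by rw [htr, Cardinal.mk_fin])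
  exact h1.1

open Classical in
/-- the classes of the monomials with exponents at most `M` -/
noncomputable def mons (I : Ideal (MvPolynomial (Fin n) K)) (M : ℕ) :
    Finset (MvPolynomial (Fin n) K ⧸ I) :=
  (Fintype.piFinset fun _ : Fin n => Finset.range (M + 1)).image
    fun β => Ideal.Quotient.mkₐ K I (monomial (Finsupp.equivFunOnFinite.symm β) 1)

lemma VM_le_span (I : Ideal (MvPolynomial (Fin n) K)) (M : ℕ) :
    VM I M ≤ Submodule.span K (mons I M : Set (MvPolynomial (Fin n) K ⧸ I)) := by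
  classical
  rintro _ ⟨F, hF, rfl⟩
  have hF' : F.IsHomogeneous M := hF
  rw [F.as_sum]
  rw [map_sum]
  refine Submodule.sum_mem _ fun β hβ => ?_
  have e1 : monomial β (F.coeff β) = F.coeff β • (monomial β 1 : MvPolynomial (Fin n) K) := by
    rw [smul_monomial, smul_eq_mul, mul_one]
  rw [e1, map_smul]
  refine Submodule.smul_mem _ _ (Submodule.subset_span ?_)
  rw [Finset.mem_coe, mons, Finset.mem_image]
  refine ⟨fun i => β i, ?_, ?_⟩
  · rw [Fintype.mem_piFinset]
    intro i
    have hdeg : β.degree = M := by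
      have := hF' (mem_support_iff.1 hβ)
      exact (DFunLike.congr_fun (Finsupp.degree_eq_weight_one (σ := Fin n) (R := ℕ)) β).trans this
    have h2 : β i ≤ β.degree := Finsupp.le_degree i β
    rw [Finset.mem_range]
    omega
  · have e2 : Finsupp.equivFunOnFinite.symm (fun i => β i) = β := by
      ext i
      rfl
    rw [e2]
    rfl

lemma VM_finite (I : Ideal (MvPolynomial (Fin n) K)) (M : ℕ) : Module.Finite K (VM I M) := by
  have h1 : Module.Finite K (Submodule.span K (mons I M : Set (MvPolynomial (Fin n) K ⧸ I))) :=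
    Module.Finite.span_finset K _
  exact Submodule.finiteDimensional_of_le (VM_le_span I M)

lemma VM_le (I : Ideal (MvPolynomial (Fin n) K)) (M : ℕ) :
    Module.finrank K (VM I M) ≤ (M + 1) ^ n := by
  classical
  have h1 : Module.Finite K (Submodule.span K (mons I M : Set (MvPolynomial (Fin n) K ⧸ I))) :=
    Module.Finite.span_finset K _
  refine (Submodule.finrank_mono (VM_le_span I M)).trans ?_
  refine (finrank_span_finset_le_card _).trans ?_
  rw [mons]
  refine Finset.card_image_le.trans ?_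
  rw [Fintype.card_piFinset]
  simp

end alg

/-- a function of polynomial growth has steps with a bounded ratio -/
theorem growth (N : ℕ → ℕ) (n T : ℕ) (hle : ∀ m, N m ≤ (m + 1) ^ n)
    (hpos : ∀ k, 1 ≤ N (k * T)) (δ : ℝ) (hδ : 0 < δ) (hδ1 : δ < 1) (B : ℕ) :
    ∃ k, B ≤ k ∧ (1 - δ) * N ((k + 1) * T) ≤ N (k * T) := by
  by_contra hcon
  push Not at hcon
  have hr0 : 0 < 1 - δ := by linarith
  have h1 : ∀ j : ℕ, 1 ≤ (1 - δ) ^ j * N ((B + j) * T) := by
    intro j
    induction j with
    | zero =>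
      rw [pow_zero, one_mul, add_zero]
      exact_mod_cast hpos B
    | succ j ih =>
      have h2 := hcon (B + j) (Nat.le_add_right _ _)
      have h3 := mul_le_mul_of_nonneg_left h2.le (pow_nonneg hr0.le j)
      rw [← mul_assoc, ← pow_succ] at h3
      exact ih.trans h3
  set c : ℝ := (B + 1) * T + 1 with hc
  have hc0 : 0 < c := by positivity
  have h2 : ∀ j : ℕ, 1 ≤ (c ^ n / (1 - δ)) * (((j + 1 : ℕ) : ℝ) ^ n * (1 - δ) ^ (j + 1)) := by
    intro j
    have h3 : (N ((B + j) * T) : ℝ) ≤ c ^ n * ((j + 1 : ℕ) : ℝ) ^ n := by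
      have h4 : (N ((B + j) * T) : ℝ) ≤ (((B + j) * T + 1 : ℕ) : ℝ) ^ n := by
        exact_mod_cast hle ((B + j) * T)
      refine h4.trans ?_
      rw [← mul_pow]
      refine pow_le_pow_left₀ (Nat.cast_nonneg _) ?_ _
      rw [hc]
      push_cast
      have hT : (0 : ℝ) ≤ T := Nat.cast_nonneg _
      have hB : (0 : ℝ) ≤ B := Nat.cast_nonneg _
      have hj : (0 : ℝ) ≤ j := Nat.cast_nonneg _
      have : 0 ≤ (B : ℝ) * T * j := by positivity
      have : 0 ≤ (T : ℝ) * j := by positivity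
      nlinarith
    have h5 := h1 j
    have h6 : (1 - δ) ^ j * (N ((B + j) * T) : ℝ) ≤ (1 - δ) ^ j * (c ^ n * ((j + 1 : ℕ) : ℝ) ^ n) :=
      mul_le_mul_of_nonneg_left h3 (pow_nonneg hr0.le _)
    refine h5.trans (h6.trans (le_of_eq ?_))
    rw [pow_succ (1 - δ) j]
    field_simp
  have h3 : Filter.Tendsto (fun k : ℕ => ((k : ℕ) : ℝ) ^ n * (1 - δ) ^ k) Filter.atTop (nhds 0) :=
    tendsto_pow_const_mul_const_pow_of_abs_lt_one n (by rw [abs_of_pos hr0]; linarith)
  have h4 := (h3.comp (Filter.tendsto_add_atTop_nat 1)).const_mul (c ^ n / (1 - δ))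
  rw [mul_zero] at h4
  have h5 := h4.eventually (gt_mem_nhds (show (0 : ℝ) < 1 by norm_num))
  obtain ⟨j, hj⟩ := h5.exists
  have h6 := h2 j
  simp only [Function.comp_apply] at hj
  linarith

section sym

variable {n r : ℕ}

lemma sum_sym {d : ℕ} (hd : 1 ≤ d) (E : Finset (Fin n →₀ ℕ)) (m : ℕ) (k k' : Fin r) :
    ∑ s ∈ Sm d E r m, s.1 k = ∑ s ∈ Sm d E r m, s.1 k' := by
  classical
  refine Finset.sum_nbij' (fun s => (s.1 ∘ Equiv.swap k k', s.2))
    (fun s => (s.1 ∘ Equiv.swap k k', s.2)) ?_ ?_ ?_ ?_ ?_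
  · intro s hs
    rw [mem_Sm hd] at hs ⊢
    refine ⟨hs.1, ?_⟩
    rw [← hs.2]
    unfold dg
    simp only [Function.comp_apply]
    rw [Equiv.sum_comp (Equiv.swap k k') s.1]
  · intro s hs
    rw [mem_Sm hd] at hs ⊢
    refine ⟨hs.1, ?_⟩
    rw [← hs.2]
    unfold dg
    simp only [Function.comp_apply]
    rw [Equiv.sum_comp (Equiv.swap k k') s.1]
  · intro s _
    ext1
    · funext i; simp
    · rfl
  · intro s _
    ext1
    · funext i; simp
    · rfl
  · intro s _
    simp

/-- the total exponent of each `y k` -/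
lemma sum_exp {d : ℕ} (hd : 1 ≤ d) (E : Finset (Fin n →₀ ℕ)) (m B : ℕ)
    (hB : ∀ β ∈ E, β.degree ≤ B) (k : Fin r) :
    (Sm d E r m).card * (m - B) ≤ r * (d * ∑ s ∈ Sm d E r m, s.1 k) := by
  classical
  have h1 : r * (d * ∑ s ∈ Sm d E r m, s.1 k) = ∑ s ∈ Sm d E r m, d * ∑ k', s.1 k' := by
    rw [← Finset.mul_sum, Finset.sum_comm]
    have h2 : ∑ k', ∑ s ∈ Sm d E r m, s.1 k' = ∑ _k' : Fin r, ∑ s ∈ Sm d E r m, s.1 k :=
      Finset.sum_congr rfl fun k' _ => sum_sym hd E m k' k
    rw [h2, Finset.sum_const, Finset.card_univ, Fintype.card_fin, smul_eq_mul]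
    ring
  rw [h1, Finset.card_eq_sum_ones, Finset.sum_mul]
  refine Finset.sum_le_sum fun s hs => ?_
  rw [mem_Sm hd] at hs
  have h3 := hB s.2 hs.1
  have h4 := hs.2
  unfold dg at h4
  omega

end sym

end Pool.Agent.TH875
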