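import Pool.Agent.TH875.Cm3

set_option autoImplicit false

/-!
Steinitz exchange, sections, and the largest members of a family.
-/

namespace Pool.Agent.TH875

open MvPolynomial Finset

/-- Steinitz exchange -/
theorem ext_basis {K W κ : Type*} [Field K] [AddCommGroup W] [Module K W] [Fintype κ] {N : ℕ}
    (v : κ → W) (hv : LinearIndependent K v) (b0 : Module.Basis (Fin N) K W) :
    ∃ J : Finset (Fin N), Fintype.card κ + J.card = N ∧
      LinearIndependent K (Sum.elim v (fun j : J => b0 j)) := by
  classical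
  set f : κ ⊕ Fin N → W := Sum.elim v b0 with hf
  have hs : LinearIndepOn K f (Set.range Sum.inl) := by
    rw [LinearIndepOn, ← linearIndependent_equiv (Equiv.ofInjective Sum.inl Sum.inl_injective)]
    exact hv
  obtain ⟨b, -, hsb, htb, hli⟩ := exists_linearIndepOn_extension hs (Set.subset_univ _)
  set J : Finset (Fin N) := Finset.univ.filter fun j => Sum.inr j ∈ b with hJ
  -- the equivalence
  have hmem : ∀ x : κ ⊕ J, Sum.map id (fun j : J => (j : Fin N)) x ∈ b := by
    rintro (s | j)
    · exact hsb ⟨s, rfl⟩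
    · exact (Finset.mem_filter.1 j.2).2
  set φ : κ ⊕ J → b := fun x => ⟨_, hmem x⟩ with hφ
  have hφi : Function.Injective φ := by
    intro x x' h
    have h1 : Sum.map id (fun j : J => (j : Fin N)) x = Sum.map id (fun j : J => (j : Fin N)) x' :=
      congrArg Subtype.val h
    exact (Function.Injective.sumMap Function.injective_id Subtype.val_injective) h1
  have hφs : Function.Surjective φ := by
    rintro ⟨(s | j), hx⟩
    · exact ⟨Sum.inl s, rfl⟩
    · exact ⟨Sum.inr ⟨j, Finset.mem_filter.2 ⟨Finset.mem_univ _, hx⟩⟩, rfl⟩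
  have hli' : LinearIndependent K (Sum.elim v (fun j : J => b0 j)) := by
    have h1 : LinearIndependent K (fun x : b => f x) := hli
    have h2 := h1.comp φ hφi
    have e : (fun x : b => f x) ∘ φ = Sum.elim v (fun j : J => b0 j) := by
      funext x
      rcases x with s | j <;> rfl
    rwa [e] at h2
  refine ⟨J, ?_, hli'⟩
  have htop : Submodule.span K (Set.range (Sum.elim v (fun j : J => b0 j))) = ⊤ := by
    rw [eq_top_iff, ← b0.span_eq, Submodule.span_le]
    rintro _ ⟨j, rfl⟩
    have h1 : b0 j ∈ Submodule.span K (f '' b) := htb ⟨Sum.inr j, Set.mem_univ _, rfl⟩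
    refine (Submodule.span_mono ?_) h1
    rintro _ ⟨x, hx, rfl⟩
    obtain ⟨y, hy⟩ := hφs ⟨x, hx⟩
    refine ⟨y, ?_⟩
    have h2 : Sum.map id (fun j : J => (j : Fin N)) y = x := congrArg Subtype.val hy
    rw [← h2]
    rcases y with s | j <;> rfl
  have h1 := finrank_span_eq_card hli'
  rw [htop, finrank_top, Module.finrank_eq_card_basis b0, Fintype.card_fin, Fintype.card_sum,
    Fintype.card_coe] at h1
  exact h1.symm

/-- the `r` largest members of a family -/
theorem top_members {q r : ℕ} (hr : r ≤ q) (u : Fin q → ℝ) :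
    ∃ e : Fin r ↪ Fin q, ∀ j, j ∉ Set.range e → ∀ k, u j ≤ u (e k) := by
  classical
  set σ := Tuple.sort u with hσ
  have hm : Monotone (u ∘ σ) := Tuple.monotone_sort u
  refine ⟨⟨fun k => σ ⟨q - r + k, by omega⟩, fun k k' h => ?_⟩, fun j hj k => ?_⟩
  · have h1 := σ.injective h
    have h2 := congrArg Fin.val h1
    simp only at h2
    exact Fin.ext (by omega)
  · obtain ⟨i, rfl⟩ := σ.surjective j
    have hi : (i : ℕ) < q - r := by
      by_contra hcon
      push Not at hcon
      apply hj
      refine ⟨⟨i - (q - r), by omega⟩, ?_⟩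
      show σ _ = σ i
      congr 1
      exact Fin.ext (by simp; omega)
    exact hm (Fin.le_def.2 (by simp; omega))

section sec

variable {K : Type} [Field K] {n : ℕ}

/-- a section of the projection of the forms of degree `M` -/
theorem exists_sec (I : Ideal (MvPolynomial (Fin n) K)) (M : ℕ) :
    ∃ s : VM I M →ₗ[K] MvPolynomial (Fin n) K, ∀ v, (s v).IsHomogeneous M ∧
      Ideal.Quotient.mkₐ K I (s v) = v := by
  set π : homogeneousSubmodule (Fin n) K M →ₗ[K] VM I M :=
    ((Ideal.Quotient.mkₐ K I).toLinearMap.restrict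
      (p := homogeneousSubmodule (Fin n) K M) (q := VM I M)
      (fun x hx => ⟨x, hx, rfl⟩)) with hπ
  have hsurj : Function.Surjective π := by
    rintro ⟨_, ⟨F, hF, rfl⟩⟩
    exact ⟨⟨F, hF⟩, rfl⟩
  obtain ⟨g, hg⟩ := π.exists_rightInverse_of_surjective (LinearMap.range_eq_top.2 hsurj)
  refine ⟨(homogeneousSubmodule (Fin n) K M).subtype.comp g, fun v => ⟨(g v).2, ?_⟩⟩
  have h1 := congrArg Subtype.val (LinearMap.congr_fun hg v)
  exact h1

end sec

end Pool.Agent.TH875
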