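import Pool.Agent.TH875.Two
import Pool.Agent.TH875.Cm4

set_option autoImplicit false

/-!
Local estimates.
-/

namespace Pool.Agent.TH875

open MvPolynomial Finset NumberField IsDedekindDomain Height
open Pool.Agent.W180.OP Pool.Agent.W180.TP

section loc

variable {K L : Type} [Field K] [Field L] [Algebra K L] (f : AbsoluteValue L ℝ) {n r : ℕ}

lemma rho_mono_le {x : Fin n → L} (hx : x ≠ 0) (β : Fin n →₀ ℕ) :
    rho f β.degree (monomial β 1 : MvPolynomial (Fin n) K) x ≤ 1 := by
  classical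
  unfold rho
  have hpos := nrm_pos f hx
  rw [div_le_one (pow_pos hpos _), aeval_monomial, map_one, one_mul,
    Finsupp.prod_fintype _ _ (fun _ => pow_zero _), map_prod, Finsupp.degree_eq_sum,
    ← Finset.prod_pow_eq_pow_sum]
  refine Finset.prod_le_prod (fun i _ => f.nonneg _) fun i _ => ?_
  rw [map_pow]
  exact pow_le_pow_left₀ (f.nonneg _) (le_nrm f x i) _

lemma lam_of_eq {d : ℕ} {P Q : MvPolynomial (Fin n) K} {x : Fin n → L}
    (h : aeval x P = aeval x Q) : lam f d (bc L P) x = lam f d (bc L Q) x := by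
  rw [lam_rho, lam_rho]
  unfold rho
  rw [h]

/-- the local height of a monomial in the `y` -/
lemma lam_ym {d : ℕ} (y : Fin r → MvPolynomial (Fin n) K) {x : Fin n → L} (hx : x ≠ 0)
    (hy : ∀ k, aeval x (y k) ≠ 0) (s : (Fin r → ℕ) × (Fin n →₀ ℕ))
    (hs : aeval x (ym y s) ≠ 0) :
    ∑ k, (s.1 k : ℝ) * lam f d (bc L (y k)) x ≤ lam f (dg d s) (bc L (ym y s)) x := by
  classical
  have h1 : rho f (dg d s) (ym y s) x = (∏ k, rho f d (y k) x ^ s.1 k) *
      rho f s.2.degree (monomial s.2 1 : MvPolynomial (Fin n) K) x := by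
    unfold rho ym dg
    rw [map_mul, map_mul, map_prod, map_prod, pow_add, mul_div_mul_comm]
    congr 1
    simp only [div_pow]
    rw [Finset.prod_div_distrib]
    congr 1
    · exact Finset.prod_congr rfl fun k _ => by rw [map_pow, map_pow]
    · rw [pow_mul, ← Finset.prod_pow_eq_pow_sum]
  have hmon : aeval x (monomial s.2 1 : MvPolynomial (Fin n) K) ≠ 0 := by
    intro h0
    apply hs
    rw [ym, map_mul, h0, mul_zero]
  have h2 := rho_pos f s.2.degree _ hx hmon
  have h3 := rho_mono_le (K := K) f hx s.2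
  have h4 : ∀ k, 0 < rho f d (y k) x := fun k => rho_pos f d _ hx (hy k)
  rw [lam_rho, h1, Real.log_mul (Finset.prod_ne_zero_iff.2 fun k _ => (pow_pos (h4 k) _).ne')
    h2.ne', Real.log_prod fun k _ => (pow_pos (h4 k) _).ne']
  have h5 : Real.log (rho f s.2.degree (monomial s.2 1 : MvPolynomial (Fin n) K) x) ≤ 0 :=
    Real.log_nonpos h2.le h3
  have h6 : ∑ k, (s.1 k : ℝ) * lam f d (bc L (y k)) x =
      - ∑ k, Real.log (rho f d (y k) x ^ s.1 k) := by
    rw [← Finset.sum_neg_distrib]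
    refine Finset.sum_congr rfl fun k _ => ?_
    rw [lam_rho, Real.log_pow]
    ring
  rw [h6]
  linarith

end loc

variable {K : Type} [Field K] [NumberField K]

/-- a form is not large -/
theorem form_ub {n e : ℕ} (F : MvPolynomial (Fin n) K) (hF : F.IsHomogeneous e) :
    ∃ C : ℝ, 0 ≤ C ∧ ∀ (L : Type) [Field L] [NumberField L] [Algebra K L] (p : Pl L)
      (x : Fin n → L), x ≠ 0 → aeval x F ≠ 0 →
        -(wt p * lam (av p) e (bc L F) x) ≤ C * Module.finrank ℚ L := by
  classical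
  have hF' : F = ∑ β : F.support, F.coeff β.1 • (monomial β.1 1 : MvPolynomial (Fin n) K) := by
    conv_lhs => rw [F.as_sum]
    rw [← Finset.sum_coe_sort]
    refine Finset.sum_congr rfl fun β _ => ?_
    rw [smul_monomial, smul_eq_mul, mul_one]
  obtain ⟨C, hC0, hC⟩ := comb_le (m := e) (fun β : F.support =>
    (monomial β.1 1 : MvPolynomial (Fin n) K)) F (fun β => F.coeff β.1) hF'
  refine ⟨C, hC0, fun L _ _ _ p x hx hFx => ?_⟩
  obtain ⟨R, hR, h1⟩ := hC L p
  have h2 := h1 x 1 hx zero_le_one fun β _ => by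
    have hdeg : β.1.degree = e := by
      have := hF (mem_support_iff.1 β.2)
      exact (DFunLike.congr_fun (Finsupp.degree_eq_weight_one (σ := Fin n) (R := ℕ)) β.1).trans
        this
    rw [← hdeg]
    exact rho_mono_le (K := K) (av p) hx β.1
  rw [mul_one] at h2
  have h3 := Real.log_le_log (rho_pos (av p) e F hx hFx) h2
  have h4 := mul_le_mul_of_nonneg_left h3 (wt_nonneg p)
  rw [lam_rho]
  have h5 := hR.2
  linarith

/-- forms without common zeros are not all small -/
theorem not_all {n m r D : ℕ} (hr : 0 < r) (G : Fin m → MvPolynomial (Fin n) K) (g : Fin m → ℕ)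
    (hG : ∀ k, (G k).IsHomogeneous (g k)) (y : Fin r → MvPolynomial (Fin n) K)
    (hy : ∀ k, (y k).IsHomogeneous D)
    (h0 : ∀ (L : Type) [Field L] [Algebra K L] (x : Fin n → L), (∀ k, aeval x (G k) = 0) →
      (∀ k, aeval x (y k) = 0) → x = 0) :
    ∃ C : ℝ, 0 ≤ C ∧ ∀ (L : Type) [Field L] [NumberField L] [Algebra K L] (p : Pl L)
      (x : Fin n → L), x ≠ 0 → (∀ k, aeval x (G k) = 0) → (∀ k, aeval x (y k) ≠ 0) →
        ∃ k, wt p * lam (av p) D (bc L (y k)) x ≤ C * Module.finrank ℚ L := by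
  classical
  obtain ⟨C, hC0, hC⟩ := ineq y (fun _ => D) hy G g hG 1 0 (isHomogeneous_one _ _) (by
    intro a
    have h1 : (X a : MvPolynomial (Fin n) K) ∈
        (Ideal.span (Set.range (Sum.elim y G))).radical := by
      refine mem_rad _ _ fun L _ _ x hx => ?_
      have h2 := h0 L x (fun k => hx (Sum.inr k)) (fun k => hx (Sum.inl k))
      rw [h2, aeval_X]
      rfl
    obtain ⟨M, hM⟩ := h1
    exact ⟨M, by rwa [mul_one]⟩)
  refine ⟨C + Real.log r, add_nonneg hC0 (Real.log_natCast_nonneg r), fun L _ _ _ p x hx hGx hyx =>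
    ?_⟩
  obtain ⟨R, hR, h1⟩ := hC L p
  have h2 := h1 x hx hGx
  rw [rho_one] at h2
  have : Nonempty (Fin r) := ⟨⟨0, hr⟩⟩
  obtain ⟨k, -, hk⟩ := Finset.exists_max_image Finset.univ (fun k => rho (av p) D (y k) x)
    Finset.univ_nonempty
  refine ⟨k, ?_⟩
  have h3 : ∑ k, rho (av p) D (y k) x ≤ r * rho (av p) D (y k) x := by
    have h4 : ∑ k', rho (av p) D (y k') x ≤ ∑ _k' : Fin r, rho (av p) D (y k) x :=
      Finset.sum_le_sum fun k' _ => hk k' (Finset.mem_univ _)
    rwa [Finset.sum_const, Finset.card_univ, Fintype.card_fin, nsmul_eq_mul] at h4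
  have hR0 : 0 < R := by linarith [hR.1]
  have hr0 : (0 : ℝ) < r := by exact_mod_cast hr
  have hρ := rho_pos (av p) D (y k) hx (hyx k)
  have h5 : 1 ≤ R * (r * rho (av p) D (y k) x) :=
    h2.trans (mul_le_mul_of_nonneg_left h3 hR0.le)
  have h6 := Real.log_le_log one_pos h5
  rw [Real.log_one, Real.log_mul hR0.ne' (by positivity), Real.log_mul hr0.ne' hρ.ne'] at h6
  have h7 := mul_le_mul_of_nonneg_left h6 (wt_nonneg p)
  have h8 := hR.2
  have h9 : wt p * Real.log r ≤ Module.finrank ℚ L * Real.log r :=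
    mul_le_mul_of_nonneg_right (wt_le p) (Real.log_natCast_nonneg r)
  rw [lam_rho]
  linarith

end Pool.Agent.TH875
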