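import Pool.Agent.TH875.Cm5

set_option autoImplicit false

/-!
The proximity function of hypersurface sections in general position: one place.
-/

namespace Pool.Agent.TH875

open MvPolynomial Finset NumberField IsDedekindDomain Height
open Pool.Agent.W180.OP Pool.Agent.W180.TP

lemma aeval_ideal {K L : Type} [Field K] [Field L] [Algebra K L] {n m : ℕ}
    {G : Fin m → MvPolynomial (Fin n) K} {x : Fin n → L}
    (hx : ∀ k, aeval x (G k) = 0) {F : MvPolynomial (Fin n) K}
    (hF : F ∈ Ideal.span (Set.range G)) : aeval x F = 0 := by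
  have h1 : Ideal.span (Set.range G) ≤ RingHom.ker (aeval x : MvPolynomial (Fin n) K →ₐ[K] L) := by
    rw [Ideal.span_le]
    rintro _ ⟨k, rfl⟩
    exact hx k
  exact h1 hF

variable {K : Type} [Field K] [NumberField K]

/-- the family of forms -/
noncomputable def fam2 {n N : ℕ} {κ : Type} {I : Ideal (MvPolynomial (Fin n) K)} {M : ℕ}
    (sec : VM I M →ₗ[K] MvPolynomial (Fin n) K) (v : κ → VM I M)
    (b0 : Fin N → VM I M) : κ ⊕ Fin N → MvPolynomial (Fin n) K :=
  Sum.elim (fun s => sec (v s)) fun j => sec (b0 j)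

/-- one place: data of degree `M` -/
theorem place_est {n m q r M D N Bm : ℕ} (hr : 0 < r) (hD : 1 ≤ D)
    (I : Ideal (MvPolynomial (Fin n) K))
    (G : Fin m → MvPolynomial (Fin n) K) (hI : I = Ideal.span (Set.range G)) (g : Fin m → ℕ)
    (hG : ∀ k, (G k).IsHomogeneous (g k))
    (F : Fin q → MvPolynomial (Fin n) K) (d : Fin q → ℕ) (hd : ∀ i, 1 ≤ d i)
    (hF : ∀ i, (F i).IsHomogeneous (d i)) (hdD : ∀ i, d i ∣ D)
    (e : Fin r ↪ Fin q) (y : Fin r → MvPolynomial (Fin n) K)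
    (hy : ∀ k, y k = F (e k) ^ (D / d (e k))) (hyh : ∀ k, (y k).IsHomogeneous D)
    (h0y : ∀ (L : Type) [Field L] [Algebra K L] (x : Fin n → L), (∀ k, aeval x (G k) = 0) →
      (∀ k, aeval x (y k) = 0) → x = 0)
    (E : Finset (Fin n →₀ ℕ)) (hE : Ind I y E)
    (hB : ∀ β ∈ E, β.degree ≤ Bm)
    (sec : VM I M →ₗ[K] MvPolynomial (Fin n) K)
    (hsec : ∀ v, (sec v).IsHomogeneous M ∧ Ideal.Quotient.mkₐ K I (sec v) = v)
    (b0 : Module.Basis (Fin N) K (VM I M)) (v : {s // s ∈ Sm D E r M} → VM I M)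
    (hv : ∀ s, (v s : MvPolynomial (Fin n) K ⧸ I) = Ideal.Quotient.mkₐ K I (ym y s.1))
    (α : ℝ) (hα0 : 0 ≤ α)
    (hα : α * r ≤ (Sm D E r M).card * ((M : ℝ) - Bm)) (hMB : Bm ≤ M) :
    ∃ C : ℝ, 0 ≤ C ∧ ∀ (L : Type) [Field L] [NumberField L] [Algebra K L] (p : Pl L)
      (x : Fin n → L), x ≠ 0 → (∀ k, aeval x (G k) = 0) → (∀ i, aeval x (F i) ≠ 0) →
        (∀ j, aeval x (sec (b0 j)) ≠ 0) → (∀ s, aeval x (sec (v s)) ≠ 0) →
        (∀ j, j ∉ Set.range e → ∀ k, lam (av p) (d j) (bc L (F j)) x / d j ≤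
          lam (av p) (d (e k)) (bc L (F (e k))) x / d (e k)) →
        ∃ w : Fin N → {s // s ∈ Sm D E r M} ⊕ Fin N,
          LinearIndependent K (fun k => fam2 sec v b0 (w k)) ∧
          α * (wt p * ∑ i, lam (av p) (d i) (bc L (F i)) x / d i) ≤
            wt p * ∑ k, lam (av p) M (bc L (fam2 sec v b0 (w k))) x +
              C * Module.finrank ℚ L := by
  classical
  obtain ⟨Ca, hCa0, hCa⟩ := not_all hr G g hG y hyh h0y
  choose Cb hCb0 hCb using fun i : Fin q => form_ub (F i) (hF i)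
  choose Cc hCc0 hCc using fun j : Fin N => form_ub (sec (b0 j)) (hsec (b0 j)).1
  -- the independent family
  have hvi : LinearIndependent K v := by
    refine LinearIndependent.of_comp (VM I M).subtype ?_
    have h1 : LinearIndependent K (fun s : {s : (Fin r → ℕ) × (Fin n →₀ ℕ) | s.2 ∈ E} =>
      Ideal.Quotient.mkₐ K I (ym y s.1)) := hE
    have h2 := h1.comp (fun s : {s // s ∈ Sm D E r M} =>
      (⟨s.1, ((mem_Sm hD E M s.1).1 s.2).1⟩ : {s : (Fin r → ℕ) × (Fin n →₀ ℕ) | s.2 ∈ E})) (by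
        intro s s' h
        exact Subtype.ext (congrArg (fun z => z.1) h))
    have e1 : (VM I M).subtype ∘ v = (fun s : {s : (Fin r → ℕ) × (Fin n →₀ ℕ) | s.2 ∈ E} =>
      Ideal.Quotient.mkₐ K I (ym y s.1)) ∘ (fun s : {s // s ∈ Sm D E r M} =>
      (⟨s.1, ((mem_Sm hD E M s.1).1 s.2).1⟩ : {s : (Fin r → ℕ) × (Fin n →₀ ℕ) | s.2 ∈ E})) := by
      funext s
      exact hv s
    rw [e1]
    exact h2
  have hsecinj : Function.Injective sec := by
    intro a a' h
    have h1 := (hsec a).2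
    rw [h, (hsec a').2] at h1
    exact Subtype.ext h1.symm
  obtain ⟨J, hJ, hJi⟩ := ext_basis v hvi b0
  have hcard : Fintype.card ({s // s ∈ Sm D E r M} ⊕ J) = N := by
    rw [Fintype.card_sum, Fintype.card_coe J]
    exact hJ
  set ψ := (Fintype.equivFinOfCardEq hcard).symm with hψ
  set A : ℕ := ∑ s ∈ Sm D E r M, s.1 ⟨0, hr⟩ with hA
  have hAk : ∀ k, ∑ s ∈ Sm D E r M, s.1 k = A := fun k => sum_sym hD E M k _
  have hαA : α ≤ D * A := by
    have h1 := sum_exp hD E M Bm hB (⟨0, hr⟩ : Fin r)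
    have h2 : ((Sm D E r M).card : ℝ) * ((M : ℝ) - Bm) ≤ r * (D * A) := by
      rw [← Nat.cast_sub hMB]
      exact_mod_cast h1
    have hr0 : (0 : ℝ) < r := by exact_mod_cast hr
    have h3 : α * r ≤ (D * A) * r := by linarith
    exact le_of_mul_le_mul_right h3 hr0
  set Cbs := ∑ i, Cb i with hCbs
  have hCbs0 : 0 ≤ Cbs := Finset.sum_nonneg fun i _ => hCb0 i
  have hCcs0 : 0 ≤ ∑ j, Cc j := Finset.sum_nonneg fun i _ => hCc0 i
  have hDA : 0 ≤ D * A - α := by linarith
  refine ⟨α * (q * Ca) + (D * A - α) * (r * Cbs) + ∑ j, Cc j, by positivity, ?_⟩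
  intro L _ _ _ p x hx hGx hFx hbx hvx htop
  refine ⟨fun k => Sum.map id (fun j : J => (j : Fin N)) (ψ k), ?_, ?_⟩
  · have h1 := (hJi.map' sec (LinearMap.ker_eq_bot.2 hsecinj)).comp ψ ψ.injective
    have e1 : (fun k => fam2 sec v b0 (Sum.map id (fun j : J => (j : Fin N)) (ψ k))) =
        (sec ∘ Sum.elim v (fun j : J => b0 j)) ∘ ψ := by
      funext k
      simp only [Function.comp_apply]
      rcases ψ k with s | j <;> rfl
    rw [e1]
    exact h1
  set f := av p with hf
  set Nq : ℝ := (Module.finrank ℚ L : ℝ) with hNq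
  have hNq0 : 0 ≤ Nq := Nat.cast_nonneg _
  set u : Fin q → ℝ := fun i => lam f (d i) (bc L (F i)) x / d i with hu
  have hwt := wt_nonneg p
  have hd0 : ∀ i, (1 : ℝ) ≤ d i := fun i => by exact_mod_cast hd i
  have hD1 : (1 : ℝ) ≤ D := by exact_mod_cast hD
  have hyx : ∀ k, aeval x (y k) ≠ 0 := by
    intro k
    rw [hy, map_pow]
    exact pow_ne_zero _ (hFx _)
  -- local heights of the `y`
  have hlamy : ∀ k, lam f D (bc L (y k)) x = D * u (e k) := by
    intro k
    have hdk : (d (e k) : ℝ) ≠ 0 := by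
      have := hd0 (e k)
      linarith
    have e1 : (D : ℝ) = d (e k) * ((D / d (e k) : ℕ) : ℝ) := by
      exact_mod_cast (Nat.mul_div_cancel' (hdD (e k))).symm
    have e2 : rho f D (y k) x = rho f (d (e k)) (F (e k)) x ^ (D / d (e k)) := by
      have h1 := rho_pow (K := K) f (d (e k)) (D / d (e k)) (F (e k)) x
      rw [Nat.mul_div_cancel' (hdD (e k)), ← hy] at h1
      exact h1
    rw [lam_rho, e2, Real.log_pow]
    simp only [hu]
    rw [lam_rho]
    conv_rhs => rw [e1]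
    field_simp
  -- the sum over the chosen basis
  have hsplit : ∑ k, lam f M (bc L (fam2 sec v b0
      (Sum.map id (fun j : J => (j : Fin N)) (ψ k)))) x =
      ∑ s : {s // s ∈ Sm D E r M}, lam f M (bc L (sec (v s))) x +
        ∑ j : J, lam f M (bc L (sec (b0 j))) x := by
    rw [Equiv.sum_comp ψ (fun z => lam f M (bc L (fam2 sec v b0
      (Sum.map id (fun j : J => (j : Fin N)) z))) x), Fintype.sum_sum_type]
    rfl
  have hval : ∀ s : {s // s ∈ Sm D E r M}, aeval x (sec (v s)) = aeval x (ym y s.1) := by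
    intro s
    have h1 : sec (v s) - ym y s.1 ∈ I := by
      rw [← Ideal.Quotient.eq_zero_iff_mem, ← Ideal.Quotient.mkₐ_eq_mk K, map_sub,
        (hsec (v s)).2, hv]
      exact sub_self _
    have h2 := aeval_ideal hGx (hI.le h1)
    rw [map_sub, sub_eq_zero] at h2
    exact h2
  have hym : ∀ s : {s // s ∈ Sm D E r M},
      ∑ k, (s.1.1 k : ℝ) * (D * u (e k)) ≤ lam f M (bc L (sec (v s))) x := by
    intro s
    have h1 := lam_ym f (d := D) y hx hyx s.1 (by rw [← hval s]; exact hvx s)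
    rw [((mem_Sm hD E M s.1).1 s.2).2] at h1
    rw [lam_of_eq f (hval s)]
    refine le_trans (le_of_eq ?_) h1
    exact Finset.sum_congr rfl fun k _ => by rw [hlamy]
  have hsum1 : (D * A : ℝ) * ∑ k, u (e k) ≤
      ∑ s : {s // s ∈ Sm D E r M}, lam f M (bc L (sec (v s))) x := by
    refine le_trans (le_of_eq ?_) (Finset.sum_le_sum fun s _ => hym s)
    rw [Finset.sum_comm, Finset.mul_sum]
    refine Finset.sum_congr rfl fun k _ => ?_
    rw [← Finset.sum_mul, Finset.sum_coe_sort (Sm D E r M) (fun s => (s.1 k : ℝ)),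
      ← Nat.cast_sum, hAk k]
    ring
  have hsum2 : -(∑ j, Cc j) * Nq ≤ wt p * ∑ j : J, lam f M (bc L (sec (b0 j))) x := by
    have h1 : ∀ j : J, -(Cc j * Nq) ≤ wt p * lam f M (bc L (sec (b0 j))) x := fun j => by
      have := hCc j L p x hx (hbx j)
      linarith
    have h2 : ∑ j : J, -(Cc j * Nq) ≤ wt p * ∑ j : J, lam f M (bc L (sec (b0 j))) x := by
      rw [Finset.mul_sum]
      exact Finset.sum_le_sum fun j _ => h1 j
    refine le_trans ?_ h2
    rw [Finset.sum_neg_distrib, ← Finset.sum_mul, neg_mul, neg_le_neg_iff,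
      Finset.sum_coe_sort J (fun j => Cc j)]
    exact mul_le_mul_of_nonneg_right (Finset.sum_le_sum_of_subset_of_nonneg
      (Finset.subset_univ _) fun j _ _ => hCc0 j) hNq0
  -- the bounds for `u`
  have hulow : ∀ i, -(Cbs * Nq) ≤ wt p * u i := by
    intro i
    have h1 := hCb i L p x hx (hFx i)
    have h2 : Cb i ≤ Cbs := Finset.single_le_sum (f := Cb) (fun i _ => hCb0 i)
      (Finset.mem_univ i)
    have h3 := mul_le_mul_of_nonneg_right h2 hNq0
    have hCN : 0 ≤ Cbs * Nq := by positivity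
    have h4 : wt p * u i = (wt p * lam f (d i) (bc L (F i)) x) / d i := by
      simp only [hu]; ring
    rw [h4, le_div_iff₀ (by linarith [hd0 i])]
    have h5 : Cbs * Nq ≤ (Cbs * Nq) * d i := le_mul_of_one_le_right hCN (hd0 i)
    linarith
  obtain ⟨k1, hk1⟩ := hCa L p x hx hGx hyx
  have huk1 : wt p * u (e k1) ≤ Ca * Nq := by
    rw [hlamy] at hk1
    have hCN : 0 ≤ Ca * Nq := by positivity
    rcases le_total (wt p * u (e k1)) 0 with h | h
    · linarith
    · have : wt p * u (e k1) ≤ D * (wt p * u (e k1)) := le_mul_of_one_le_left h hD1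
      linarith
  have hrest : ∀ j, j ∉ Set.range e → wt p * u j ≤ Ca * Nq := by
    intro j hj
    exact (mul_le_mul_of_nonneg_left (htop j hj k1) hwt).trans huk1
  have hsum3 : wt p * ∑ i, u i ≤ wt p * ∑ k, u (e k) + q * Ca * Nq := by
    have e1 : ∑ i, u i = ∑ i ∈ Finset.univ.map e, u i +
        ∑ i ∈ Finset.univ.filter (fun i => i ∉ Finset.univ.map e), u i := by
      rw [← Finset.sum_filter_add_sum_filter_not Finset.univ (fun i => i ∈ Finset.univ.map e)]
      congr 1
      refine Finset.sum_congr ?_ fun _ _ => rfl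
      ext i
      simp
    rw [e1, Finset.sum_map, mul_add]
    refine add_le_add le_rfl ?_
    rw [Finset.mul_sum]
    have h1 : ∑ i ∈ Finset.univ.filter (fun i => i ∉ Finset.univ.map e), wt p * u i ≤
        ∑ _i ∈ Finset.univ.filter (fun i : Fin q => i ∉ Finset.univ.map e), Ca * Nq := by
      refine Finset.sum_le_sum fun i hi => hrest i ?_
      have h2 := (Finset.mem_filter.1 hi).2
      simpa using h2
    refine h1.trans ?_
    rw [Finset.sum_const, nsmul_eq_mul, mul_assoc]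
    refine mul_le_mul_of_nonneg_right ?_ (by positivity)
    have h3 := Finset.card_le_univ (Finset.univ.filter fun i : Fin q => i ∉ Finset.univ.map e)
    rw [Fintype.card_fin] at h3
    exact_mod_cast h3
  have hsum4 : -(r * (Cbs * Nq)) ≤ wt p * ∑ k, u (e k) := by
    rw [Finset.mul_sum]
    have h1 : ∑ _k : Fin r, -(Cbs * Nq) ≤ ∑ k, wt p * u (e k) :=
      Finset.sum_le_sum fun k _ => hulow (e k)
    rw [Finset.sum_const, Finset.card_univ, Fintype.card_fin, nsmul_eq_mul] at h1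
    linarith
  rw [hsplit]
  have h1 := mul_le_mul_of_nonneg_left hsum3 hα0
  have h2 : α * (wt p * ∑ k, u (e k)) ≤ (D * A) * (wt p * ∑ k, u (e k)) +
      (D * A - α) * (r * (Cbs * Nq)) := by
    have := mul_le_mul_of_nonneg_left hsum4 hDA
    linarith
  have h3 : (D * A : ℝ) * (wt p * ∑ k, u (e k)) ≤
      wt p * ∑ s : {s // s ∈ Sm D E r M}, lam f M (bc L (sec (v s))) x := by
    have := mul_le_mul_of_nonneg_left hsum1 hwt
    linarith
  have h4 : wt p * (∑ s : {s // s ∈ Sm D E r M}, lam f M (bc L (sec (v s))) x +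
      ∑ j : J, lam f M (bc L (sec (b0 j))) x) =
      wt p * ∑ s : {s // s ∈ Sm D E r M}, lam f M (bc L (sec (v s))) x +
      wt p * ∑ j : J, lam f M (bc L (sec (b0 j))) x := mul_add _ _ _
  rw [h4]
  linarith

end Pool.Agent.TH875
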