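import Pool.Agent.TH875.Cm6

set_option autoImplicit false

/-!
The proximity function of hypersurface sections in general position.
-/

namespace Pool.Agent.TH875

open MvPolynomial Finset NumberField IsDedekindDomain Height
open Pool.Agent.W180.OP Pool.Agent.W180.TP

variable {K : Type} [Field K] [NumberField K]

/-- choice of the degree -/
lemma choose_deg (N : ℕ → ℕ) (n r T Bm : ℕ) (hr : 0 < r) (hT : 1 ≤ T)
    (hle : ∀ m, N m ≤ (m + 1) ^ n) (hpos : ∀ k, 1 ≤ N (k * T)) (ε : ℝ) (hε : 0 < ε) :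
    ∃ (k : ℕ) (α : ℝ), 0 < α ∧ Bm ≤ (k + 1) * T ∧
      α * r ≤ N (k * T) * ((((k + 1) * T : ℕ) : ℝ) - Bm) ∧
      (N ((k + 1) * T) : ℝ) * ((k + 1) * T : ℕ) ≤ (r + ε) * α := by
  have hr0 : (0 : ℝ) < r := by exact_mod_cast hr
  set δ : ℝ := ε / (2 * (r + ε)) with hδ
  have hδ0 : 0 < δ := by positivity
  have hδ1 : δ < 1 := by
    rw [hδ, div_lt_one (by positivity)]
    linarith
  have hδ2 : (1 - δ) * (r + ε) = r + ε / 2 := by
    rw [hδ]
    field_simp
    ring
  obtain ⟨k, hk, hk2⟩ := growth N n T hle hpos δ hδ0 hδ1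
    (⌈(2 * r + ε) * Bm / ε⌉₊ + Bm + 1)
  set M : ℕ := (k + 1) * T with hM
  have hMk : k + 1 ≤ M := Nat.le_mul_of_pos_right _ hT
  have hMB : Bm + 1 ≤ M := by omega
  have hMB' : (Bm : ℝ) + 1 ≤ M := by exact_mod_cast hMB
  have hM2 : (2 * r + ε) * Bm / ε ≤ M := by
    refine (Nat.le_ceil _).trans ?_
    exact_mod_cast (by omega : ⌈(2 * r + ε) * Bm / ε⌉₊ ≤ M)
  have hNM : (1 : ℝ) ≤ N M := by exact_mod_cast hpos (k + 1)
  refine ⟨k, (1 - δ) * N M * (M - Bm) / r, ?_, by omega, ?_, ?_⟩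
  · have h1 : 0 < (M : ℝ) - Bm := by linarith
    have h2 : 0 < 1 - δ := by linarith
    have h3 : (0 : ℝ) < N M := by linarith
    positivity
  · rw [div_mul_cancel₀ _ hr0.ne']
    exact mul_le_mul_of_nonneg_right hk2 (by linarith)
  · have h1 : (r : ℝ) * M ≤ (r + ε / 2) * (M - Bm) := by
      rw [div_le_iff₀ hε] at hM2
      nlinarith
    rw [mul_div_assoc', le_div_iff₀ hr0]
    calc (N M : ℝ) * M * r = N M * (r * M) := by ring
      _ ≤ N M * ((r + ε / 2) * (M - Bm)) := mul_le_mul_of_nonneg_left h1 (by linarith)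
      _ = N M * (((1 - δ) * (r + ε)) * (M - Bm)) := by rw [hδ2]
      _ = (r + ε) * ((1 - δ) * N M * (M - Bm)) := by ring

lemma ind_ne {n r : ℕ} {I : Ideal (MvPolynomial (Fin n) K)} {y : Fin r → MvPolynomial (Fin n) K}
    {E : Finset (Fin n →₀ ℕ)} (hE : Ind I y E) (s : (Fin r → ℕ) × (Fin n →₀ ℕ)) (hs : s.2 ∈ E) :
    Ideal.Quotient.mkₐ K I (ym y s) ≠ 0 := by
  have h : LinearIndepOn K (fun s => Ideal.Quotient.mkₐ K I (ym y s)) {s | s.2 ∈ E} := hE
  exact LinearIndepOn.ne_zero (v := fun s => Ideal.Quotient.mkₐ K I (ym y s)) h hs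

theorem hsurf {n m q r : ℕ} (hr : 0 < r) (hrq : r ≤ q) (G : Fin m → MvPolynomial (Fin n) K)
    (g : Fin m → ℕ) (hG : ∀ k, (G k).IsHomogeneous (g k))
    (hprime : (Ideal.span (Set.range G)).IsPrime)
    (htr : Algebra.trdeg K (MvPolynomial (Fin n) K ⧸ Ideal.span (Set.range G)) = r)
    (F : Fin q → MvPolynomial (Fin n) K) (d : Fin q → ℕ) (hd : ∀ i, 1 ≤ d i)
    (hF : ∀ i, (F i).IsHomogeneous (d i))
    (hgp : ∀ e : Fin r ↪ Fin q, ∀ (L : Type) [Field L] [Algebra K L] (x : Fin n → L),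
      (∀ k, aeval x (G k) = 0) → (∀ k, aeval x (F (e k)) = 0) → x = 0)
    (ε : ℝ) (hε : 0 < ε) :
    ∃ Z : MvPolynomial (Fin n) K, Z ∉ Ideal.span (Set.range G) ∧ (∃ t, Z.IsHomogeneous t) ∧
      ∃ C : ℝ, 0 ≤ C ∧ ∀ (L : Type) [Field L] [NumberField L] [Algebra K L] (T : Finset (Pl L))
        (x : Fin n → L), x ≠ 0 → (∀ k, aeval x (G k) = 0) → (∀ i, aeval x (F i) ≠ 0) →
        aeval x Z ≠ 0 →
        ∑ p ∈ T, wt p * ∑ i, lam (av p) (d i) (bc L (F i)) x / d i ≤
          max 1 ((T.card : ℝ) / 2) * ((r + ε) * logHeight x) +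
            C * T.card * Module.finrank ℚ L := by
  classical
  obtain ⟨I, hI⟩ : ∃ I, I = Ideal.span (Set.range G) := ⟨_, rfl⟩
  set D : ℕ := ∏ i, d i with hDd
  have hD : 1 ≤ D := Nat.one_le_iff_ne_zero.2
    (Finset.prod_ne_zero_iff.2 fun i _ => (Nat.one_le_iff_ne_zero.1 (hd i)))
  have hdD : ∀ i, d i ∣ D := fun i => Finset.dvd_prod_of_mem d (Finset.mem_univ i)
  set y : (Fin r ↪ Fin q) → Fin r → MvPolynomial (Fin n) K := fun e k =>
    F (e k) ^ (D / d (e k)) with hy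
  have hyh : ∀ e k, (y e k).IsHomogeneous D := by
    intro e k
    have := (hF (e k)).pow (D / d (e k))
    rwa [Nat.mul_div_cancel' (hdD (e k))] at this
  have h0y : ∀ e, ∀ (L : Type) [Field L] [Algebra K L] (x : Fin n → L),
      (∀ k, aeval x (G k) = 0) → (∀ k, aeval x (y e k) = 0) → x = 0 := by
    intro e L _ _ x hx hxy
    refine hgp e L x hx fun k => ?_
    have h1 := hxy k
    simp only [hy, map_pow] at h1
    exact eq_zero_of_pow_eq_zero h1
  have halg : ∀ e, AlgebraicIndependent K (fun k => Ideal.Quotient.mkₐ K I (y e k)) := by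
    intro e
    subst hI
    exact alg_ind G g hG D hD (y e) (hyh e) (h0y e) hprime htr
  have hmod : ∀ e, ∃ (E : Finset (Fin n →₀ ℕ)) (t0 : ℕ), Ind I (y e) E ∧ ∀ t, t0 ≤ t →
      ∀ M, Module.finrank K (VM I M) ≤ (Sm D E r (M + D * t)).card := by
    intro e
    have halge := halg e
    subst hI
    exact module_main G g hG D hD (y e) (hyh e) ⟨0, hr⟩ (h0y e) hprime halge
  choose E t0 hE hcount using hmod
  have hprime' : I.IsPrime := by rw [hI]; exact hprime
  -- the numbers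
  set t : ℕ := 1 + ∑ e, t0 e with ht
  have htle : ∀ e, t0 e ≤ t := fun e => by
    have := Finset.single_le_sum (f := t0) (fun _ _ => Nat.zero_le _) (Finset.mem_univ e)
    omega
  set Bm : ℕ := ∑ e, ∑ β ∈ E e, β.degree with hBm
  have hB : ∀ e, ∀ β ∈ E e, β.degree ≤ Bm := by
    intro e β hβ
    refine (Finset.single_le_sum (f := fun β : Fin n →₀ ℕ => β.degree) (fun _ _ => Nat.zero_le _)
      hβ).trans ?_
    exact Finset.single_le_sum (f := fun e => ∑ β ∈ E e, β.degree) (fun _ _ => Nat.zero_le _)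
      (Finset.mem_univ e)
  have hT : 1 ≤ D * t := Nat.one_le_iff_ne_zero.2 (Nat.mul_ne_zero (by omega) (by omega))
  have hpos : ∀ k, 1 ≤ Module.finrank K (VM I (k * (D * t))) := by
    intro k
    set e0 : Fin r ↪ Fin q := Fin.castLEEmb hrq with he0
    set a := Ideal.Quotient.mkₐ K I (y e0 ⟨0, hr⟩) with ha
    have ha0 : a ≠ 0 := (halg e0).ne_zero ⟨0, hr⟩
    have hmem : a ^ (k * t) ∈ VM I (k * (D * t)) := by
      refine ⟨y e0 ⟨0, hr⟩ ^ (k * t), ?_, ?_⟩
      · have h1 := (hyh e0 ⟨0, hr⟩).pow (k * t)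
        have e1 : D * (k * t) = k * (D * t) := by ring
        rw [e1] at h1
        exact h1
      · show Ideal.Quotient.mkₐ K I (y e0 ⟨0, hr⟩ ^ (k * t)) = _
        rw [map_pow]
    have hfin := VM_finite I (k * (D * t))
    rw [Nat.one_le_iff_ne_zero]
    intro h0
    rw [Submodule.finrank_eq_zero] at h0
    rw [h0] at hmem
    exact pow_ne_zero _ ha0 ((Submodule.mem_bot K).1 hmem)
  obtain ⟨k, α, hα0, hMB, hα, hNM⟩ := choose_deg (fun M => Module.finrank K (VM I M)) n r (D * t) Bm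
    hr hT (VM_le I) hpos ε hε
  set M : ℕ := (k + 1) * (D * t) with hM
  obtain ⟨N, hN⟩ : ∃ N, N = Module.finrank K (VM I M) := ⟨_, rfl⟩
  have hfin := VM_finite I M
  obtain ⟨sec, hsec⟩ := exists_sec I M
  set b0 : Module.Basis (Fin N) K (VM I M) := Module.finBasisOfFinrankEq K (VM I M) hN.symm with hb0
  have hsecinj : Function.Injective sec := by
    intro a a' h
    have h1 := (hsec a).2
    rw [h, (hsec a').2] at h1
    exact Subtype.ext h1.symm
  have hmemV : ∀ e, ∀ s : {s // s ∈ Sm D (E e) r M},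
      Ideal.Quotient.mkₐ K I (ym (y e) s.1) ∈ VM I M := by
    intro e s
    have h1 := ym_hom (hyh e) s.1
    rw [((mem_Sm hD (E e) M s.1).1 s.2).2] at h1
    exact ⟨_, h1, rfl⟩
  set v : ∀ e, {s // s ∈ Sm D (E e) r M} → VM I M := fun e s =>
    ⟨Ideal.Quotient.mkₐ K I (ym (y e) s.1), hmemV e s⟩ with hv
  have hvne : ∀ e s, v e s ≠ 0 := by
    intro e s h1
    refine ind_ne (hE e) s.1 ((mem_Sm hD (E e) M s.1).1 s.2).1 ?_
    exact (Submodule.mk_eq_zero _ _).1 h1
  -- one place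
  have hplace := fun e => place_est (N := N) hr hD I G hI g hG F d hd hF hdD e (y e)
    (fun _ => rfl) (hyh e) (h0y e) (E e) (hE e) (hB e) sec hsec b0 (v e) (fun _ => rfl) α hα0.le (by
      refine hα.trans (mul_le_mul_of_nonneg_right ?_ ?_)
      · have h1 := hcount e t (htle e) (k * (D * t))
        have e1 : k * (D * t) + D * t = M := by rw [hM]; ring
        rw [e1] at h1
        exact_mod_cast h1
      · have : (Bm : ℝ) ≤ M := by exact_mod_cast hMB
        linarith) hMB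
  choose C1 hC10 hC1 using hplace
  -- several places
  set P : (Σ e : Fin r ↪ Fin q, {s // s ∈ Sm D (E e) r M}) ⊕ Fin N → MvPolynomial (Fin n) K :=
    Sum.elim (fun s => sec (v s.1 s.2)) (fun j => sec (b0 j)) with hP
  have hPr : ∀ i, ∃ w, P i = sec w := by
    rintro (s | j)
    · exact ⟨_, rfl⟩
    · exact ⟨_, rfl⟩
  obtain ⟨Z0, hZ0, hPZ, C2, hC20, hC2⟩ := two_places (m := M) (N := N) P
    (fun i => by obtain ⟨w, hw⟩ := hPr i; rw [hw]; exact (hsec w).1) (LinearMap.range sec)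
    (by rw [LinearMap.finrank_range_of_inj hsecinj, hN])
    (fun i => by obtain ⟨w, hw⟩ := hPr i; rw [hw]; exact LinearMap.mem_range_self _ _)
  have hZI : ∀ z ∈ Z0, z ∉ I := by
    intro z hz hzI
    obtain ⟨w, hw⟩ := (hZ0 z hz).2.1
    have h1 : (Ideal.Quotient.mkₐ K I z) = 0 := by
      rw [Ideal.Quotient.mkₐ_eq_mk]
      exact Ideal.Quotient.eq_zero_iff_mem.2 hzI
    have h2 : w = 0 := by
      rw [← hw, (hsec w).2] at h1
      exact Subtype.ext h1
    apply (hZ0 z hz).1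
    rw [← hw, h2, map_zero]
  set C1s : ℝ := ∑ e, C1 e with hC1s
  have hC1s0 : 0 ≤ C1s := Finset.sum_nonneg fun e _ => hC10 e
  refine ⟨∏ z ∈ Z0, z, ?_, ⟨_, IsHomogeneous.prod _ _ _ fun z hz => (hZ0 z hz).2.2⟩,
    (C2 + C1s) / α, by positivity, ?_⟩
  · rw [← hI]
    intro h
    obtain ⟨z, hz, hzI⟩ := (hprime'.prod_mem_iff).1 h
    exact hZI z hz hzI
  intro L _ _ _ T x hx hGx hFx hZx
  have hZx' : ∀ z ∈ Z0, aeval x z ≠ 0 := by
    intro z hz h0
    apply hZx
    rw [map_prod]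
    exact Finset.prod_eq_zero hz h0
  have hPx : ∀ i, P i ≠ 0 → aeval x (P i) ≠ 0 := fun i hi => hZx' _ (hPZ i hi)
  have hbx : ∀ j, aeval x (sec (b0 j)) ≠ 0 := by
    intro j
    refine hPx (Sum.inr j) ?_
    intro h0
    exact b0.ne_zero j (hsecinj (by rw [map_zero]; exact h0))
  have hvx : ∀ e s, aeval x (sec (v e s)) ≠ 0 := by
    intro e s
    refine hPx (Sum.inl ⟨e, s⟩) ?_
    intro h0
    have h1 : v e s = 0 := hsecinj (by rw [map_zero]; exact h0)
    exact hvne e s h1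
  choose e he using fun p : Pl L => top_members hrq
    (fun i => lam (av p) (d i) (bc L (F i)) x / d i)
  choose w hw1 hw2 using fun p : Pl L => hC1 (e p) L p x hx hGx hFx hbx (hvx (e p)) (he p)
  set b : Pl L → Fin N → (Σ e : Fin r ↪ Fin q, {s // s ∈ Sm D (E e) r M}) ⊕ Fin N := fun p k =>
    Sum.map (fun s => ⟨e p, s⟩) id (w p k) with hb
  have hPb : ∀ p k, P (b p k) = fam2 sec (v (e p)) b0 (w p k) := by
    intro p k
    simp only [hb]
    rcases w p k with s | j <;> rfl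
  have h1 := hC2 L T x hx hZx' b (fun p _ => by
    have e1 : (fun k => P (b p k)) = fun k => fam2 sec (v (e p)) b0 (w p k) :=
      funext fun k => hPb p k
    rw [e1]
    exact hw1 p)
  set Nq : ℝ := (Module.finrank ℚ L : ℝ) with hNq
  have hNq0 : 0 ≤ Nq := Nat.cast_nonneg _
  set S : ℝ := ∑ p ∈ T, wt p * ∑ i, lam (av p) (d i) (bc L (F i)) x / d i with hS
  have h2 : α * S ≤ ∑ p ∈ T, (wt p * ∑ k, lam (av p) M (bc L (P (b p k))) x + C1s * Nq) := by
    rw [hS, Finset.mul_sum]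
    refine Finset.sum_le_sum fun p _ => ?_
    have h3 := hw2 p
    have h4 : ∑ k, lam (av p) M (bc L (P (b p k))) x =
        ∑ k, lam (av p) M (bc L (fam2 sec (v (e p)) b0 (w p k))) x :=
      Finset.sum_congr rfl fun k _ => by rw [hPb]
    rw [h4]
    have h5 : C1 (e p) * Nq ≤ C1s * Nq := mul_le_mul_of_nonneg_right
      (Finset.single_le_sum (f := C1) (fun e _ => hC10 e) (Finset.mem_univ _)) hNq0
    linarith
  rw [Finset.sum_add_distrib, Finset.sum_const, nsmul_eq_mul] at h2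
  have hh := Height.logHeight_nonneg x
  have hmax : 0 ≤ max 1 ((T.card : ℝ) / 2) := le_trans zero_le_one (le_max_left _ _)
  have h3 : max 1 ((T.card : ℝ) / 2) * (N * (M * logHeight x)) ≤
      max 1 ((T.card : ℝ) / 2) * (((r + ε) * α) * logHeight x) := by
    refine mul_le_mul_of_nonneg_left ?_ hmax
    rw [← mul_assoc]
    refine mul_le_mul_of_nonneg_right ?_ hh
    rw [hN]
    exact hNM
  have h4 : α * S ≤ α * (max 1 ((T.card : ℝ) / 2) * ((r + ε) * logHeight x) +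
      (C2 + C1s) / α * T.card * Nq) := by
    have e1 : α * (max 1 ((T.card : ℝ) / 2) * ((r + ε) * logHeight x) +
      (C2 + C1s) / α * T.card * Nq) = max 1 ((T.card : ℝ) / 2) * (((r + ε) * α) * logHeight x) +
        (C2 + C1s) * T.card * Nq := by
      field_simp
    rw [e1]
    linarith
  exact le_of_mul_le_mul_left h4 hα0

end Pool.Agent.TH875
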