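import Mathlib

set_option autoImplicit false

/-!
Two bases of a vector space have a common adapted family.
-/

namespace Pool.Agent.TH875

open Submodule Set

variable {K E : Type*} [Field K] [AddCommGroup E] [Module K E]

/-- a vector in the span of the initial segment `Iio j` of a family is zero or in the span of the
initial segment `Iic j'` for some `j' < j` -/
lemma span_Iio_cases {N : ℕ} (b : Fin N → E) (j : Fin N) {g : E} (hg : g ∈ span K (b '' Iio j)) :
    g = 0 ∨ ∃ j' < j, g ∈ span K (b '' Iic j') := by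
  rcases Nat.eq_zero_or_pos (j : ℕ) with h | h
  · left
    have : Iio j = (∅ : Set (Fin N)) := by
      ext k
      simp only [Set.mem_Iio, mem_empty_iff_false, iff_false, not_lt]
      exact Fin.le_def.2 (by omega)
    rw [this, image_empty, span_empty] at hg
    exact (mem_bot K).1 hg
  · right
    refine ⟨⟨(j : ℕ) - 1, by omega⟩, Fin.lt_def.2 (by simp; omega), ?_⟩
    have : Iio j = Iic (⟨(j : ℕ) - 1, by omega⟩ : Fin N) := by
      ext k
      simp only [Set.mem_Iio, Set.mem_Iic, Fin.lt_def, Fin.le_def]
      omega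
    rwa [this] at hg

lemma mem_Iic_split {N : ℕ} (b : Fin N → E) (j : Fin N) {g : E} (hg : g ∈ span K (b '' Iic j)) :
    ∃ c : K, ∃ g0 ∈ span K (b '' Iio j), g = c • b j + g0 := by
  have h1 : (Iic j : Set (Fin N)) = insert j (Iio j) := by
    rw [Iio_insert]
  rw [h1, image_insert_eq, mem_span_insert] at hg
  obtain ⟨c, z, hz, h⟩ := hg
  exact ⟨c, z, hz, h⟩

theorem two_bases {N : ℕ} (b b' : Fin N → E) (hb : LinearIndependent K b)
    (hs : span K (range b) ≤ span K (range b')) :
    ∃ (l : Fin N → E) (τ : Equiv.Perm (Fin N)), ∀ k, l k ∈ span K (b '' Iic k) ∧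
      l k ∉ span K (b '' Iio k) ∧ l k ∈ span K (b' '' Iic (τ k)) := by
  classical
  -- the condition
  set Q : Fin N → Fin N → Prop := fun k j => ∃ g, g ∈ span K (b '' Iic k) ∧
    g ∉ span K (b '' Iio k) ∧ g ∈ span K (b' '' Iic j) with hQ
  have hbk : ∀ k, b k ∉ span K (b '' Iio k) := by
    intro k
    exact hb.notMem_span_image (by simp)
  have hex : ∀ k, ∃ j, Q k j ∧ ∀ j' < j, ¬ Q k j' := by
    intro k
    have hN : 0 < N := Fin.pos k
    have hne : {j | Q k j}.Nonempty := by
      refine ⟨⟨N - 1, by omega⟩, b k, subset_span (mem_image_of_mem _ (mem_Iic.2 le_rfl)),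
        hbk k, ?_⟩
      have h1 : (Iic (⟨N - 1, by omega⟩ : Fin N) : Set (Fin N)) = univ := by
        ext i
        simp only [mem_Iic, mem_univ, iff_true, Fin.le_def]
        omega
      rw [h1, image_univ]
      exact hs (subset_span (mem_range_self k))
    refine ⟨wellFounded_lt.min _ hne, wellFounded_lt.min_mem _ hne, fun j' hj' hq => ?_⟩
    exact WellFounded.not_lt_min wellFounded_lt {j | Q k j} hq hj'
  choose t ht htmin using hex
  choose l hl using ht
  -- no member of the span of `b' '' Iio (t k)` works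
  have hno : ∀ k g, g ∈ span K (b '' Iic k) → g ∉ span K (b '' Iio k) →
      g ∉ span K (b' '' Iio (t k)) := by
    intro k g h1 h2 h3
    rcases span_Iio_cases b' (t k) h3 with h | ⟨j', hj', h⟩
    · exact h2 (h ▸ zero_mem _)
    · exact htmin k j' hj' ⟨g, h1, h2, h⟩
  have hlt : ∀ k k', k < k' → t k ≠ t k' := by
    intro k k' hkk heq
    obtain ⟨c, g0, hg0, h1⟩ := mem_Iic_split b' (t k) (hl k).2.2
    obtain ⟨c', g0', hg0', h2⟩ := mem_Iic_split b' (t k') (hl k').2.2
    rw [← heq] at hg0' h2
    have hc : c ≠ 0 := by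
      intro hc
      rw [hc, zero_smul, zero_add] at h1
      exact hno k (l k) (hl k).1 (hl k).2.1 (h1 ▸ hg0)
    have hmem : l k ∈ span K (b '' Iio k') :=
      span_mono (image_mono (Iic_subset_Iio.2 hkk)) (hl k).1
    have hmem' : (c' / c) • l k ∈ span K (b '' Iio k') := smul_mem _ _ hmem
    refine hno k' (l k' - (c' / c) • l k) ?_ ?_ ?_
    · exact sub_mem (hl k').1 (span_mono (image_mono Iio_subset_Iic_self) hmem')
    · intro h
      apply (hl k').2.1
      have := add_mem h hmem'
      rwa [sub_add_cancel] at this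
    · rw [← heq]
      have : l k' - (c' / c) • l k = g0' - (c' / c) • g0 := by
        rw [h1, h2, smul_add, smul_smul, div_mul_cancel₀ _ hc]
        abel
      rw [this]
      exact sub_mem hg0' (smul_mem _ _ hg0)
  have hinj : Function.Injective t := by
    intro k k' h
    rcases lt_trichotomy k k' with h1 | h1 | h1
    · exact absurd h (hlt k k' h1)
    · exact h1
    · exact absurd h.symm (hlt k' k h1)
  refine ⟨l, Equiv.ofBijective t (Finite.injective_iff_bijective.1 hinj), fun k => ?_⟩
  exact hl k

end Pool.Agent.TH875
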