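import Mathlib

set_option autoImplicit false

/-!
A basis of minimal weight, and a layer cake inequality.
-/

namespace Pool.Agent.TH875

open Finset

/-- a basis of minimal weight taken from a spanning family -/
theorem greedy {K ι : Type} [Field K] [Fintype ι] {n : ℕ} (a : ι → Fin n → K)
    (hs : Submodule.span K (Set.range a) = ⊤) (v : ι → ℝ) :
    ∃ b : Fin n → ι, LinearIndependent K (fun j => a (b j)) ∧
      ∀ i, a i ∈ Submodule.span K ((fun j => a (b j)) '' {j | v (b j) ≤ v i}) := by
  classical
  -- a tuple with nonzero determinant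
  have hli : ∀ b : Fin n → ι, LinearIndependent K (fun j => a (b j)) ↔
      (Matrix.of fun j => a (b j)).det ≠ 0 := by
    intro b
    rw [← isUnit_iff_ne_zero, ← Matrix.isUnit_iff_isUnit_det,
      ← Matrix.linearIndependent_rows_iff_isUnit]
    rfl
  have hex : ∃ b : Fin n → ι, LinearIndependent K (fun j => a (b j)) := by
    obtain ⟨κ, f, hf, hspan, hind⟩ := exists_linearIndependent' K a
    rw [hs] at hspan
    have hfin : Finite κ := Finite.of_injective f hf
    have : Fintype κ := Fintype.ofFinite κ
    have B := Module.Basis.mk hind hspan.ge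
    have hc : Fintype.card κ = n := by
      rw [← Module.finrank_eq_card_basis B, Module.finrank_fin_fun]
    set e := Fintype.equivFinOfCardEq hc
    exact ⟨fun j => f (e.symm j), hind.comp e.symm e.symm.injective⟩
  obtain ⟨b0, hb0⟩ := hex
  obtain ⟨b, hbm, hbmin⟩ := Finset.exists_min_image
    (Finset.univ.filter fun b : Fin n → ι => LinearIndependent K (fun j => a (b j)))
    (fun b => ∑ j, v (b j)) ⟨b0, by simpa using hb0⟩
  have hb : LinearIndependent K (fun j => a (b j)) := (Finset.mem_filter.1 hbm).2
  refine ⟨b, hb, fun i => ?_⟩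
  have hspan : Submodule.span K (Set.range fun j => a (b j)) = ⊤ := by
    refine hb.span_eq_top_of_card_eq_finrank' ?_
    rw [Fintype.card_fin, Module.finrank_fin_fun]
  have hi : a i ∈ Submodule.span K (Set.range fun j => a (b j)) := by rw [hspan]; trivial
  rw [Submodule.mem_span_range_iff_exists_fun] at hi
  obtain ⟨c, hc⟩ := hi
  rw [← hc]
  refine Submodule.sum_mem _ fun j _ => ?_
  by_cases hcj : c j = 0
  · rw [hcj, zero_smul]
    exact zero_mem _
  · refine Submodule.smul_mem _ _ (Submodule.subset_span ⟨j, ?_, rfl⟩)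
    -- exchange
    have h1 : LinearIndependent K (fun k => a (Function.update b j i k)) := by
      rw [hli]
      have e1 : (Matrix.of fun k => a (Function.update b j i k)) =
          (Matrix.of fun k => a (b k)).updateRow j (∑ k, c k • (Matrix.of fun k => a (b k)) k) := by
        ext k l
        rw [Matrix.updateRow_apply]
        by_cases hk : k = j
        · rw [if_pos hk]
          subst hk
          have : ∑ x, c x • (Matrix.of fun k => a (b k)) x = a i := hc
          rw [this]
          simp
        · rw [if_neg hk]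
          simp [Function.update_of_ne hk]
      rw [e1, Matrix.det_updateRow_sum, smul_eq_mul]
      exact mul_ne_zero hcj ((hli b).1 hb)
    have h2 := hbmin (Function.update b j i) (Finset.mem_filter.2 ⟨Finset.mem_univ _, h1⟩)
    have h3 : ∑ k, v (Function.update b j i k) = v i + ∑ k ∈ Finset.univ.erase j, v (b k) := by
      rw [← Finset.add_sum_erase _ _ (Finset.mem_univ j), Function.update_self]
      congr 1
      refine Finset.sum_congr rfl fun k hk => ?_
      rw [Function.update_of_ne (Finset.ne_of_mem_erase hk)]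
    have h4 : ∑ k, v (b k) = v (b j) + ∑ k ∈ Finset.univ.erase j, v (b k) :=
      (Finset.add_sum_erase _ _ (Finset.mem_univ j)).symm
    have h5 : v (b j) ≤ v i := by
      have : ∑ k, v (b k) ≤ ∑ k, v (Function.update b j i k) := h2
      linarith
    exact h5

/-- a layer cake inequality -/
theorem layer {I J : Type} [Fintype I] [Fintype J] (c : I → ℝ)
    (u : I → ℝ) (w : J → ℝ) (m : ℝ) (h : ∀ t, m < t →
      ∑ i with t ≤ u i, c i ≤ ((Finset.univ.filter fun j => t ≤ w j).card : ℝ)) :
    ∑ i, c i * max 0 (u i - m) ≤ ∑ j, max 0 (w j - m) := by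
  classical
  obtain ⟨M, hMm, hMu, hMw⟩ : ∃ M : ℝ, m ≤ M ∧ (∀ i, u i ≤ M) ∧ ∀ j, w j ≤ M := by
    refine ⟨|m| + ∑ i, |u i| + ∑ j, |w j|, ?_, fun i => ?_, fun j => ?_⟩
    · have h1 : 0 ≤ ∑ i, |u i| := Finset.sum_nonneg fun _ _ => abs_nonneg _
      have h2 : 0 ≤ ∑ j, |w j| := Finset.sum_nonneg fun _ _ => abs_nonneg _
      linarith [le_abs_self m]
    · have h1 := Finset.single_le_sum (f := fun i => |u i|) (fun _ _ => abs_nonneg _)
        (Finset.mem_univ i)
      have h2 : 0 ≤ ∑ j, |w j| := Finset.sum_nonneg fun _ _ => abs_nonneg _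
      have h3 : |u i| ≤ ∑ i, |u i| := h1
      linarith [le_abs_self (u i), abs_nonneg m]
    · have h1 := Finset.single_le_sum (f := fun j => |w j|) (fun _ _ => abs_nonneg _)
        (Finset.mem_univ j)
      have h2 : 0 ≤ ∑ i, |u i| := Finset.sum_nonneg fun _ _ => abs_nonneg _
      have h3 : |w j| ≤ ∑ j, |w j| := h1
      linarith [le_abs_self (w j), abs_nonneg m]
  -- the layer cake formula
  have hcake : ∀ r : ℝ, r ≤ M → ∫ t in m..M, Set.indicator {t | t ≤ r} (fun _ => (1 : ℝ)) t =
      max 0 (r - m) := by
    intro r hr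
    rcases le_total m r with h1 | h1
    · rw [intervalIntegral.integral_indicator ⟨h1, hr⟩, intervalIntegral.integral_const,
        smul_eq_mul, mul_one, max_eq_right (by linarith)]
    · rw [max_eq_left (by linarith)]
      have e1 : ∫ t in m..M, Set.indicator {t | t ≤ r} (fun _ => (1 : ℝ)) t =
          ∫ t in m..M, (0 : ℝ) := by
        rw [intervalIntegral.integral_of_le hMm, intervalIntegral.integral_of_le hMm]
        refine MeasureTheory.setIntegral_congr_fun measurableSet_Ioc fun t ht => ?_
        have : t ∉ {t | t ≤ r} := by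
          intro h2
          have h3 : t ≤ r := h2
          linarith [ht.1]
        exact Set.indicator_of_notMem this _
      rw [e1, intervalIntegral.integral_zero]
  have hint : ∀ r : ℝ, IntervalIntegrable (Set.indicator {t | t ≤ r} (fun _ => (1 : ℝ)))
      MeasureTheory.volume m M := by
    intro r
    refine Antitone.intervalIntegrable ?_
    intro s t hst
    by_cases h1 : t ≤ r
    · rw [Set.indicator_of_mem (show t ∈ {t | t ≤ r} from h1),
        Set.indicator_of_mem (show s ∈ {t | t ≤ r} from hst.trans h1)]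
    · rw [Set.indicator_of_notMem (show t ∉ {t | t ≤ r} from h1)]
      exact Set.indicator_nonneg (fun _ _ => zero_le_one) _
  have e1 : ∑ i, c i * max 0 (u i - m) =
      ∫ t in m..M, ∑ i, c i * Set.indicator {t | t ≤ u i} (fun _ => (1 : ℝ)) t := by
    rw [intervalIntegral.integral_finsetSum fun i _ => (hint (u i)).const_mul (c i)]
    refine Finset.sum_congr rfl fun i _ => ?_
    rw [intervalIntegral.integral_const_mul, hcake _ (hMu i)]
  have e2 : ∑ j, max 0 (w j - m) =
      ∫ t in m..M, ∑ j, Set.indicator {t | t ≤ w j} (fun _ => (1 : ℝ)) t := by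
    rw [intervalIntegral.integral_finsetSum fun j _ => hint (w j)]
    refine Finset.sum_congr rfl fun j _ => ?_
    rw [hcake _ (hMw j)]
  rw [e1, e2]
  refine intervalIntegral.integral_mono_on_of_le_Ioo hMm ?_ ?_ fun t ht => ?_
  · have h0 := IntervalIntegrable.sum (Finset.univ : Finset I) fun i _ =>
      (hint (u i)).const_mul (c i)
    have h00 : (fun t => ∑ i, c i * Set.indicator {t | t ≤ u i} (fun _ => (1 : ℝ)) t) =
        ∑ i, fun t => c i * Set.indicator {t | t ≤ u i} (fun _ => (1 : ℝ)) t := by
      funext t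
      rw [Finset.sum_apply]
    rw [h00]
    exact h0
  · have h0 := IntervalIntegrable.sum (Finset.univ : Finset J) fun j _ => hint (w j)
    have h00 : (fun t => ∑ j, Set.indicator {t | t ≤ w j} (fun _ => (1 : ℝ)) t) =
        ∑ j, Set.indicator {t | t ≤ w j} (fun _ => (1 : ℝ)) := by
      funext t
      rw [Finset.sum_apply]
    rw [h00]
    exact h0
  · have h1 := h t ht.1
    rw [Finset.sum_filter] at h1
    rw [Finset.card_filter, Nat.cast_sum] at h1
    have h2 : ∑ i, c i * Set.indicator {t | t ≤ u i} (fun _ => (1 : ℝ)) t =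
        ∑ i, if t ≤ u i then c i else 0 := by
      refine Finset.sum_congr rfl fun i _ => ?_
      by_cases h3 : t ≤ u i
      · rw [Set.indicator_of_mem (show t ∈ {t | t ≤ u i} from h3), if_pos h3, mul_one]
      · rw [Set.indicator_of_notMem (show t ∉ {t | t ≤ u i} from h3), if_neg h3, mul_zero]
    have h3 : ∑ j, Set.indicator {t | t ≤ w j} (fun _ => (1 : ℝ)) t =
        ∑ j, ((if t ≤ w j then 1 else 0 : ℕ) : ℝ) := by
      refine Finset.sum_congr rfl fun j _ => ?_
      by_cases h3 : t ≤ w j
      · rw [Set.indicator_of_mem (show t ∈ {t | t ≤ w j} from h3), if_pos h3, Nat.cast_one]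
      · rw [Set.indicator_of_notMem (show t ∉ {t | t ≤ w j} from h3), if_neg h3, Nat.cast_zero]
    rw [h2, h3]
    exact h1

end Pool.Agent.TH875
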