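import Pool.Agent.TH875.Two
import Pool.Agent.TH875.Greedy

set_option autoImplicit false

/-!
Weighted sums of the local heights of hyperplanes.
-/

namespace Pool.Agent.TH875

open MvPolynomial Finset NumberField IsDedekindDomain Height
open Pool.Agent.W180.OP Pool.Agent.W180.TP

section lin

variable {K : Type} [Field K]

/-- the linear form with the given coefficients -/
noncomputable def lin (K : Type) [Field K] (n : ℕ) : (Fin n → K) →ₗ[K] MvPolynomial (Fin n) K where
  toFun a := ∑ b, a b • X b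
  map_add' a b := by simp [add_smul, Finset.sum_add_distrib]
  map_smul' c a := by simp [Finset.smul_sum, smul_smul]

lemma lin_apply {n : ℕ} (a : Fin n → K) : lin K n a = ∑ b, a b • X b := rfl

lemma coeff_lin {n : ℕ} (a : Fin n → K) (b : Fin n) :
    coeff (Finsupp.single b 1) (lin K n a) = a b := by
  classical
  rw [lin_apply, coeff_sum]
  rw [Finset.sum_eq_single b]
  · simp
  · intro c _ hc
    rw [coeff_smul, coeff_X, if_neg, smul_zero]
    intro h
    exact hc (Finsupp.single_left_injective one_ne_zero h)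
  · intro h
    exact absurd (Finset.mem_univ _) h

lemma lin_inj {n : ℕ} : Function.Injective (lin K n) := by
  intro a a' h
  funext b
  rw [← coeff_lin a b, h, coeff_lin]

lemma lin_hom {n : ℕ} (a : Fin n → K) : (lin K n a).IsHomogeneous 1 := by
  rw [lin_apply]
  have : (∑ b, a b • X b : MvPolynomial (Fin n) K) ∈ homogeneousSubmodule (Fin n) K 1 :=
    Submodule.sum_mem _ fun b _ => Submodule.smul_mem _ _ (isHomogeneous_X K b)
  exact this

lemma aeval_lin {L : Type} [Field L] [Algebra K L] {n : ℕ} (a : Fin n → K) (x : Fin n → L) :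
    aeval x (lin K n a) = ∑ b, algebraMap K L (a b) * x b := by
  rw [lin_apply, map_sum]
  refine Finset.sum_congr rfl fun b _ => ?_
  rw [map_smul, aeval_X, Algebra.smul_def]

/-- the pair of a projective space and a weighted sum of hyperplanes is log canonical -/
def LC {n q : ℕ} (a : Fin q → Fin n → K) (c : Fin q → ℝ) : Prop :=
  (∀ i, 0 ≤ c i) ∧ ∀ W : Submodule K (Fin n → K), W ≠ ⊤ → ∀ I : Finset (Fin q),
    (∀ i ∈ I, a i ∈ W) → ∑ i ∈ I, c i ≤ Module.finrank K W

end lin

variable {K : Type} [Field K] [NumberField K]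

/-- one place -/
theorem one_place {n q : ℕ} (hn : 2 ≤ n) (a : Fin q → Fin n → K) :
    ∃ C : ℝ, 0 ≤ C ∧ ∀ (L : Type) [Field L] [NumberField L] [Algebra K L] (p : Pl L)
      (x : Fin n → L), x ≠ 0 → (∀ i, aeval x (lin K n (a i)) ≠ 0) → (∀ j, x j ≠ 0) →
      ∃ b : Fin n → Fin q ⊕ Fin n,
        LinearIndependent K (fun k => lin K n (Sum.elim a (fun j => Pi.single j 1) (b k))) ∧
        ∀ c : Fin q → ℝ, LC a c →
          wt p * ∑ i, c i * lam (av p) 1 (bc L (lin K n (a i))) x ≤
          wt p * ∑ k, lam (av p) 1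
            (bc L (lin K n (Sum.elim a (fun j => Pi.single j 1) (b k)))) x +
            C * Module.finrank ℚ L := by
  classical
  set A : Fin q ⊕ Fin n → Fin n → K := Sum.elim a (fun j => Pi.single j 1) with hA
  have hAspan : Submodule.span K (Set.range A) = ⊤ := by
    rw [eq_top_iff, ← (Pi.basisFun K (Fin n)).span_eq]
    refine Submodule.span_mono ?_
    rintro _ ⟨j, rfl⟩
    refine ⟨Sum.inr j, ?_⟩
    simp [hA, Pi.basisFun_apply]
  -- upper bound for `rho`
  have h1 : ∀ i, ∃ C : ℝ, 0 ≤ C ∧ ∀ (L : Type) [Field L] [NumberField L] [Algebra K L] (p : Pl L),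
      ∃ R : ℝ, UB C p R ∧ ∀ (x : Fin n → L) (M : ℝ), x ≠ 0 → 0 ≤ M →
        (∀ j, A i j ≠ 0 → rho (av p) 1 (X j : MvPolynomial (Fin n) K) x ≤ M) →
          rho (av p) 1 (lin K n (A i)) x ≤ R * M := fun i =>
    comb_le (m := 1) (fun j : Fin n => (X j : MvPolynomial (Fin n) K)) (lin K n (A i)) (A i)
      (lin_apply _)
  choose C1 hC10 hC1 using h1
  -- lower bound for the largest
  have h2 : ∀ (b : Fin n → Fin q ⊕ Fin n) (k : Fin n), ∃ C : ℝ, 0 ≤ C ∧
      (LinearIndependent K (fun j => A (b j)) →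
      ∀ (L : Type) [Field L] [NumberField L] [Algebra K L] (p : Pl L),
      ∃ R : ℝ, UB C p R ∧ ∀ (x : Fin n → L) (M : ℝ), x ≠ 0 → 0 ≤ M →
        (∀ j, rho (av p) 1 (lin K n (A (b j))) x ≤ M) →
          rho (av p) 1 (X k : MvPolynomial (Fin n) K) x ≤ R * M) := by
    intro b k
    by_cases hb : LinearIndependent K (fun j => A (b j))
    · have hspan : Submodule.span K (Set.range fun j => A (b j)) = ⊤ := by
        refine hb.span_eq_top_of_card_eq_finrank' ?_
        rw [Fintype.card_fin, Module.finrank_fin_fun]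
      have hk : (Pi.single k 1 : Fin n → K) ∈ Submodule.span K (Set.range fun j => A (b j)) := by
        rw [hspan]; trivial
      rw [Submodule.mem_span_range_iff_exists_fun] at hk
      obtain ⟨d, hd⟩ := hk
      have hX : (X k : MvPolynomial (Fin n) K) = ∑ j, d j • lin K n (A (b j)) := by
        have e1 : (X k : MvPolynomial (Fin n) K) = lin K n (Pi.single k 1) := by
          rw [lin_apply, Finset.sum_eq_single k]
          · rw [Pi.single_eq_same, one_smul]
          · intro j _ hj
            rw [Pi.single_eq_of_ne hj, zero_smul]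
          · intro h
            exact absurd (Finset.mem_univ _) h
        rw [e1, ← hd, map_sum]
        exact Finset.sum_congr rfl fun j _ => by rw [map_smul]
      obtain ⟨C, hC0, hC⟩ := comb_le (m := 1) (fun j => lin K n (A (b j))) _ d hX
      refine ⟨C, hC0, fun _ L _ _ _ p => ?_⟩
      obtain ⟨R, hR, h⟩ := hC L p
      exact ⟨R, hR, fun x M hx hM hj => h x M hx hM fun j _ => hj j⟩
    · exact ⟨0, le_rfl, fun h => absurd h hb⟩
  choose C2 hC20 hC2 using h2
  set D : ℝ := ∑ i, C1 i + ∑ b, ∑ k, C2 b k with hD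
  have hs1 : 0 ≤ ∑ i, C1 i := Finset.sum_nonneg fun i _ => hC10 i
  have hs2 : 0 ≤ ∑ b, ∑ k, C2 b k := Finset.sum_nonneg fun b _ =>
    Finset.sum_nonneg fun k _ => hC20 b k
  refine ⟨(n + q) * D, by positivity, ?_⟩
  intro L _ _ _ p x hx hax hxj
  set f := av p with hf
  set r : Fin q ⊕ Fin n → ℝ := fun i => rho f 1 (lin K n (A i)) x with hr
  have hAx : ∀ i, aeval x (lin K n (A i)) ≠ 0 := by
    rintro (i | j)
    · exact hax i
    · rw [aeval_lin]
      simp only [hA, Sum.elim_inr]
      rw [Finset.sum_eq_single j]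
      · rw [Pi.single_eq_same, map_one, one_mul]
        exact hxj j
      · intro b _ hb
        rw [Pi.single_eq_of_ne hb, map_zero, zero_mul]
      · intro h
        exact absurd (Finset.mem_univ _) h
  have hrpos : ∀ i, 0 < r i := fun i => rho_pos f 1 _ hx (hAx i)
  obtain ⟨b, hb, hgr⟩ := greedy A hAspan r
  refine ⟨b, ?_, fun c hc => ?_⟩
  · exact hb.map' (lin K n) (LinearMap.ker_eq_bot.2 lin_inj)
  have hn0 : 0 < n := by omega
  have hXle : ∀ j, rho f 1 (X j : MvPolynomial (Fin n) K) x ≤ 1 := by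
    intro j
    unfold rho
    rw [aeval_X, pow_one, div_le_one (nrm_pos f hx)]
    exact le_nrm f x j
  -- local heights
  set u : Fin q ⊕ Fin n → ℝ := fun i => - Real.log (r i) with hu
  set N : ℝ := (Module.finrank ℚ L : ℝ) with hN
  have hN0 : 0 ≤ N := Nat.cast_nonneg _
  have hlow : ∀ i, -(wt p * u i) ≤ D * N := by
    intro i
    obtain ⟨R, hR, h⟩ := hC1 i L p
    have h3 := h x 1 hx zero_le_one fun j _ => hXle j
    rw [mul_one] at h3
    have h4 := Real.log_le_log (hrpos i) h3
    have h5 := mul_le_mul_of_nonneg_left h4 (wt_nonneg p)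
    have h6 : C1 i ≤ ∑ i, C1 i := Finset.single_le_sum (f := C1) (fun i _ => hC10 i)
      (Finset.mem_univ i)
    have h7 := mul_le_mul_of_nonneg_right (show C1 i ≤ D by linarith) hN0
    have h8 := hR.2
    show -(wt p * -Real.log (r i)) ≤ D * N
    linarith
  obtain ⟨j0, -, hj0⟩ := Finset.exists_min_image Finset.univ (fun j => u (b j))
    ⟨⟨0, hn0⟩, Finset.mem_univ _⟩
  have hup : wt p * u (b j0) ≤ D * N := by
    obtain ⟨k, hk⟩ := exists_nrm f hn0 x
    obtain ⟨R, hR, h⟩ := hC2 b k hb L p
    have h3 := h x (r (b j0)) hx (hrpos _).le (fun j => by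
      have h4 : u (b j0) ≤ u (b j) := hj0 j (Finset.mem_univ _)
      have h5 : Real.log (r (b j)) ≤ Real.log (r (b j0)) := by
        have : -Real.log (r (b j0)) ≤ -Real.log (r (b j)) := h4
        linarith
      exact (Real.log_le_log_iff (hrpos _) (hrpos _)).1 h5)
    have h4 : rho f 1 (X k : MvPolynomial (Fin n) K) x = 1 := by
      unfold rho
      rw [aeval_X, hk, pow_one, div_self (nrm_pos f hx).ne']
    rw [h4] at h3
    have hR0 : 0 < R := by linarith [hR.1]
    have h5 := Real.log_le_log one_pos h3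
    rw [Real.log_one, Real.log_mul hR0.ne' (hrpos _).ne'] at h5
    have h6 := mul_le_mul_of_nonneg_left h5 (wt_nonneg p)
    have h7 : C2 b k ≤ ∑ b, ∑ k, C2 b k := by
      refine (Finset.single_le_sum (f := fun k => C2 b k) (fun k _ => hC20 b k)
        (Finset.mem_univ k)).trans ?_
      exact Finset.single_le_sum (f := fun b => ∑ k, C2 b k)
        (fun b _ => Finset.sum_nonneg fun k _ => hC20 b k) (Finset.mem_univ b)
    have h8 := mul_le_mul_of_nonneg_right (show C2 b k ≤ D by linarith) hN0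
    have h9 := hR.2
    show wt p * -Real.log (r (b j0)) ≤ D * N
    linarith
  -- the layer cake
  set m0 : ℝ := u (b j0) with hm0
  have hcake := layer c (fun i => u (Sum.inl i)) (fun j => u (b j)) m0 (by
    intro t ht
    set J : Finset (Fin n) := Finset.univ.filter fun j => t ≤ u (b j) with hJ
    set W : Submodule K (Fin n → K) := Submodule.span K ((fun j => A (b j)) '' (J : Set (Fin n)))
      with hW
    have hfin : Module.finrank K W = J.card := by
      have h3 : LinearIndependent K (fun j : J => A (b j)) := hb.comp _ Subtype.val_injective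
      have h4 := finrank_span_eq_card h3
      rw [Fintype.card_coe] at h4
      rw [← h4, hW, Set.image_eq_range]
      rfl
    have hlt : J.card < n := by
      have h3 : J ⊂ Finset.univ := by
        rw [Finset.ssubset_univ_iff]
        intro h4
        have h5 : j0 ∈ J := by rw [h4]; exact Finset.mem_univ _
        rw [hJ, Finset.mem_filter] at h5
        linarith [h5.2]
      have := Finset.card_lt_card h3
      rwa [Finset.card_univ, Fintype.card_fin] at this
    have hWtop : W ≠ ⊤ := by
      intro h3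
      rw [h3, finrank_top, Module.finrank_fin_fun] at hfin
      omega
    have h3 := hc.2 W hWtop (Finset.univ.filter fun i => t ≤ u (Sum.inl i)) (by
      intro i hi
      have hi' : t ≤ u (Sum.inl i) := (Finset.mem_filter.1 hi).2
      refine Submodule.span_mono ?_ (hgr (Sum.inl i))
      rintro _ ⟨j, hj, rfl⟩
      refine ⟨j, ?_, rfl⟩
      have h4 : r (b j) ≤ r (Sum.inl i) := hj
      have h5 := Real.log_le_log (hrpos _) h4
      rw [Finset.mem_coe, hJ, Finset.mem_filter]
      refine ⟨Finset.mem_univ _, ?_⟩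
      have h6 : t ≤ -Real.log (r (Sum.inl i)) := hi'
      show t ≤ -Real.log (r (b j))
      linarith)
    rw [hfin] at h3
    exact h3)
  have hsum1 : ∑ j, max 0 (u (b j) - m0) = ∑ j, u (b j) - n * m0 := by
    have e1 : ∀ j, max 0 (u (b j) - m0) = u (b j) - m0 := fun j =>
      max_eq_right (by have := hj0 j (Finset.mem_univ _); linarith)
    rw [Finset.sum_congr rfl fun j _ => e1 j, Finset.sum_sub_distrib, Finset.sum_const,
      Finset.card_univ, Fintype.card_fin, nsmul_eq_mul]
  have hsum2 : ∑ i, c i * u (Sum.inl i) ≤ ∑ i, c i * max 0 (u (Sum.inl i) - m0) +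
      (∑ i, c i) * m0 := by
    rw [Finset.sum_mul, ← Finset.sum_add_distrib]
    refine Finset.sum_le_sum fun i _ => ?_
    rw [← mul_add]
    refine mul_le_mul_of_nonneg_left ?_ (hc.1 i)
    linarith [le_max_right 0 (u (Sum.inl i) - m0)]
  have hc1 : ∀ i, c i ≤ 1 := by
    intro i
    set W : Submodule K (Fin n → K) := Submodule.span K {a i} with hW
    have h3 : Module.finrank K W ≤ 1 := by
      have := finrank_span_le_card (R := K) ({a i} : Set (Fin n → K))
      simpa using this
    have hWtop : W ≠ ⊤ := by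
      intro h4
      rw [h4, finrank_top, Module.finrank_fin_fun] at h3
      omega
    have h4 := hc.2 W hWtop {i} (by
      intro i' hi'
      rw [Finset.mem_singleton.1 hi']
      exact Submodule.mem_span_singleton_self _)
    rw [Finset.sum_singleton] at h4
    have h5 : (Module.finrank K W : ℝ) ≤ 1 := by exact_mod_cast h3
    linarith
  have hQ0 : 0 ≤ ∑ i, c i := Finset.sum_nonneg fun i _ => hc.1 i
  have hQ : ∑ i, c i ≤ q := by
    have h3 : ∑ i, c i ≤ ∑ _i : Fin q, (1 : ℝ) := Finset.sum_le_sum fun i _ => hc1 i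
    simpa using h3
  have hfinal : ∑ i, c i * u (Sum.inl i) ≤ ∑ j, u (b j) - n * m0 + (∑ i, c i) * m0 := by
    linarith
  have hw := mul_le_mul_of_nonneg_left hfinal (wt_nonneg p)
  have hDN : 0 ≤ D * N := by positivity
  have e1 : -(n * (wt p * m0)) ≤ n * (D * N) := by
    have := mul_le_mul_of_nonneg_left (hlow (b j0)) (Nat.cast_nonneg (α := ℝ) n)
    linarith
  have e2 : (∑ i, c i) * (wt p * m0) ≤ q * (D * N) :=
    (mul_le_mul_of_nonneg_left hup hQ0).trans (mul_le_mul_of_nonneg_right hQ hDN)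
  have e3 : ∀ i, lam f 1 (bc L (lin K n (A i))) x = u i := fun i => lam_rho f 1 _ x
  have e4 : ∑ i, c i * lam f 1 (bc L (lin K n (a i))) x = ∑ i, c i * u (Sum.inl i) :=
    Finset.sum_congr rfl fun i _ => by rw [← e3 (Sum.inl i)]; rfl
  have e5 : ∑ k, lam f 1 (bc L (lin K n (A (b k)))) x = ∑ k, u (b k) :=
    Finset.sum_congr rfl fun i _ => e3 _
  rw [e4, e5]
  have e6 : wt p * (∑ j, u (b j) - n * m0 + (∑ i, c i) * m0) = wt p * ∑ j, u (b j) +
      (-(n * (wt p * m0))) + (∑ i, c i) * (wt p * m0) := by ring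
  rw [e6] at hw
  linarith

/-- several places -/
theorem hyper {n q : ℕ} (hn : 2 ≤ n) (a : Fin q → Fin n → K) (ha : ∀ i, a i ≠ 0) :
    ∃ Z : Finset (Fin n → K), (∀ z ∈ Z, z ≠ 0) ∧ (∀ i, a i ∈ Z) ∧ ∃ C : ℝ, 0 ≤ C ∧
      ∀ (L : Type) [Field L] [NumberField L] [Algebra K L] (T : Finset (Pl L))
        (x : Fin n → L), x ≠ 0 → (∀ z ∈ Z, aeval x (lin K n z) ≠ 0) →
        ∀ c : Pl L → Fin q → ℝ, (∀ p ∈ T, LC a (c p)) →
        ∑ p ∈ T, wt p * ∑ i, c p i * lam (av p) 1 (bc L (lin K n (a i))) x ≤
          max 1 ((T.card : ℝ) / 2) * (n * logHeight x) + C * T.card * Module.finrank ℚ L := by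
  classical
  set A : Fin q ⊕ Fin n → Fin n → K := Sum.elim a (fun j => Pi.single j 1) with hA
  obtain ⟨C1, hC10, hC1⟩ := one_place hn a
  have hVfin : FiniteDimensional K (LinearMap.range (lin K n)) := inferInstance
  obtain ⟨Z, hZ, hPZ, C2, hC20, hC2⟩ := two_places (m := 1) (N := n) (fun i => lin K n (A i))
    (fun i => lin_hom _) (LinearMap.range (lin K n))
    (by rw [LinearMap.finrank_range_of_inj lin_inj, Module.finrank_fin_fun])
    (fun i => LinearMap.mem_range_self _ _)
  set g : MvPolynomial (Fin n) K → Fin n → K := fun F b => coeff (Finsupp.single b 1) F with hg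
  have hgl : ∀ z ∈ Z, lin K n (g z) = z := by
    intro z hz
    obtain ⟨y, hy⟩ := (hZ z hz).2.1
    rw [← hy]
    congr 1
    funext b
    exact coeff_lin y b
  have hAZ : ∀ i, A i ≠ 0 → A i ∈ Z.image g := by
    intro i hi
    refine Finset.mem_image.2 ⟨lin K n (A i), hPZ i ?_, ?_⟩
    · intro h
      exact hi (lin_inj (by rw [h, map_zero]))
    · funext b
      exact coeff_lin _ b
  refine ⟨Z.image g, ?_, fun i => hAZ (Sum.inl i) (ha i), C1 + C2, add_nonneg hC10 hC20, ?_⟩
  · intro y hy
    obtain ⟨z, hz, rfl⟩ := Finset.mem_image.1 hy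
    intro h
    apply (hZ z hz).1
    rw [← hgl z hz, h, map_zero]
  intro L _ _ _ T x hx hZx c hc
  have hZx' : ∀ z ∈ Z, aeval x z ≠ 0 := by
    intro z hz
    rw [← hgl z hz]
    exact hZx _ (Finset.mem_image_of_mem _ hz)
  have hax : ∀ i, aeval x (lin K n (a i)) ≠ 0 := fun i => hZx _ (hAZ (Sum.inl i) (ha i))
  have hxj : ∀ j, x j ≠ 0 := by
    intro j
    have h1 := hZx _ (hAZ (Sum.inr j) (by
      intro h
      have h2 := congrFun h j
      simp [hA] at h2))
    rw [aeval_lin] at h1
    simp only [hA, Sum.elim_inr] at h1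
    rw [Finset.sum_eq_single j] at h1
    · rwa [Pi.single_eq_same, map_one, one_mul] at h1
    · intro b _ hb
      rw [Pi.single_eq_of_ne hb, map_zero, zero_mul]
    · intro h
      exact absurd (Finset.mem_univ _) h
  choose b hb hb2 using fun p : Pl L => hC1 L p x hx hax hxj
  have h1 := hC2 L T x hx hZx' b fun p _ => hb p
  have h2 : ∑ p ∈ T, wt p * ∑ i, c p i * lam (av p) 1 (bc L (lin K n (a i))) x ≤
      ∑ p ∈ T, (wt p * ∑ k, lam (av p) 1 (bc L (lin K n (A (b p k)))) x +
        C1 * Module.finrank ℚ L) :=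
    Finset.sum_le_sum fun p hp => hb2 p (c p) (hc p hp)
  rw [Finset.sum_add_distrib, Finset.sum_const, nsmul_eq_mul] at h2
  rw [Nat.cast_one, one_mul] at h1
  linarith

end Pool.Agent.TH875
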