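import Mathlib

set_option autoImplicit false

/-!
Counting lattice points in dilated simplices.
-/

namespace Pool.Agent.TH875

open Finset

/-- the points of `ℕ^m` with sum of coordinates at most `e` -/
def Dl (m e : ℕ) : Finset (Fin m → ℕ) :=
  (Fintype.piFinset fun _ => Finset.range (e + 1)).filter fun a => ∑ i, a i ≤ e

lemma mem_Dl {m e : ℕ} (a : Fin m → ℕ) : a ∈ Dl m e ↔ ∑ i, a i ≤ e := by
  unfold Dl
  rw [Finset.mem_filter, Fintype.mem_piFinset]
  refine ⟨fun h => h.2, fun h => ⟨fun i => ?_, h⟩⟩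
  rw [Finset.mem_range]
  have := Finset.single_le_sum (f := a) (fun _ _ => Nat.zero_le _) (Finset.mem_univ i)
  omega

lemma le_of_mem_Dl {m e : ℕ} {a : Fin m → ℕ} (h : a ∈ Dl m e) (i : Fin m) : a i ≤ e :=
  (Finset.single_le_sum (f := a) (fun _ _ => Nat.zero_le _) (Finset.mem_univ i)).trans
    ((mem_Dl a).1 h)

lemma Dl_mono {m e e' : ℕ} (h : e ≤ e') : Dl m e ⊆ Dl m e' := fun a ha =>
  (mem_Dl a).2 (((mem_Dl a).1 ha).trans h)

/-- the number of points -/
lemma card_Dl (m e : ℕ) : (Dl m e).card = (e + m).choose m := by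
  classical
  induction m generalizing e with
  | zero =>
    rw [Nat.choose_zero_right, Finset.card_eq_one]
    refine ⟨Fin.elim0, ?_⟩
    ext a
    rw [mem_Dl, Finset.mem_singleton]
    constructor
    · intro _
      exact funext fun i => i.elim0
    · intro _
      simp
  | succ m ih =>
    have h1 : (Dl (m + 1) e).card = ∑ v ∈ Finset.range (e + 1), (Dl m (e - v)).card := by
      rw [← Finset.card_sigma]
      refine Finset.card_bij' (fun a _ => ⟨a 0, Fin.tail a⟩) (fun p _ => Fin.cons p.1 p.2)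
        ?_ ?_ ?_ ?_
      · intro a ha
        rw [Finset.mem_sigma, Finset.mem_range, mem_Dl]
        rw [mem_Dl, Fin.sum_univ_succ] at ha
        refine ⟨by show a 0 < e + 1; omega, ?_⟩
        show ∑ i, a (Fin.succ i) ≤ e - a 0
        omega
      · rintro ⟨v, b⟩ hp
        rw [Finset.mem_sigma, Finset.mem_range, mem_Dl] at hp
        rw [mem_Dl, Fin.sum_univ_succ]
        simp only [Fin.cons_zero, Fin.cons_succ]
        have h1 := hp.1
        have h2 := hp.2
        simp only at h1 h2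
        omega
      · intro a _
        exact Fin.cons_self_tail a
      · rintro ⟨v, b⟩ _
        simp
    rw [h1]
    simp only [ih]
    have h2 : ∑ v ∈ Finset.range (e + 1), (e - v + m).choose m =
        ∑ v ∈ Finset.range (e + 1), (v + m).choose m :=
      Finset.sum_range_reflect (fun v => (v + m).choose m) (e + 1) ▸ by
        refine Finset.sum_congr rfl fun v hv => ?_
        rw [Finset.mem_range] at hv
        congr 2
    rw [h2, Nat.sum_range_add_choose]
    rfl

/-- comparison of the numbers of points -/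
lemma Dl_step (m e : ℕ) : e * (Dl m e).card ≤ (m + 1) * (Dl (m + 1) e).card := by
  rw [card_Dl, card_Dl, mul_comm (m + 1)]
  have h1 := Nat.add_one_mul_choose_eq (e + m) m
  have e1 : e + (m + 1) = e + m + 1 := rfl
  rw [e1, ← h1]
  exact Nat.mul_le_mul_right _ (by omega)

lemma Dl_step2 (m e : ℕ) :
    e ^ 2 * (Dl m e).card ≤ (m + 1) * (m + 2) * (Dl (m + 2) e).card := by
  have h1 := Dl_step m e
  have h2 := Dl_step (m + 1) e
  calc e ^ 2 * (Dl m e).card = e * (e * (Dl m e).card) := by ring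
    _ ≤ e * ((m + 1) * (Dl (m + 1) e).card) := Nat.mul_le_mul_left _ h1
    _ = (m + 1) * (e * (Dl (m + 1) e).card) := by ring
    _ ≤ (m + 1) * ((m + 1 + 1) * (Dl (m + 1 + 1) e).card) := Nat.mul_le_mul_left _ h2
    _ = (m + 1) * (m + 2) * (Dl (m + 2) e).card := by ring

lemma Dl_pos (m e : ℕ) : 0 < (Dl m e).card := by
  rw [card_Dl]
  exact Nat.choose_pos (by omega)

/-- fibres -/
lemma fib1 (m e v : ℕ) (i : Fin (m + 1)) :
    ((Dl (m + 1) e).filter fun a => a i = v).card ≤ (Dl m e).card := by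
  classical
  refine Finset.card_le_card_of_injOn (fun a => i.removeNth a) ?_ ?_
  · intro a ha
    rw [Finset.mem_coe, Finset.mem_filter, mem_Dl, Fin.sum_univ_succAbove _ i] at ha
    rw [Finset.mem_coe, mem_Dl]
    have h1 := ha.1
    show ∑ j, a (i.succAbove j) ≤ e
    omega
  · intro a ha a' ha' h
    rw [Finset.mem_coe, Finset.mem_filter] at ha ha'
    rw [← Fin.insertNth_self_removeNth i a, ← Fin.insertNth_self_removeNth i a']
    simp only at h
    rw [h, ha.2, ha'.2]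

lemma fib2 (m e v v' : ℕ) (i i' : Fin (m + 2)) (hi : i ≠ i') :
    ((Dl (m + 2) e).filter fun a => a i = v ∧ a i' = v').card ≤ (Dl m e).card := by
  classical
  obtain ⟨l, hl⟩ := Fin.exists_succAbove_eq (Ne.symm hi)
  refine le_trans ?_ (fib1 m e v' l)
  refine Finset.card_le_card_of_injOn (fun a => i.removeNth a) ?_ ?_
  · intro a ha
    rw [Finset.mem_coe, Finset.mem_filter, mem_Dl, Fin.sum_univ_succAbove _ i] at ha
    rw [Finset.mem_coe, Finset.mem_filter, mem_Dl]
    have h1 := ha.1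
    refine ⟨?_, ?_⟩
    · show ∑ j, a (i.succAbove j) ≤ e
      omega
    · show a (i.succAbove l) = v'
      rw [hl]
      exact ha.2.2
  · intro a ha a' ha' h
    rw [Finset.mem_coe, Finset.mem_filter] at ha ha'
    rw [← Fin.insertNth_self_removeNth i a, ← Fin.insertNth_self_removeNth i a']
    simp only at h
    rw [h, ha.2.1, ha'.2.1]

/-- an elementary sum -/
lemma sum_pow_le (p : ℕ) (hp : 1 ≤ p) (T z : ℝ) (hz : 0 < z) (n : ℕ) :
    ∑ j ∈ Finset.range n, (max 0 (T - z * j)) ^ p ≤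
      (max 0 T) ^ p + (max 0 T) ^ (p + 1) / ((p + 1) * z) := by
  have hpow : ∀ (p : ℕ) (x : ℝ), 0 ≤ x → x ^ (p + 1) + (p + 1) * x ^ p * z ≤ (x + z) ^ (p + 1) := by
    intro p x hx
    induction p with
    | zero => simp
    | succ p ih =>
      have h1 := mul_le_mul_of_nonneg_left ih (by positivity : 0 ≤ x + z)
      have h2 : 0 ≤ (p + 1) * x ^ p * z * z := by positivity
      have e1 : (x + z) ^ (p + 1 + 1) = (x + z) * (x + z) ^ (p + 1) := by ring
      rw [e1]
      push_cast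
      refine le_trans (le_of_eq ?_) (h1.trans' (by
        show x ^ (p + 1 + 1) + ((p : ℝ) + 1 + 1) * x ^ (p + 1) * z ≤
          (x + z) * (x ^ (p + 1) + (p + 1) * x ^ p * z)
        have e2 : (x + z) * (x ^ (p + 1) + (p + 1) * x ^ p * z) =
          x ^ (p + 1 + 1) + ((p : ℝ) + 1 + 1) * x ^ (p + 1) * z + (p + 1) * x ^ p * z * z := by
          ring
        rw [e2]
        linarith))
      rfl
  have key : ∀ n : ℕ, (p + 1) * z * ∑ j ∈ Finset.range n, (max 0 (T - z * (j + 1 : ℕ))) ^ p +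
      (max 0 (T - z * n)) ^ (p + 1) ≤ (max 0 T) ^ (p + 1) := by
    intro n
    induction n with
    | zero => simp
    | succ n ih =>
      rw [Finset.sum_range_succ, mul_add]
      have h1 : (p + 1) * z * (max 0 (T - z * (n + 1 : ℕ))) ^ p +
          (max 0 (T - z * (n + 1 : ℕ))) ^ (p + 1) ≤ (max 0 (T - z * n)) ^ (p + 1) := by
        rcases le_total (T - z * (n + 1 : ℕ)) 0 with h | h
        · rw [max_eq_left h, zero_pow (by omega), zero_pow (by omega)]
          simp
        · have h2 : T - z * n = T - z * (n + 1 : ℕ) + z := by push_cast; ring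
          rw [max_eq_right h, max_eq_right (by rw [h2]; linarith), h2]
          have := hpow p _ h
          linarith
      linarith
  rcases n with _ | n
  · simp only [Finset.range_zero, Finset.sum_empty]
    positivity
  · rw [Finset.sum_range_succ']
    have h1 := key n
    have h2 : 0 ≤ (max 0 (T - z * n)) ^ (p + 1) := by positivity
    have h3 : ∑ j ∈ Finset.range n, (max 0 (T - z * (j + 1 : ℕ))) ^ p ≤
        (max 0 T) ^ (p + 1) / ((p + 1) * z) := by
      rw [le_div_iff₀ (by positivity)]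
      linarith
    have h4 : (max 0 (T - z * ((0 : ℕ) : ℝ))) ^ p = (max 0 T) ^ p := by simp
    rw [h4]
    linarith

/-- convexity -/
lemma jensen_sq {ι : Type*} (s : Finset ι) (π x : ι → ℝ) (hπ : ∀ i ∈ s, 0 ≤ π i)
    (h1 : ∑ i ∈ s, π i = 1) :
    (max 0 (∑ i ∈ s, π i * x i)) ^ 2 ≤ ∑ i ∈ s, π i * (max 0 (x i)) ^ 2 := by
  have h2 : max 0 (∑ i ∈ s, π i * x i) ≤ ∑ i ∈ s, π i * max 0 (x i) := by
    refine max_le (Finset.sum_nonneg fun i hi => mul_nonneg (hπ i hi) (le_max_left _ _)) ?_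
    exact Finset.sum_le_sum fun i hi => mul_le_mul_of_nonneg_left (le_max_right _ _) (hπ i hi)
  have h3 := (convexOn_pow (𝕜 := ℝ) 2).map_sum_le (t := s) (w := π) (p := fun i => max 0 (x i))
    hπ h1 (fun i _ => Set.mem_Ici.2 (le_max_left _ _))
  simp only [smul_eq_mul] at h3
  exact (pow_le_pow_left₀ (le_max_left _ _) h2 2).trans h3

/-- sums over one coordinate -/
lemma one_coord (m e : ℕ) (i : Fin (m + 1)) (Z : ℝ) (hZ : 0 < Z) :
    ∑ a ∈ Dl (m + 1) e, (max 0 ((e : ℝ) - Z * a i)) ^ 2 ≤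
      (Dl m e).card * ((e : ℝ) ^ 2 + (e : ℝ) ^ 3 / (3 * Z)) := by
  classical
  have h1 : ∑ a ∈ Dl (m + 1) e, (max 0 ((e : ℝ) - Z * a i)) ^ 2 =
      ∑ v ∈ Finset.range (e + 1), ∑ a ∈ (Dl (m + 1) e).filter (fun a => a i = v),
        (max 0 ((e : ℝ) - Z * a i)) ^ 2 := by
    refine (Finset.sum_fiberwise_of_maps_to (fun a ha => ?_) _).symm
    rw [Finset.mem_range]
    have := le_of_mem_Dl ha i
    omega
  rw [h1]
  have h2 : ∀ v ∈ Finset.range (e + 1), ∑ a ∈ (Dl (m + 1) e).filter (fun a => a i = v),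
      (max 0 ((e : ℝ) - Z * a i)) ^ 2 ≤ (Dl m e).card * (max 0 ((e : ℝ) - Z * v)) ^ 2 := by
    intro v _
    have h3 : ∑ a ∈ (Dl (m + 1) e).filter (fun a => a i = v),
      (max 0 ((e : ℝ) - Z * a i)) ^ 2 = ∑ _a ∈ (Dl (m + 1) e).filter (fun a => a i = v),
      (max 0 ((e : ℝ) - Z * v)) ^ 2 := by
      refine Finset.sum_congr rfl fun a ha => ?_
      rw [(Finset.mem_filter.1 ha).2]
    rw [h3, Finset.sum_const, nsmul_eq_mul]
    refine mul_le_mul_of_nonneg_right ?_ (by positivity)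
    exact_mod_cast fib1 m e v i
  refine (Finset.sum_le_sum h2).trans ?_
  rw [← Finset.mul_sum]
  refine mul_le_mul_of_nonneg_left ?_ (Nat.cast_nonneg _)
  refine (sum_pow_le 2 (by norm_num) e Z hZ (e + 1)).trans (le_of_eq ?_)
  rw [max_eq_right (Nat.cast_nonneg e)]
  norm_num

/-- sums over two coordinates -/
lemma two_coord (m e : ℕ) (i i' : Fin (m + 2)) (hi : i ≠ i') (Z : ℝ) (hZ : 0 < Z) :
    ∑ a ∈ Dl (m + 2) e, (max 0 ((e : ℝ) - Z * ((a i + a i') / 2))) ^ 2 ≤
      (Dl m e).card * ((e : ℝ) ^ 2 + 4 * (e : ℝ) ^ 3 / (3 * Z) + (e : ℝ) ^ 4 / (3 * Z ^ 2)) := by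
  classical
  set g : ℕ → ℕ → ℝ := fun v v' => (max 0 ((e : ℝ) - Z / 2 * v' - Z / 2 * v)) ^ 2 with hg
  have h1 : ∑ a ∈ Dl (m + 2) e, (max 0 ((e : ℝ) - Z * ((a i + a i') / 2))) ^ 2 =
      ∑ p ∈ Finset.range (e + 1) ×ˢ Finset.range (e + 1),
        ∑ a ∈ (Dl (m + 2) e).filter (fun a => (a i, a i') = p),
        (max 0 ((e : ℝ) - Z * ((a i + a i') / 2))) ^ 2 := by
    refine (Finset.sum_fiberwise_of_maps_to (fun a ha => ?_) _).symm
    rw [Finset.mem_product, Finset.mem_range, Finset.mem_range]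
    have h2 := le_of_mem_Dl ha i
    have h3 := le_of_mem_Dl ha i'
    exact ⟨by show a i < e + 1; omega, by show a i' < e + 1; omega⟩
  rw [h1]
  have h2 : ∀ p ∈ Finset.range (e + 1) ×ˢ Finset.range (e + 1),
      ∑ a ∈ (Dl (m + 2) e).filter (fun a => (a i, a i') = p),
      (max 0 ((e : ℝ) - Z * ((a i + a i') / 2))) ^ 2 ≤ (Dl m e).card * g p.1 p.2 := by
    rintro ⟨v, v'⟩ _
    have h3 : ∑ a ∈ (Dl (m + 2) e).filter (fun a => (a i, a i') = (v, v')),
      (max 0 ((e : ℝ) - Z * ((a i + a i') / 2))) ^ 2 =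
      ∑ _a ∈ (Dl (m + 2) e).filter (fun a => (a i, a i') = (v, v')), g v v' := by
      refine Finset.sum_congr rfl fun a ha => ?_
      have h4 := (Finset.mem_filter.1 ha).2
      rw [Prod.mk.injEq] at h4
      rw [h4.1, h4.2]
      simp only [hg]
      congr 2
      ring
    rw [h3, Finset.sum_const, nsmul_eq_mul]
    refine mul_le_mul_of_nonneg_right ?_ (by positivity)
    have h5 := fib2 m e v v' i i' hi
    have e1 : (Dl (m + 2) e).filter (fun a => (a i, a i') = (v, v')) =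
        (Dl (m + 2) e).filter (fun a => a i = v ∧ a i' = v') := by
      refine Finset.filter_congr fun a _ => ?_
      rw [Prod.mk.injEq]
    rw [e1]
    exact_mod_cast h5
  refine (Finset.sum_le_sum h2).trans ?_
  rw [← Finset.mul_sum]
  refine mul_le_mul_of_nonneg_left ?_ (Nat.cast_nonneg _)
  rw [Finset.sum_product_right]
  have hZ2 : 0 < Z / 2 := by positivity
  have h3 : ∀ v' : ℕ, ∑ v ∈ Finset.range (e + 1), g v v' ≤
      (max 0 ((e : ℝ) - Z / 2 * v')) ^ 2 + (max 0 ((e : ℝ) - Z / 2 * v')) ^ 3 / (3 * (Z / 2)) := by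
    intro v'
    refine (sum_pow_le 2 (by norm_num) ((e : ℝ) - Z / 2 * v') (Z / 2) hZ2 (e + 1)).trans
      (le_of_eq ?_)
    norm_num
  refine (Finset.sum_le_sum fun v' _ => h3 v').trans ?_
  rw [Finset.sum_add_distrib, ← Finset.sum_div]
  have h4 := sum_pow_le 2 (by norm_num) e (Z / 2) hZ2 (e + 1)
  have h5 := sum_pow_le 3 (by norm_num) e (Z / 2) hZ2 (e + 1)
  rw [max_eq_right (Nat.cast_nonneg e)] at h4 h5
  have h6 : (∑ i ∈ Finset.range (e + 1), max 0 ((e : ℝ) - Z / 2 * i) ^ 3) / (3 * (Z / 2)) ≤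
      ((e : ℝ) ^ 3 + (e : ℝ) ^ (3 + 1) / (((3 : ℕ) + 1) * (Z / 2))) / (3 * (Z / 2)) := by
    gcongr
  refine (add_le_add h4 h6).trans (le_of_eq ?_)
  push_cast
  field_simp
  ring

end Pool.Agent.TH875
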