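import Pool.Agent.TH875.Mp9

set_option autoImplicit false

/-!
The proximity function of hypersurface sections in general position: many places.
-/

namespace Pool.Agent.TH875

open MvPolynomial Finset NumberField IsDedekindDomain Height
open Pool.Agent.W180.OP Pool.Agent.W180.TP

variable {K : Type} [Field K] [NumberField K]

/-- upper bounds for normalised local heights -/
lemma up_all {n q : ℕ} (F : Fin q → MvPolynomial (Fin n) K) (d : Fin q → ℕ) (hd : ∀ i, 1 ≤ d i)
    (hF : ∀ i, (F i).IsHomogeneous (d i)) :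
    ∃ C : ℝ, 0 ≤ C ∧ ∀ (L : Type) [Field L] [NumberField L] [Algebra K L] (p : Pl L)
      (x : Fin n → L), x ≠ 0 → (∀ i, aeval x (F i) ≠ 0) → ∀ i,
        wt p * max 0 (lam (av p) (d i) (bc L (F i)) x / d i) ≤
          logHeight x + C * Module.finrank ℚ L := by
  choose Cb hCb0 hCb using fun i : Fin q => liou_u (F i) (d i) (hF i)
  refine ⟨∑ i, Cb i, Finset.sum_nonneg fun i _ => hCb0 i, fun L _ _ _ p x hx hFx i => ?_⟩
  have h1 := hCb i L {p} x hx (hFx i)
  rw [Finset.sum_singleton] at h1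
  have h2 : Cb i ≤ ∑ i, Cb i :=
    Finset.single_le_sum (f := Cb) (fun i _ => hCb0 i) (Finset.mem_univ i)
  have hNq0 : (0 : ℝ) ≤ Module.finrank ℚ L := Nat.cast_nonneg _
  have h3 := mul_le_mul_of_nonneg_right h2 hNq0
  have hdi : (1 : ℝ) ≤ d i := by exact_mod_cast hd i
  have hdi0 : (0 : ℝ) < d i := by linarith
  have h4 : wt p * max 0 (lam (av p) (d i) (bc L (F i)) x / d i) =
      (wt p * max 0 (lam (av p) (d i) (bc L (F i)) x)) / d i := by
    have h5 : max 0 (lam (av p) (d i) (bc L (F i)) x / d i) =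
        max 0 (lam (av p) (d i) (bc L (F i)) x) / d i := by
      have h6 := (max_div_div_right hdi0.le 0 (lam (av p) (d i) (bc L (F i)) x))
      rw [zero_div] at h6
      exact h6
    rw [h5]
    ring
  rw [h4, div_le_iff₀ hdi0]
  have h5 : 0 ≤ (∑ i, Cb i) * (Module.finrank ℚ L : ℝ) :=
    mul_nonneg (Finset.sum_nonneg fun i _ => hCb0 i) hNq0
  have h6 := le_mul_of_one_le_right h5 hdi
  linarith

theorem many {n m q k : ℕ} (hrq : k + 3 ≤ q) (G : Fin m → MvPolynomial (Fin n) K)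
    (g : Fin m → ℕ) (hG : ∀ k, (G k).IsHomogeneous (g k))
    (hprime : (Ideal.span (Set.range G)).IsPrime)
    (htr : Algebra.trdeg K (MvPolynomial (Fin n) K ⧸ Ideal.span (Set.range G)) = (k + 3 : ℕ))
    (F : Fin q → MvPolynomial (Fin n) K) (d : Fin q → ℕ) (hd : ∀ i, 1 ≤ d i)
    (hF : ∀ i, (F i).IsHomogeneous (d i))
    (hgp : ∀ e : Fin (k + 3) ↪ Fin q, ∀ (L : Type) [Field L] [Algebra K L] (x : Fin n → L),
      (∀ k, aeval x (G k) = 0) → (∀ k, aeval x (F (e k)) = 0) → x = 0)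
    (s : ℕ) (ε : ℝ) (hε : 0 < ε) :
    ∃ Z : MvPolynomial (Fin n) K, Z ∉ Ideal.span (Set.range G) ∧ (∃ t, Z.IsHomogeneous t) ∧
      ∃ C : ℝ, 0 ≤ C ∧ ∀ (L : Type) [Field L] [NumberField L] [Algebra K L] (T : Finset (Pl L))
        (x : Fin n → L), T.card ≤ s → x ≠ 0 → (∀ k, aeval x (G k) = 0) →
        (∀ i, aeval x (F i) ≠ 0) → aeval x Z ≠ 0 →
        ∑ p ∈ T, wt p * ∑ i, lam (av p) (d i) (bc L (F i)) x / d i ≤
          (T.card + ((k : ℝ) + 1) * (k + 2) / 2 + ε) * logHeight x + C * Module.finrank ℚ L := by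
  classical
  have hk0 : (0 : ℝ) ≤ k := Nat.cast_nonneg k
  obtain ⟨N, hN⟩ : ∃ N : ℝ, N = ((k : ℝ) + 1) * (k + 2) / 2 := ⟨_, rfl⟩
  have hN0 : 0 ≤ N := by rw [hN]; positivity
  obtain ⟨M0, hM0d⟩ : ∃ M0 : ℕ, M0 = ⌈4 * (s * ((k : ℝ) + 2)) / ε⌉₊ + 1 := ⟨_, rfl⟩
  have hM0 : 1 ≤ M0 := by omega
  have hM0' : (0 : ℝ) < M0 := by exact_mod_cast hM0
  have hM0e : s * ((k : ℝ) + 2) / M0 ≤ ε / 4 := by
    have h1 : 4 * (s * ((k : ℝ) + 2)) / ε ≤ M0 := by
      refine (Nat.le_ceil _).trans ?_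
      exact_mod_cast (by omega : ⌈4 * (s * ((k : ℝ) + 2)) / ε⌉₊ ≤ M0)
    rw [div_le_iff₀ hε] at h1
    rw [div_le_iff₀ hM0']
    linarith
  obtain ⟨D, hDd⟩ : ∃ D : ℕ, D = ∏ i, d i := ⟨_, rfl⟩
  have hD : 1 ≤ D := by
    rw [hDd]
    exact Nat.one_le_iff_ne_zero.2
      (Finset.prod_ne_zero_iff.2 fun i _ => (Nat.one_le_iff_ne_zero.1 (hd i)))
  have hdD : ∀ i, d i ∣ D := fun i => by rw [hDd]; exact Finset.dvd_prod_of_mem d (Finset.mem_univ i)
  have hconf := fun c : Dat k q M0 → Fin (s + 1) => one_conf hrq G g hG hprime htr F d hd hF hgp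
    M0 hM0 (ε / 4) (by linarith) (fun δ => (c δ : ℕ))
  choose Q hQI hQh Cc hCc0 hCc using hconf
  obtain ⟨C6, hC60, hC6⟩ := up_all F d hd hF
  obtain ⟨C7, hC70, hC7⟩ := sum_top hD G g hG F d hd hF hdD (ν := k + 2) hgp
  obtain ⟨Cs, hCs⟩ : ∃ Cs, Cs = ∑ c, Cc c := ⟨_, rfl⟩
  have hCs0 : 0 ≤ Cs := by rw [hCs]; exact Finset.sum_nonneg fun c _ => hCc0 c
  choose tQ htQ using hQh
  refine ⟨∏ c, Q c, ?_, ⟨_, IsHomogeneous.prod _ _ _ fun c _ => htQ c⟩,
    s * ((k + 2) * Cs + C7) + (s + N + ε) * (C6 + 1) + s * C7, by positivity, ?_⟩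
  · intro h
    obtain ⟨c, _, hc⟩ := (hprime.prod_mem_iff).1 h
    exact hQI c hc
  intro L _ _ _ T x hTs hx hGx hFx hZx
  have hQx : ∀ c, aeval x (Q c) ≠ 0 := by
    intro c h0
    apply hZx
    rw [map_prod]
    exact Finset.prod_eq_zero (Finset.mem_univ c) h0
  obtain ⟨Nq, hNq⟩ : ∃ Nq : ℝ, Nq = (Module.finrank ℚ L : ℝ) := ⟨_, rfl⟩
  have hNq1 : 1 ≤ Nq := by
    rw [hNq]
    exact_mod_cast (Module.finrank_pos : 0 < Module.finrank ℚ L)
  have hNq0 : 0 ≤ Nq := by linarith
  have hh := Height.logHeight_nonneg x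
  obtain ⟨H, hH⟩ : ∃ H : ℝ, H = logHeight x + (C6 + 1) * Nq := ⟨_, rfl⟩
  have hH0 : 0 < H := by
    have : 0 < (C6 + 1) * Nq := mul_pos (by linarith) (by linarith)
    linarith
  have hHx : logHeight x ≤ H := by
    have : 0 ≤ (C6 + 1) * Nq := mul_nonneg (by linarith) hNq0
    linarith
  choose e he1 he2 using fun p : Pl L => top_sorted (r := k + 3) hrq
    (fun i => lam (av p) (d i) (bc L (F i)) x / d i)
  -- the sizes
  set U : Pl L → Fin (k + 2) → ℝ := fun p i => wt p * max 0 (lam (av p) (d (e p i.castSucc))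
    (bc L (F (e p i.castSucc))) x / d (e p i.castSucc)) with hU
  have hU0 : ∀ p i, 0 ≤ U p i := fun p i => mul_nonneg (wt_nonneg p) (le_max_left _ _)
  have hUH : ∀ p i, U p i ≤ H := by
    intro p i
    have h1 := hC6 L p x hx hFx (e p i.castSucc)
    rw [← hNq] at h1
    have h2 : C6 * Nq ≤ (C6 + 1) * Nq := by nlinarith
    rw [hH]
    exact h1.trans (by linarith)
  have hUanti : ∀ p, Antitone (U p) := by
    intro p i i' h
    refine mul_le_mul_of_nonneg_left (max_le_max le_rfl ?_) (wt_nonneg p)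
    exact he1 p (Fin.castSucc_le_castSucc_iff.2 h)
  set fl : Pl L → Fin (k + 2) → ℕ := fun p i => min M0 ⌊M0 * U p i / H⌋₊ with hfl
  set dat : Pl L → Dat k q M0 := fun p => (e p, fun i => ⟨fl p i, by
    have : fl p i ≤ M0 := min_le_left _ _
    omega⟩) with hdat
  have hdw : ∀ p i, dw (dat p) i = (fl p i : ℝ) / M0 := fun p i => rfl
  have hlow : ∀ p i, dw (dat p) i * H ≤ U p i := by
    intro p i
    rw [hdw]
    have h1 : (fl p i : ℝ) ≤ M0 * U p i / H := by
      refine le_trans ?_ (Nat.floor_le (div_nonneg (mul_nonneg hM0'.le (hU0 p i)) hH0.le))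
      exact_mod_cast min_le_right _ _
    rw [le_div_iff₀ hH0] at h1
    rw [div_mul_eq_mul_div, div_le_iff₀ hM0']
    linarith
  have hup : ∀ p i, U p i ≤ dw (dat p) i * H + H / M0 := by
    intro p i
    rw [hdw]
    have h0 : M0 * U p i / H ≤ M0 := by
      rw [div_le_iff₀ hH0]
      exact mul_le_mul_of_nonneg_left (hUH p i) hM0'.le
    have h1 : M0 * U p i / H ≤ fl p i + 1 := by
      simp only [hfl]
      rcases min_choice M0 ⌊M0 * U p i / H⌋₊ with h | h
      · rw [h]
        linarith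
      · rw [h]
        exact (Nat.lt_floor_add_one _).le
    rw [div_le_iff₀ hH0] at h1
    rw [div_mul_eq_mul_div, ← add_div, le_div_iff₀ hM0']
    linarith
  have hanti : ∀ p, Antitone (dw (dat p)) := by
    intro p i i' h
    rw [hdw, hdw]
    refine div_le_div_of_nonneg_right ?_ hM0'.le
    have h1 : fl p i' ≤ fl p i := by
      refine min_le_min le_rfl (Nat.floor_le_floor ?_)
      exact div_le_div_of_nonneg_right (mul_le_mul_of_nonneg_left (hUanti p h) hM0'.le) hH0.le
    exact_mod_cast h1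
  set c : Dat k q M0 → Fin (s + 1) := fun δ => ⟨(T.filter fun p => dat p = δ).card, by
    have := Finset.card_filter_le T (fun p => dat p = δ)
    omega⟩ with hc
  have hTcard : (T.card : ℝ) ≤ s := by exact_mod_cast hTs
  have hs0 : (0 : ℝ) ≤ s := Nat.cast_nonneg _
  -- the sum at one place
  have htop : ∀ p, wt p * ∑ i, lam (av p) (d i) (bc L (F i)) x / d i ≤
      ∑ i, U p i + C7 * Nq := by
    intro p
    have h1 := hC7 L p x hx hGx hFx (e p) (he1 p) (he2 p)
    rw [hNq]
    exact h1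
  have hsum1 : ∑ p ∈ T, wt p * ∑ i, lam (av p) (d i) (bc L (F i)) x / d i ≤
      ∑ p ∈ T, ∑ i, U p i + s * C7 * Nq := by
    refine (Finset.sum_le_sum fun p _ => htop p).trans ?_
    rw [Finset.sum_add_distrib, Finset.sum_const, nsmul_eq_mul]
    have h1 : 0 ≤ C7 * Nq := mul_nonneg hC70 hNq0
    have := mul_le_mul_of_nonneg_right hTcard h1
    linarith
  rw [← hN, ← hNq]
  refine hsum1.trans ?_
  by_cases hbig : N + ε / 4 < ∑ δ, ((c δ : ℕ) : ℝ) * exc δ
  · have h1 := hCc c L T x hx hGx hFx (hQx c) dat H hHx hH0.le (fun δ => rfl)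
      (fun p _ => hanti p) (by rw [← hN]; exact hbig) (fun p _ i => hlow p i)
    rw [← hNq] at h1
    have h2 : H ≤ Cs * Nq := by
      refine h1.trans (mul_le_mul_of_nonneg_right ?_ hNq0)
      rw [hCs]
      exact Finset.single_le_sum (f := Cc) (fun c _ => hCc0 c) (Finset.mem_univ _)
    have h3 : ∑ p ∈ T, ∑ i, U p i ≤ s * ((k + 2) * (Cs * Nq)) := by
      have h4 : ∀ p ∈ T, ∑ i, U p i ≤ (k + 2) * (Cs * Nq) := by
        intro p _
        have h5 : ∑ i, U p i ≤ ∑ _i : Fin (k + 2), Cs * Nq :=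
          Finset.sum_le_sum fun i _ => (hUH p i).trans h2
        rw [Finset.sum_const, Finset.card_univ, Fintype.card_fin, nsmul_eq_mul] at h5
        push_cast at h5
        exact h5
      refine (Finset.sum_le_sum h4).trans ?_
      rw [Finset.sum_const, nsmul_eq_mul]
      exact mul_le_mul_of_nonneg_right hTcard (by positivity)
    have h4 : 0 ≤ (T.card + N + ε) * logHeight x := by positivity
    have h5 : 0 ≤ s * C7 * Nq := by positivity
    have h6 : 0 ≤ (s + N + ε) * (C6 + 1) * Nq := by positivity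
    linarith
  · push Not at hbig
    have hexc : ∑ p ∈ T, exc (dat p) ≤ N + ε / 4 := by
      refine le_trans (le_of_eq ?_) hbig
      rw [← Finset.sum_fiberwise T dat (fun p => exc (dat p))]
      refine Finset.sum_congr rfl fun δ _ => ?_
      have e1 : ((c δ : ℕ) : ℝ) = ((T.filter fun p => dat p = δ).card : ℝ) := rfl
      rw [e1, ← nsmul_eq_mul, ← Finset.sum_const]
      refine Finset.sum_congr rfl fun p hp => ?_
      rw [(Finset.mem_filter.1 hp).2]
    have h1 : ∀ p ∈ T, ∑ i, U p i ≤ H + exc (dat p) * H + (k + 2) / M0 * H := by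
      intro p _
      have h2 : ∑ i, U p i ≤ ∑ i, (dw (dat p) i * H + H / M0) :=
        Finset.sum_le_sum fun i _ => hup p i
      rw [Finset.sum_add_distrib, ← Finset.sum_mul, Finset.sum_const, Finset.card_univ,
        Fintype.card_fin, nsmul_eq_mul] at h2
      have h3 : ∑ i, dw (dat p) i ≤ 1 + exc (dat p) := by
        have : ∑ i, dw (dat p) i - 1 ≤ exc (dat p) := le_max_right _ _
        linarith
      have h4 := mul_le_mul_of_nonneg_right h3 hH0.le
      have e1 : (((k + 2 : ℕ) : ℝ)) * (H / M0) = (k + 2) / M0 * H := by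
        push_cast
        ring
      rw [e1] at h2
      linarith
    have h2 : ∑ p ∈ T, ∑ i, U p i ≤ (T.card + N + ε) * H := by
      refine (Finset.sum_le_sum h1).trans ?_
      rw [Finset.sum_add_distrib, Finset.sum_add_distrib, Finset.sum_const, Finset.sum_const,
        ← Finset.sum_mul, nsmul_eq_mul, nsmul_eq_mul]
      have h4 := mul_le_mul_of_nonneg_right hexc hH0.le
      have h5 : (T.card : ℝ) * ((k + 2) / M0 * H) ≤ ε / 4 * H := by
        have h6 : (T.card : ℝ) * ((k + 2) / M0 * H) ≤ s * ((k + 2) / M0 * H) :=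
          mul_le_mul_of_nonneg_right hTcard (by positivity)
        have h7 := mul_le_mul_of_nonneg_right hM0e hH0.le
        have e1 : (s : ℝ) * ((k + 2) / M0 * H) = s * ((k : ℝ) + 2) / M0 * H := by ring
        rw [e1] at h6
        exact h6.trans h7
      have h6 : 0 ≤ ε / 2 * H := by positivity
      linarith
    have h3 : 0 ≤ s * ((k + 2) * Cs + C7) * Nq := by positivity
    have h4 : (T.card + N + ε) * H ≤ (T.card + N + ε) * logHeight x +
        (s + N + ε) * ((C6 + 1) * Nq) := by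
      rw [hH, mul_add]
      refine add_le_add le_rfl (mul_le_mul_of_nonneg_right (by linarith) ?_)
      exact mul_nonneg (by linarith) hNq0
    linarith

/-- only a bounded number of places matters -/
theorem all_T {n q : ℕ} (F : Fin q → MvPolynomial (Fin n) K) (d : Fin q → ℕ) (hd : ∀ i, 1 ≤ d i)
    (hF : ∀ i, (F i).IsHomogeneous (d i)) (A : ℝ) (hA : 0 ≤ A) (C : ℝ) (hC0 : 0 ≤ C) :
    ∃ C' : ℝ, 0 ≤ C' ∧ ∀ (L : Type) [Field L] [NumberField L] [Algebra K L] (x : Fin n → L),
      x ≠ 0 → (∀ i, aeval x (F i) ≠ 0) →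
      (∀ T : Finset (Pl L), T.card ≤ 2 * q →
        ∑ p ∈ T, wt p * ∑ i, lam (av p) (d i) (bc L (F i)) x / d i ≤
          (T.card + A) * logHeight x + C * Module.finrank ℚ L) →
      ∀ T : Finset (Pl L), ∑ p ∈ T, wt p * ∑ i, lam (av p) (d i) (bc L (F i)) x / d i ≤
          (T.card + A) * logHeight x + C' * Module.finrank ℚ L := by
  classical
  choose Cb hCb0 hCb using fun i : Fin q => liou_u (F i) (d i) (hF i)
  obtain ⟨C6, hC6⟩ : ∃ C6, C6 = 1 + ∑ i, Cb i := ⟨_, rfl⟩
  have hCbs : 0 ≤ ∑ i, Cb i := Finset.sum_nonneg fun i _ => hCb0 i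
  have hC61 : 1 ≤ C6 := by rw [hC6]; linarith
  refine ⟨C + 2 * q * C6, by positivity, fun L _ _ _ x hx hFx hT T => ?_⟩
  obtain ⟨Nq, hNq⟩ : ∃ Nq : ℝ, Nq = (Module.finrank ℚ L : ℝ) := ⟨_, rfl⟩
  have hNq1 : 1 ≤ Nq := by
    rw [hNq]
    exact_mod_cast (Module.finrank_pos : 0 < Module.finrank ℚ L)
  have hNq0 : 0 ≤ Nq := by linarith
  have hh := Height.logHeight_nonneg x
  rw [← hNq] at hT ⊢
  set f : Pl L → ℝ := fun p => wt p * ∑ i, lam (av p) (d i) (bc L (F i)) x / d i with hf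
  set S : Pl L → ℝ := fun p => ∑ i, wt p * max 0 (lam (av p) (d i) (bc L (F i)) x / d i) with hS
  have hfS : ∀ p, f p ≤ S p := by
    intro p
    simp only [hf, hS]
    rw [Finset.mul_sum]
    exact Finset.sum_le_sum fun i _ => mul_le_mul_of_nonneg_left (le_max_right _ _) (wt_nonneg p)
  have hS0 : ∀ p, 0 ≤ S p := fun p =>
    Finset.sum_nonneg fun i _ => mul_nonneg (wt_nonneg p) (le_max_left _ _)
  have hSsum : ∀ T' : Finset (Pl L), ∑ p ∈ T', S p ≤ q * (logHeight x + C6 * Nq) := by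
    intro T'
    simp only [hS]
    rw [Finset.sum_comm]
    have h1 : ∀ i : Fin q, ∑ p ∈ T', wt p * max 0 (lam (av p) (d i) (bc L (F i)) x / d i) ≤
        logHeight x + C6 * Nq := by
      intro i
      have h2 := hCb i L T' x hx (hFx i)
      rw [← hNq] at h2
      have hdi : (1 : ℝ) ≤ d i := by exact_mod_cast hd i
      have hdi0 : (0 : ℝ) < d i := by linarith
      have h3 : ∑ p ∈ T', wt p * max 0 (lam (av p) (d i) (bc L (F i)) x / d i) =
          (∑ p ∈ T', wt p * max 0 (lam (av p) (d i) (bc L (F i)) x)) / d i := by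
        rw [Finset.sum_div]
        refine Finset.sum_congr rfl fun p _ => ?_
        have h6 := (max_div_div_right hdi0.le 0 (lam (av p) (d i) (bc L (F i)) x))
        rw [zero_div] at h6
        rw [h6]
        ring
      rw [h3, div_le_iff₀ hdi0]
      have h4 : Cb i ≤ C6 := by
        have : Cb i ≤ ∑ i, Cb i :=
          Finset.single_le_sum (f := Cb) (fun i _ => hCb0 i) (Finset.mem_univ i)
        linarith
      have h5 := mul_le_mul_of_nonneg_right h4 hNq0
      have h6 : 0 ≤ C6 * Nq := mul_nonneg (by linarith) hNq0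
      have h7 := le_mul_of_one_le_right h6 hdi
      linarith
    refine (Finset.sum_le_sum fun i _ => h1 i).trans (le_of_eq ?_)
    rw [Finset.sum_const, Finset.card_univ, Fintype.card_fin, nsmul_eq_mul]
  show ∑ p ∈ T, f p ≤ _
  have hCN : 0 ≤ C6 * Nq := mul_nonneg (by linarith) hNq0
  rcases le_total (logHeight x) (C6 * Nq) with hsm | hbig
  · -- small height
    have h1 := (Finset.sum_le_sum fun p (_ : p ∈ T) => hfS p).trans (hSsum T)
    have h2 : (q : ℝ) * (logHeight x + C6 * Nq) ≤ q * (2 * (C6 * Nq)) :=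
      mul_le_mul_of_nonneg_left (by linarith) (Nat.cast_nonneg _)
    have h3 : 0 ≤ (T.card + A) * logHeight x := by positivity
    have h4 : 0 ≤ C * Nq := mul_nonneg hC0 hNq0
    linarith
  · set T' := T.filter fun p => logHeight x < f p with hT'
    have hcard : T'.card ≤ 2 * q := by
      by_contra hcon
      push Not at hcon
      have h0 : 0 < logHeight x := lt_of_lt_of_le (by positivity) hbig
      have h1 : T'.card • logHeight x ≤ ∑ p ∈ T', S p :=
        Finset.card_nsmul_le_sum _ _ _ fun p hp =>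
          ((Finset.mem_filter.1 hp).2.trans_le (hfS p)).le
      rw [nsmul_eq_mul] at h1
      have h2 := h1.trans (hSsum T')
      have h3 : ((2 * q + 1 : ℕ) : ℝ) ≤ T'.card := by exact_mod_cast hcon
      push_cast at h3
      have h4 := mul_le_mul_of_nonneg_right h3 h0.le
      have h5 := mul_le_mul_of_nonneg_left hbig (Nat.cast_nonneg q : (0 : ℝ) ≤ q)
      linarith
    have h1 := hT T' hcard
    have h2 : ∑ p ∈ T.filter (fun p => ¬ logHeight x < f p), f p ≤
        (T.filter fun p => ¬ logHeight x < f p).card * logHeight x := by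
      rw [← nsmul_eq_mul]
      exact Finset.sum_le_card_nsmul _ _ _ fun p hp => not_lt.1 (Finset.mem_filter.1 hp).2
    have h3 := Finset.sum_filter_add_sum_filter_not T (fun p => logHeight x < f p) f
    have h4 : (T'.card : ℝ) + (T.filter fun p => ¬ logHeight x < f p).card = T.card := by
      have := Finset.card_filter_add_card_filter_not (s := T) (fun p => logHeight x < f p)
      exact_mod_cast this
    have h5 : 0 ≤ 2 * q * C6 * Nq := by positivity
    rw [← h3, ← h4]
    have h6 : ∑ p ∈ T', f p ≤ (T'.card + A) * logHeight x + C * Nq := h1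
    linarith

end Pool.Agent.TH875
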