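import Pool.Agent.TH875.Mp1

set_option autoImplicit false

/-!
The mean of the square of the positive part of a linear function on a simplex.
-/

namespace Pool.Agent.TH875

open Finset

section

variable {k : ℕ} (c : Fin k → ℝ) (z : ℝ)

/-- the sum to be estimated -/
noncomputable def hs (e : ℕ) : ℝ :=
  ∑ b ∈ Dl k e, (max 0 ((e : ℝ) - z * ∑ j, c j * b j)) ^ 2

lemma hs_triv (hc0 : ∀ j, 0 ≤ c j) (hz : 0 ≤ z) (e : ℕ) :
    hs c z e ≤ (Dl k e).card * (e : ℝ) ^ 2 := by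
  unfold hs
  have h1 : ∀ b ∈ Dl k e, (max 0 ((e : ℝ) - z * ∑ j, c j * b j)) ^ 2 ≤ (e : ℝ) ^ 2 := by
    intro b _
    refine pow_le_pow_left₀ (le_max_left _ _) (max_le (Nat.cast_nonneg _) ?_) 2
    have : 0 ≤ ∑ j, c j * (b j : ℝ) :=
      Finset.sum_nonneg fun j _ => mul_nonneg (hc0 j) (Nat.cast_nonneg _)
    have := mul_nonneg hz this
    linarith
  refine (Finset.sum_le_sum h1).trans (le_of_eq ?_)
  rw [Finset.sum_const, nsmul_eq_mul]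

/-- one coordinate -/
lemma hs_single (hc0 : ∀ j, 0 ≤ c j) {ρ : ℝ} (hρ : ∑ j, c j = ρ) (hρ0 : 0 < ρ) (e : ℕ) (B : ℝ)
    (hB : ∀ j, ∑ b ∈ Dl k e, (max 0 ((e : ℝ) - ρ * z * b j)) ^ 2 ≤ B) : hs c z e ≤ B := by
  unfold hs
  have h1 : ∀ b ∈ Dl k e, (max 0 ((e : ℝ) - z * ∑ j, c j * b j)) ^ 2 ≤
      ∑ j, c j / ρ * (max 0 ((e : ℝ) - ρ * z * b j)) ^ 2 := by
    intro b _
    have hs1 : ∑ j, c j / ρ = 1 := by
      rw [← Finset.sum_div, hρ, div_self hρ0.ne']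
    have h2 := jensen_sq Finset.univ (fun j => c j / ρ) (fun j => (e : ℝ) - ρ * z * b j)
      (fun j _ => div_nonneg (hc0 j) hρ0.le) hs1
    have e1 : ∑ j, c j / ρ * ((e : ℝ) - ρ * z * b j) = (e : ℝ) - z * ∑ j, c j * b j := by
      have e2 : ∀ j, c j / ρ * ((e : ℝ) - ρ * z * b j) = e * (c j / ρ) - z * (c j * b j) := by
        intro j
        field_simp
      simp only [e2]
      rw [Finset.sum_sub_distrib, ← Finset.mul_sum, ← Finset.mul_sum, hs1, mul_one]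
    rwa [e1] at h2
  refine (Finset.sum_le_sum h1).trans ?_
  rw [Finset.sum_comm]
  have h2 : ∀ j, ∑ b ∈ Dl k e, c j / ρ * (max 0 ((e : ℝ) - ρ * z * b j)) ^ 2 ≤ c j / ρ * B := by
    intro j
    rw [← Finset.mul_sum]
    exact mul_le_mul_of_nonneg_left (hB j) (div_nonneg (hc0 j) hρ0.le)
  refine (Finset.sum_le_sum fun j _ => h2 j).trans (le_of_eq ?_)
  rw [← Finset.sum_mul, ← Finset.sum_div, hρ, div_self hρ0.ne', one_mul]

/-- two coordinates -/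
lemma hs_double (hc0 : ∀ j, 0 ≤ c j) (hc1 : ∀ j, c j ≤ 1) {ρ : ℝ} (hρ : ∑ j, c j = ρ)
    (hρ0 : 0 < ρ) (e : ℕ) (B1 B2 : ℝ) (hB1 : 0 ≤ B1) (hB2 : 0 ≤ B2)
    (h1 : ∀ j, ∑ b ∈ Dl k e, (max 0 ((e : ℝ) - ρ * z * b j)) ^ 2 ≤ B1)
    (h2 : ∀ j j', j ≠ j' →
      ∑ b ∈ Dl k e, (max 0 ((e : ℝ) - ρ * z * ((b j + b j') / 2))) ^ 2 ≤ B2) :
    hs c z e ≤ B1 / ρ + B2 := by
  classical
  unfold hs
  set π : Fin k × Fin k → ℝ := fun p => c p.1 * c p.2 / ρ ^ 2 with hπ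
  have hπ0 : ∀ p, 0 ≤ π p := fun p => div_nonneg (mul_nonneg (hc0 _) (hc0 _)) (sq_nonneg _)
  have hπ1 : ∑ p, π p = 1 := by
    rw [Fintype.sum_prod_type]
    simp only [hπ]
    have e1 : ∀ i : Fin k, ∑ j : Fin k, c i * c j / ρ ^ 2 = c i * (ρ / ρ ^ 2) := by
      intro i
      rw [← Finset.sum_div, ← Finset.mul_sum, hρ]
      ring
    simp only [e1]
    rw [← Finset.sum_mul, hρ]
    field_simp
  have h3 : ∀ b ∈ Dl k e, (max 0 ((e : ℝ) - z * ∑ j, c j * b j)) ^ 2 ≤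
      ∑ p, π p * (max 0 ((e : ℝ) - ρ * z * ((b p.1 + b p.2) / 2))) ^ 2 := by
    intro b _
    have h4 := jensen_sq Finset.univ π
      (fun p => (e : ℝ) - ρ * z * (((b p.1 : ℝ) + b p.2) / 2)) (fun p _ => hπ0 p) hπ1
    have e1 : ∑ p, π p * ((e : ℝ) - ρ * z * (((b p.1 : ℝ) + b p.2) / 2)) =
        (e : ℝ) - z * ∑ j, c j * b j := by
      have e2 : ∀ p, π p * ((e : ℝ) - ρ * z * (((b p.1 : ℝ) + b p.2) / 2)) =
          e * π p - z / (2 * ρ) * (c p.1 * b p.1 * c p.2) - z / (2 * ρ) *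
            (c p.1 * (c p.2 * b p.2)) := by
        intro p
        simp only [hπ]
        field_simp
        ring
      simp only [e2]
      rw [Finset.sum_sub_distrib, Finset.sum_sub_distrib, ← Finset.mul_sum, ← Finset.mul_sum,
        ← Finset.mul_sum, hπ1, Fintype.sum_prod_type, Fintype.sum_prod_type]
      simp only [← Finset.mul_sum, ← Finset.sum_mul, hρ]
      field_simp
      ring
    rwa [e1] at h4
  refine (Finset.sum_le_sum h3).trans ?_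
  rw [Finset.sum_comm]
  have h4 : ∀ p : Fin k × Fin k, ∑ b ∈ Dl k e,
      π p * (max 0 ((e : ℝ) - ρ * z * ((b p.1 + b p.2) / 2))) ^ 2 ≤
      π p * B2 + (if p.1 = p.2 then π p * B1 else 0) := by
    intro p
    rw [← Finset.mul_sum]
    by_cases hp : p.1 = p.2
    · rw [if_pos hp]
      have e1 : ∑ b ∈ Dl k e, (max 0 ((e : ℝ) - ρ * z * ((b p.1 + b p.2) / 2))) ^ 2 =
          ∑ b ∈ Dl k e, (max 0 ((e : ℝ) - ρ * z * b p.1)) ^ 2 := by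
        refine Finset.sum_congr rfl fun b _ => ?_
        rw [← hp]
        congr 3
        ring
      rw [e1]
      have := mul_le_mul_of_nonneg_left (h1 p.1) (hπ0 p)
      have := mul_nonneg (hπ0 p) hB2
      linarith
    · rw [if_neg hp, add_zero]
      exact mul_le_mul_of_nonneg_left (h2 p.1 p.2 hp) (hπ0 p)
  refine (Finset.sum_le_sum fun p _ => h4 p).trans ?_
  rw [Finset.sum_add_distrib, ← Finset.sum_mul, hπ1, one_mul, add_comm]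
  refine add_le_add ?_ le_rfl
  rw [Fintype.sum_prod_type]
  simp only [Finset.sum_ite_eq, Finset.mem_univ, if_true]
  rw [← Finset.sum_mul]
  have h5 : ∑ i, π (i, i) ≤ 1 / ρ := by
    simp only [hπ]
    rw [← Finset.sum_div, div_le_div_iff₀ (by positivity) hρ0, one_mul]
    have h6 : ∑ i, c i * c i ≤ ρ := by
      rw [← hρ]
      exact Finset.sum_le_sum fun i _ => mul_le_of_le_one_right (hc0 i) (hc1 i)
    nlinarith
  calc (∑ i, π (i, i)) * B1 ≤ 1 / ρ * B1 := mul_le_mul_of_nonneg_right h5 hB1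
    _ = B1 / ρ := by ring

end

/-- sums over one coordinate, normalised -/
lemma one_coord' {k : ℕ} (e : ℕ) (he : 1 ≤ e) (i : Fin k) (Z : ℝ) (hZ : 0 < Z) :
    ∑ a ∈ Dl k e, (max 0 ((e : ℝ) - Z * a i)) ^ 2 ≤
      (Dl k e).card * (k * e + k * (e : ℝ) ^ 2 / (3 * Z)) := by
  obtain ⟨m, rfl⟩ : ∃ m, k = m + 1 := ⟨k - 1, by have := i.pos; omega⟩
  refine (one_coord m e i Z hZ).trans ?_
  have h1 : (e : ℝ) * (Dl m e).card ≤ (m + 1) * (Dl (m + 1) e).card := by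
    exact_mod_cast Dl_step m e
  have he' : (1 : ℝ) ≤ e := by exact_mod_cast he
  have h2 : 0 ≤ (e : ℝ) + (e : ℝ) ^ 2 / (3 * Z) := by positivity
  have h3 := mul_le_mul_of_nonneg_right h1 h2
  refine le_trans (le_of_eq ?_) (h3.trans (le_of_eq ?_))
  · field_simp
  · push_cast
    field_simp

lemma two_coord' {k : ℕ} (e : ℕ) (i i' : Fin k) (hi : i ≠ i') (Z : ℝ)
    (hZ : 0 < Z) : ∑ a ∈ Dl k e, (max 0 ((e : ℝ) - Z * ((a i + a i') / 2))) ^ 2 ≤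
      (Dl k e).card * (k * (k - 1) * (1 + 4 * e / (3 * Z) + (e : ℝ) ^ 2 / (3 * Z ^ 2))) := by
  obtain ⟨m, rfl⟩ : ∃ m, k = m + 2 := by
    refine ⟨k - 2, ?_⟩
    have h1 := i.2
    have h2 := i'.2
    have h3 : (i : ℕ) ≠ i' := fun h => hi (Fin.ext h)
    omega
  refine (two_coord m e i i' hi Z hZ).trans ?_
  have h1 : (e : ℝ) ^ 2 * (Dl m e).card ≤ (m + 1) * (m + 2) * (Dl (m + 2) e).card := by
    exact_mod_cast Dl_step2 m e
  have h2 : 0 ≤ 1 + 4 * (e : ℝ) / (3 * Z) + (e : ℝ) ^ 2 / (3 * Z ^ 2) := by positivity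
  have h3 := mul_le_mul_of_nonneg_right h1 h2
  refine le_trans (le_of_eq ?_) (h3.trans (le_of_eq ?_))
  · field_simp
  · push_cast
    ring

lemma num_mid {ρ : ℝ} (h4 : 1 / 4 ≤ ρ) (h2 : ρ ≤ 2) :
    (1 + ρ / 2) ^ 2 * ((1 + ρ) / (9 * ρ)) ≤ 4 / 5 := by
  have hρ0 : 0 < ρ := by linarith
  rw [mul_div_assoc', div_le_iff₀ (by positivity)]
  have h5 := mul_nonneg (sub_nonneg.2 h4) (sub_nonneg.2 h2)
  have h6 := mul_nonneg h5 hρ0.le
  nlinarith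

lemma num_key {k ρ : ℝ} (h2 : 2 ≤ ρ) (hk : ρ ≤ k) :
    k * ((ρ + 1) * (ρ + 2)) ≤ ρ * ((k + 1) * (k + 2)) := by
  have h1 : 0 ≤ k * ρ - 2 := by nlinarith
  have h3 := mul_nonneg (sub_nonneg.2 hk) h1
  nlinarith

lemma num_T1 {k ρ Z : ℝ} (hZ : 0 < Z) (h2 : 2 ≤ ρ) (h : k * (ρ + 2) ≤ 2 * Z) :
    (1 + ρ / 2) ^ 2 * (k / (3 * Z) / ρ) ≤ 1 / 3 := by
  rw [div_div, mul_div_assoc', div_le_iff₀ (by positivity)]
  have h3 := mul_le_mul_of_nonneg_left h (by linarith : 0 ≤ 2 + ρ)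
  have h4 := mul_nonneg hZ.le (sub_nonneg.2 h2)
  nlinarith

lemma num_T2 {k ρ Z : ℝ} (hZ : 0 < Z) (hk : 0 ≤ k) (h2 : 2 ≤ ρ) (h : k * (ρ + 2) ≤ 2 * Z) :
    (1 + ρ / 2) ^ 2 * (k * (k - 1) / (3 * Z ^ 2)) ≤ 1 / 3 := by
  rw [mul_div_assoc', div_le_iff₀ (by positivity)]
  have h0 : 0 ≤ k * (ρ + 2) := mul_nonneg hk (by linarith)
  have h3 : (k * (ρ + 2)) ^ 2 ≤ (2 * Z) ^ 2 := pow_le_pow_left₀ h0 h 2
  have h5 : (1 + ρ / 2) ^ 2 * (k * (k - 1)) ≤ (1 + ρ / 2) ^ 2 * (k * k) :=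
    mul_le_mul_of_nonneg_left (by nlinarith) (by positivity)
  have e1 : (1 + ρ / 2) ^ 2 * (k * k) = (k * (ρ + 2)) ^ 2 / 4 := by ring
  have e2 : (2 * Z) ^ 2 = 4 * Z ^ 2 := by ring
  rw [e1] at h5
  rw [e2] at h3
  linarith

/-- the last case of the main estimate: small `ρ` -/
lemma hs_small {k : ℕ} (c : Fin k → ℝ) (z : ℝ) (hc0 : ∀ j, 0 ≤ c j)
    {ρ : ℝ} (hρ : ∑ j, c j = ρ) (hz : 0 < z) (hk : 0 < k) (hρ0 : 0 < ρ) (h4 : ρ ≤ 1 / 4)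
    (hkz : (k : ℝ) ≤ z * (1 + ρ) / 3) (e : ℕ) (he : 6 * k ≤ e) :
    (1 + ρ / 2) ^ 2 * hs c z e ≤ (Dl k e).card * (e : ℝ) ^ 2 := by
  have he1 : 1 ≤ e := by omega
  have he' : (1 : ℝ) ≤ e := by exact_mod_cast he1
  have hek : 6 * (k : ℝ) ≤ e := by exact_mod_cast he
  set lam : ℝ := 5 * ρ / (1 + ρ) with hlam
  have hlam0 : 0 < lam := by positivity
  have hlam1 : lam ≤ 1 := by
    rw [hlam, div_le_one (by positivity)]
    linarith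
  set Z' : ℝ := z * (1 + ρ) / 5 with hZ'
  have hZ'0 : 0 < Z' := by positivity
  have hZl : ρ * z = lam * Z' := by
    rw [hlam, hZ']
    field_simp
  obtain ⟨D, hD⟩ : ∃ D : ℝ, D = ((Dl k e).card : ℝ) := ⟨_, rfl⟩
  rw [← hD]
  have hD0 : 0 ≤ D := by rw [hD]; exact Nat.cast_nonneg _
  have h1 := hs_single c z hc0 hρ hρ0 e
    (D * ((1 - lam) * (e : ℝ) ^ 2 + lam * (k * e + k * (e : ℝ) ^ 2 / (3 * Z')))) (by
    intro j
    have h2 : ∀ b ∈ Dl k e, (max 0 ((e : ℝ) - ρ * z * b j)) ^ 2 ≤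
        (1 - lam) * (e : ℝ) ^ 2 + lam * (max 0 ((e : ℝ) - Z' * b j)) ^ 2 := by
      intro b _
      have h3 := jensen_sq (Finset.univ : Finset (Fin 2)) ![1 - lam, lam]
        ![(e : ℝ), (e : ℝ) - Z' * b j] (by
          intro i _
          fin_cases i
          · simpa using hlam1
          · simpa using hlam0.le) (by simp)
      simp only [Fin.sum_univ_two, Matrix.cons_val_zero, Matrix.cons_val_one] at h3
      rw [max_eq_right (Nat.cast_nonneg e)] at h3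
      have e1 : (1 - lam) * (e : ℝ) + lam * ((e : ℝ) - Z' * b j) = (e : ℝ) - ρ * z * b j := by
        rw [hZl]; ring
      rwa [e1] at h3
    refine (Finset.sum_le_sum h2).trans ?_
    rw [Finset.sum_add_distrib, Finset.sum_const, nsmul_eq_mul, ← Finset.mul_sum]
    have h4 := mul_le_mul_of_nonneg_left (one_coord' e he1 j Z' hZ'0) hlam0.le
    rw [← hD] at h4 ⊢
    linarith)
  have h5 : (k : ℝ) * (e : ℝ) ^ 2 / (3 * Z') ≤ 5 / 9 * (e : ℝ) ^ 2 := by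
    rw [div_le_iff₀ (by positivity)]
    have h6 : (k : ℝ) ≤ 5 / 9 * (3 * Z') := by rw [hZ']; linarith
    have h7 := mul_le_mul_of_nonneg_right h6 (sq_nonneg (e : ℝ))
    linarith
  have h6 : (k : ℝ) * e ≤ 1 / 6 * (e : ℝ) ^ 2 := by
    have := mul_le_mul_of_nonneg_right hek (by linarith : (0 : ℝ) ≤ e)
    linarith
  have h7 : (1 - lam) * (e : ℝ) ^ 2 + lam * (k * e + k * (e : ℝ) ^ 2 / (3 * Z')) ≤
      (1 - ρ) * (e : ℝ) ^ 2 := by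
    have h8 : lam * (k * e + k * (e : ℝ) ^ 2 / (3 * Z')) ≤ lam * (13 / 18 * (e : ℝ) ^ 2) :=
      mul_le_mul_of_nonneg_left (by linarith) hlam0.le
    have h9 : ρ ≤ 5 / 18 * lam := by
      rw [hlam, mul_div_assoc', le_div_iff₀ (by positivity)]
      nlinarith
    have h10 := mul_le_mul_of_nonneg_right h9 (sq_nonneg (e : ℝ))
    linarith
  have h8 := mul_le_mul_of_nonneg_left (h1.trans (mul_le_mul_of_nonneg_left h7 hD0))
    (sq_nonneg (1 + ρ / 2))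
  refine h8.trans ?_
  have h9 : (1 + ρ / 2) ^ 2 * (1 - ρ) ≤ 1 := by
    have h11 : 0 ≤ ρ ^ 2 := sq_nonneg _
    have h12 : 0 ≤ ρ ^ 3 := by positivity
    nlinarith
  have h10 : 0 ≤ D * (e : ℝ) ^ 2 := by positivity
  calc (1 + ρ / 2) ^ 2 * (D * ((1 - ρ) * (e : ℝ) ^ 2)) =
      ((1 + ρ / 2) ^ 2 * (1 - ρ)) * (D * (e : ℝ) ^ 2) := by ring
    _ ≤ 1 * (D * (e : ℝ) ^ 2) := mul_le_mul_of_nonneg_right h9 h10
    _ = D * (e : ℝ) ^ 2 := one_mul _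

/-- middle range -/
lemma hs_mid {k : ℕ} (c : Fin k → ℝ) (z : ℝ) (hc0 : ∀ j, 0 ≤ c j)
    {ρ : ℝ} (hρ : ∑ j, c j = ρ) (hz : 0 < z) (hk : 0 < k) (h4 : 1 / 4 ≤ ρ) (h2 : ρ ≤ 2)
    (hkz : (k : ℝ) ≤ z * (1 + ρ) / 3) (e : ℕ) (he : 20 * k ≤ e) :
    (1 + ρ / 2) ^ 2 * hs c z e ≤ (Dl k e).card * (e : ℝ) ^ 2 := by
  have hρ0 : 0 < ρ := by linarith
  have hZ : 0 < ρ * z := by positivity
  have he1 : 1 ≤ e := by omega
  have he' : (1 : ℝ) ≤ e := by exact_mod_cast he1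
  have hek : 20 * (k : ℝ) ≤ e := by exact_mod_cast he
  obtain ⟨D, hD⟩ : ∃ D : ℝ, D = ((Dl k e).card : ℝ) := ⟨_, rfl⟩
  rw [← hD]
  have hD0 : 0 ≤ D := by rw [hD]; exact Nat.cast_nonneg _
  have h1 := hs_single c z hc0 hρ hρ0 e (D * (k * e + k * (e : ℝ) ^ 2 / (3 * (ρ * z))))
    (fun j => by rw [hD]; exact one_coord' e he1 j (ρ * z) hZ)
  have h5 : (k : ℝ) * (e : ℝ) ^ 2 / (3 * (ρ * z)) ≤ (1 + ρ) / (9 * ρ) * (e : ℝ) ^ 2 := by
    rw [div_le_iff₀ (by positivity)]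
    have h6 : (k : ℝ) ≤ (1 + ρ) / (9 * ρ) * (3 * (ρ * z)) := by
      have e1 : (1 + ρ) / (9 * ρ) * (3 * (ρ * z)) = z * (1 + ρ) / 3 := by
        field_simp
        ring
      rw [e1]
      exact hkz
    have h7 := mul_le_mul_of_nonneg_right h6 (sq_nonneg (e : ℝ))
    linarith
  have h6 : (k : ℝ) * e ≤ 1 / 20 * (e : ℝ) ^ 2 := by
    have := mul_le_mul_of_nonneg_right hek (by linarith : (0 : ℝ) ≤ e)
    linarith
  have h8 := mul_le_mul_of_nonneg_left (h1.trans (mul_le_mul_of_nonneg_left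
    (add_le_add h6 h5) hD0)) (sq_nonneg (1 + ρ / 2))
  refine h8.trans ?_
  have h9 : (1 + ρ / 2) ^ 2 * (1 / 20 + (1 + ρ) / (9 * ρ)) ≤ 1 := by
    have h10 := num_mid h4 h2
    have h11 : (1 + ρ / 2) ^ 2 * (1 / 20) ≤ 1 / 5 := by nlinarith
    linarith
  have h10 : 0 ≤ D * (e : ℝ) ^ 2 := by positivity
  calc (1 + ρ / 2) ^ 2 * (D * (1 / 20 * (e : ℝ) ^ 2 + (1 + ρ) / (9 * ρ) * (e : ℝ) ^ 2)) =
      ((1 + ρ / 2) ^ 2 * (1 / 20 + (1 + ρ) / (9 * ρ))) * (D * (e : ℝ) ^ 2) := by ring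
    _ ≤ 1 * (D * (e : ℝ) ^ 2) := mul_le_mul_of_nonneg_right h9 h10
    _ = D * (e : ℝ) ^ 2 := one_mul _

/-- large `ρ` -/
lemma hs_large {k : ℕ} (c : Fin k → ℝ) (z : ℝ) (hc0 : ∀ j, 0 ≤ c j) (hc1 : ∀ j, c j ≤ 1)
    {ρ : ℝ} (hρ : ∑ j, c j = ρ) (hz : 0 < z) (h2 : 2 ≤ ρ) (hρk : ρ ≤ k)
    (key2 : (k : ℝ) * (ρ + 2) ≤ 2 * (ρ * z)) :
    ∃ e1 : ℕ, ∀ e, e1 ≤ e → (1 + ρ / 2) ^ 2 * hs c z e ≤ (Dl k e).card * (e : ℝ) ^ 2 := by
  have hρ0 : 0 < ρ := by linarith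
  obtain ⟨Z, hZdef⟩ : ∃ Z, Z = ρ * z := ⟨_, rfl⟩
  have hZ : 0 < Z := by rw [hZdef]; positivity
  have hk2 : (2 : ℝ) ≤ k := h2.trans hρk
  have hk0 : (0 : ℝ) ≤ k := by linarith
  obtain ⟨C, hC⟩ : ∃ C, C = (1 + ρ / 2) ^ 2 * (k / ρ + k * (k - 1) * (1 + 4 / (3 * Z))) :=
    ⟨_, rfl⟩
  have hkk : 0 ≤ (k : ℝ) * (k - 1) := mul_nonneg hk0 (by linarith)
  refine ⟨⌈3 * C⌉₊ + 1, fun e he => ?_⟩
  have he1 : 1 ≤ e := by omega
  have he' : (1 : ℝ) ≤ e := by exact_mod_cast he1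
  have heC : 3 * C ≤ e := by
    refine (Nat.le_ceil _).trans ?_
    exact_mod_cast (by omega : ⌈3 * C⌉₊ ≤ e)
  obtain ⟨D, hD⟩ : ∃ D : ℝ, D = ((Dl k e).card : ℝ) := ⟨_, rfl⟩
  rw [← hD]
  have hD0 : 0 ≤ D := by rw [hD]; exact Nat.cast_nonneg _
  have h1 := hs_double c z hc0 hc1 hρ hρ0 e (D * (k * e + k * (e : ℝ) ^ 2 / (3 * Z)))
    (D * (k * (k - 1) * (1 + 4 * e / (3 * Z) + (e : ℝ) ^ 2 / (3 * Z ^ 2))))
    (by positivity) (mul_nonneg hD0 (mul_nonneg hkk (by positivity)))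
    (fun j => by rw [hD, ← hZdef]; exact one_coord' e he1 j Z hZ)
    (fun j j' hj => by rw [hD, ← hZdef]; exact two_coord' e j j' hj Z hZ)
  rw [← hZdef] at key2
  have T1 := num_T1 hZ h2 key2
  have T2 := num_T2 hZ hk0 h2 key2
  have h8 := mul_le_mul_of_nonneg_left h1 (sq_nonneg (1 + ρ / 2))
  refine h8.trans ?_
  have h9 : (1 + ρ / 2) ^ 2 * (D * (k * e + k * (e : ℝ) ^ 2 / (3 * Z)) / ρ +
      D * (k * (k - 1) * (1 + 4 * e / (3 * Z) + (e : ℝ) ^ 2 / (3 * Z ^ 2)))) =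
      D * (((1 + ρ / 2) ^ 2 * (k / (3 * Z) / ρ) + (1 + ρ / 2) ^ 2 * (k * (k - 1) / (3 * Z ^ 2))) *
        (e : ℝ) ^ 2 + (1 + ρ / 2) ^ 2 * (k / ρ * e + k * (k - 1) * (1 + 4 / (3 * Z) * e))) := by
    ring
  rw [h9]
  refine mul_le_mul_of_nonneg_left ?_ hD0
  have h10 : (1 + ρ / 2) ^ 2 * (k / ρ * e + k * (k - 1) * (1 + 4 / (3 * Z) * e)) ≤ C * e := by
    have h11 : (k : ℝ) / ρ * e + k * (k - 1) * (1 + 4 / (3 * Z) * e) ≤
        (k / ρ + k * (k - 1) * (1 + 4 / (3 * Z))) * e := by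
      have := mul_nonneg hkk (sub_nonneg.2 he')
      linarith
    have h12 := mul_le_mul_of_nonneg_left h11 (sq_nonneg (1 + ρ / 2))
    rw [hC]
    linarith
  have h11 : C * e ≤ 1 / 3 * (e : ℝ) ^ 2 := by
    have := mul_le_mul_of_nonneg_right heC (by linarith : (0 : ℝ) ≤ e)
    linarith
  have h12 := mul_le_mul_of_nonneg_right (add_le_add T1 T2) (sq_nonneg (e : ℝ))
  linarith

/-- the main estimate -/
theorem hlem {k : ℕ} (c : Fin k → ℝ) (z : ℝ) (hc0 : ∀ j, 0 ≤ c j) (hc1 : ∀ j, c j ≤ 1)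
    {ρ : ℝ} (hρ : ∑ j, c j = ρ) (hz : 0 < z)
    (hN : ((k : ℝ) + 1) * (k + 2) / 2 ≤ z * (1 + ρ)) :
    ∃ e1 : ℕ, ∀ e, e1 ≤ e → (1 + ρ / 2) ^ 2 * hs c z e ≤ (Dl k e).card * (e : ℝ) ^ 2 := by
  have hρ0 : 0 ≤ ρ := by rw [← hρ]; exact Finset.sum_nonneg fun j _ => hc0 j
  have hk0 : (0 : ℝ) ≤ k := Nat.cast_nonneg k
  have hρk : ρ ≤ k := by
    rw [← hρ]
    have := Finset.sum_le_sum fun j (_ : j ∈ Finset.univ) => hc1 j
    rwa [Finset.sum_const, Finset.card_univ, Fintype.card_fin, nsmul_eq_mul, mul_one] at this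
  have hkN : (k : ℝ) ≤ ((k : ℝ) + 1) * (k + 2) / 2 / 3 := by
    -- `(k - 1) * (k - 2) ≥ 0`
    rcases Nat.lt_or_ge k 2 with h | h
    · interval_cases k <;> norm_num
    · have : (2 : ℝ) ≤ k := by exact_mod_cast h
      nlinarith
  rcases hρ0.eq_or_lt with h0 | hρ0
  · refine ⟨0, fun e _ => ?_⟩
    rw [← h0]
    have := hs_triv c z hc0 hz.le e
    linarith
  have hkpos : 0 < k := by
    rcases Nat.eq_zero_or_pos k with h | h
    · exfalso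
      rw [h] at hρk
      norm_num at hρk
      linarith
    · exact h
  have hkz : (k : ℝ) ≤ z * (1 + ρ) / 3 := by linarith
  rcases le_total ρ (1 / 4) with h4 | h4
  · exact ⟨6 * k, fun e he => hs_small c z hc0 hρ hz hkpos hρ0 h4 hkz e he⟩
  rcases le_total ρ 2 with h2 | h2
  · exact ⟨20 * k, fun e he => hs_mid c z hc0 hρ hz hkpos h4 h2 hkz e he⟩
  · refine hs_large c z hc0 hc1 hρ hz h2 hρk ?_
    have key := num_key h2 hρk
    have h3 : (k : ℝ) * (ρ + 2) * (ρ + 1) ≤ 2 * (ρ * z) * (ρ + 1) := by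
      have h5 := mul_le_mul_of_nonneg_left hN hρ0.le
      nlinarith
    exact le_of_mul_le_mul_right h3 (by linarith)

end Pool.Agent.TH875
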