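import Pool.Agent.TH875.Mp2

set_option autoImplicit false

/-!
The number of monomials of small weight.
-/

namespace Pool.Agent.TH875

open Finset

lemma cnt1 (z S : ℝ) (hz : 0 < z) (n : ℕ) :
    (((Finset.range n).filter fun v : ℕ => z * v < S).card : ℝ) ≤
      max 0 S / z + if 0 < S then 1 else 0 := by
  split_ifs with h
  · have h1 : (Finset.range n).filter (fun v : ℕ => z * v < S) ⊆ Finset.range ⌈S / z⌉₊ := by
      intro v hv
      rw [Finset.mem_filter] at hv
      rw [Finset.mem_range, Nat.lt_ceil, lt_div_iff₀ hz]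
      linarith [hv.2]
    have h2 := Finset.card_le_card h1
    rw [Finset.card_range] at h2
    have h3 : (((Finset.range n).filter fun v : ℕ => z * v < S).card : ℝ) ≤ (⌈S / z⌉₊ : ℝ) := by
      exact_mod_cast h2
    have h4 := Nat.ceil_lt_add_one (div_nonneg h.le hz.le)
    rw [max_eq_right h.le]
    linarith
  · have h1 : (Finset.range n).filter (fun v : ℕ => z * v < S) = ∅ := by
      refine Finset.filter_eq_empty_iff.2 fun v _ hv => ?_
      have : 0 ≤ z * v := by positivity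
      linarith
    rw [h1, Finset.card_empty, add_zero, Nat.cast_zero]
    positivity

/-- pairs -/
lemma cnt2 (z0 z1 T : ℝ) (h0 : 0 < z0) (h1 : 0 < z1) (n : ℕ) :
    (((Finset.range n ×ˢ Finset.range n).filter fun p : ℕ × ℕ => z0 * p.1 + z1 * p.2 < T).card
      : ℝ) ≤ (max 0 T) ^ 2 / (2 * z0 * z1) + max 0 T * (1 / z0 + 1 / z1) + 1 := by
  classical
  have e1 : ((Finset.range n ×ˢ Finset.range n).filter
      fun p : ℕ × ℕ => z0 * p.1 + z1 * p.2 < T).card =
      ∑ w ∈ Finset.range n, ((Finset.range n).filter fun v : ℕ => z0 * v < T - z1 * w).card := by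
    rw [Finset.card_filter, Finset.sum_product_right]
    refine Finset.sum_congr rfl fun w _ => ?_
    rw [Finset.card_filter]
    refine Finset.sum_congr rfl fun v _ => ?_
    congr 1
    rw [lt_sub_iff_add_lt]
  rw [e1]
  push_cast
  have h2 : ∀ w ∈ Finset.range n,
      (((Finset.range n).filter fun v : ℕ => z0 * v < T - z1 * w).card : ℝ) ≤
        max 0 (T - z1 * w) / z0 + if 0 < T - z1 * w then 1 else 0 :=
    fun w _ => cnt1 z0 (T - z1 * w) h0 n
  refine (Finset.sum_le_sum h2).trans ?_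
  rw [Finset.sum_add_distrib, ← Finset.sum_div]
  have h3 : ∑ w ∈ Finset.range n, (if 0 < T - z1 * w then (1 : ℝ) else 0) ≤
      max 0 T / z1 + 1 := by
    have e2 : ∑ w ∈ Finset.range n, (if 0 < T - z1 * (w : ℝ) then (1 : ℝ) else 0) =
        ((Finset.range n).filter fun w : ℕ => z1 * w < T).card := by
      rw [Finset.card_filter]
      push_cast
      refine Finset.sum_congr rfl fun w _ => ?_
      congr 1
      rw [sub_pos]
    rw [e2]
    refine (cnt1 z1 T h1 n).trans ?_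
    split_ifs <;> linarith
  have h4 := sum_pow_le 1 le_rfl T z1 h1 n
  simp only [pow_one] at h4
  have h5 : (∑ w ∈ Finset.range n, max 0 (T - z1 * w)) / z0 ≤
      (max 0 T + (max 0 T) ^ 2 / (2 * z1)) / z0 := by
    refine div_le_div_of_nonneg_right (h4.trans (le_of_eq ?_)) h0.le
    norm_num
  refine (add_le_add h5 h3).trans (le_of_eq ?_)
  field_simp
  ring

/-- the number of lattice points of a simplex in a half space -/
theorem count {k : ℕ} (z : Fin (k + 2) → ℝ) (hz : Antitone z) (hz0 : ∀ i, 0 ≤ z i) (M X : ℝ)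
    (hM : z 0 ≤ M) (hMX : M + X = ∑ i, z i) (hX : ((k : ℝ) + 1) * (k + 2) / 2 ≤ X) (η : ℝ)
    (hη : ((k : ℝ) + 1) * (k + 2) / 2 / (M * X) < η) :
    ∃ e1 : ℕ, ∀ e, e1 ≤ e →
      (((Dl (k + 2) e).filter fun a => ∑ i, z i * a i < e).card : ℝ) ≤
        η * (Dl (k + 2) e).card := by
  classical
  have hk0 : (0 : ℝ) ≤ k := Nat.cast_nonneg k
  obtain ⟨N, hN⟩ : ∃ N : ℝ, N = ((k : ℝ) + 1) * (k + 2) / 2 := ⟨_, rfl⟩
  have hN1 : 1 ≤ N := by rw [hN]; nlinarith
  rw [← hN] at hX hη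
  have hX0 : 0 < X := by linarith
  set z0 := z 0 with hz0d
  set z1 := z 1 with hz1d
  have h10 : z1 ≤ z0 := hz (Fin.zero_le 1)
  have hj1 : ∀ j : Fin k, z j.succ.succ ≤ z1 := by
    intro j
    refine hz ?_
    rw [Fin.le_def]
    show (1 : Fin (k + 2)).val ≤ j.val + 1 + 1
    simp
  have hsum : ∑ i, z i = z0 + (z1 + ∑ j : Fin k, z j.succ.succ) := by
    rw [Fin.sum_univ_succ, Fin.sum_univ_succ]
    rfl
  rw [hsum] at hMX
  have hz1pos : 0 < z1 := by
    by_contra hcon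
    push Not at hcon
    have h2 : ∑ j : Fin k, z j.succ.succ ≤ 0 :=
      Finset.sum_nonpos fun j _ => (hj1 j).trans hcon
    linarith
  have hz0pos : 0 < z0 := lt_of_lt_of_le hz1pos h10
  have hMpos : 0 < M := lt_of_lt_of_le hz0pos hM
  set c : Fin k → ℝ := fun j => z j.succ.succ / z1 with hc
  have hc0 : ∀ j, 0 ≤ c j := fun j => div_nonneg (hz0 _) hz1pos.le
  have hc1 : ∀ j, c j ≤ 1 := fun j => (div_le_one hz1pos).2 (hj1 j)
  obtain ⟨ρ, hρ⟩ : ∃ ρ, ∑ j, c j = ρ := ⟨_, rfl⟩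
  have hρz : ∑ j : Fin k, z j.succ.succ = ρ * z1 := by
    rw [← hρ, Finset.sum_mul]
    refine Finset.sum_congr rfl fun j _ => ?_
    simp only [hc]
    rw [div_mul_cancel₀ _ hz1pos.ne']
  have hρ0 : 0 ≤ ρ := by rw [← hρ]; exact Finset.sum_nonneg fun j _ => hc0 j
  rw [hρz] at hMX
  obtain ⟨e1, he1⟩ := hlem c z1 hc0 hc1 hρ hz1pos (by rw [← hN]; linarith)
  -- the comparison of the constants
  obtain ⟨P, hP⟩ : ∃ P, P = z0 * z1 * (1 + ρ / 2) ^ 2 := ⟨_, rfl⟩
  have hPpos : 0 < P := by rw [hP]; positivity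
  have hMXP : M * X ≤ P := by
    have h2 : (M * X) * z1 ≤ P * z1 := by
      have hX' : X = z0 + (z1 + ρ * z1) - M := by linarith
      have h3 : M * z1 ≤ z0 * (z1 + (M - z0)) := by
        have := mul_nonneg (sub_nonneg.2 hM) (sub_nonneg.2 h10)
        linarith
      have h4 := mul_le_mul_of_nonneg_right h3 hX0.le
      have h5 : (z1 + (M - z0)) * X ≤ (z1 * (1 + ρ / 2)) ^ 2 := by
        rw [hX']
        have := sq_nonneg (z1 + (M - z0) - (z0 + (z1 + ρ * z1) - M))
        linarith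
      have h6 := mul_le_mul_of_nonneg_left h5 hz0pos.le
      calc M * X * z1 = M * z1 * X := by ring
        _ ≤ z0 * (z1 + (M - z0)) * X := h4
        _ = z0 * ((z1 + (M - z0)) * X) := by ring
        _ ≤ z0 * (z1 * (1 + ρ / 2)) ^ 2 := h6
        _ = P * z1 := by rw [hP]; ring
    exact le_of_mul_le_mul_right h2 hz1pos
  have hNP : N / P < η := lt_of_le_of_lt
    (div_le_div_of_nonneg_left (by linarith) (by positivity) hMXP) hη
  obtain ⟨C, hC⟩ : ∃ C, C = 2 * N * (1 / z0 + 1 / z1 + 1) := ⟨_, rfl⟩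
  have hC0 : 0 ≤ C := by rw [hC]; positivity
  refine ⟨e1 + ⌈C / (η - N / P)⌉₊ + 1, fun e he => ?_⟩
  have hee1 : e1 ≤ e := by omega
  have he1' : 1 ≤ e := by omega
  have her : (1 : ℝ) ≤ e := by exact_mod_cast he1'
  have heC : C ≤ (η - N / P) * e := by
    have h2 : C / (η - N / P) ≤ e := by
      refine (Nat.le_ceil _).trans ?_
      exact_mod_cast (by omega : ⌈C / (η - N / P)⌉₊ ≤ e)
    rw [div_le_iff₀ (by linarith)] at h2
    linarith
  have h2 := he1 e hee1
  -- decomposition of the bad set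
  set Bad := (Dl (k + 2) e).filter fun a => ∑ i, z i * a i < e with hBad
  set τ : (Fin (k + 2) → ℕ) → (Fin k → ℕ) := fun a j => a j.succ.succ with hτ
  set T : (Fin k → ℕ) → ℝ := fun b => (e : ℝ) - z1 * ∑ j, c j * b j with hT
  have hTle : ∀ b, max 0 (T b) ≤ e := by
    intro b
    refine max_le (Nat.cast_nonneg _) ?_
    have h3 : 0 ≤ ∑ j, c j * (b j : ℝ) :=
      Finset.sum_nonneg fun j _ => mul_nonneg (hc0 j) (Nat.cast_nonneg _)
    have := mul_nonneg hz1pos.le h3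
    simp only [hT]
    linarith
  have hsuma : ∀ a : Fin (k + 2) → ℕ, ∑ i, z i * (a i : ℝ) =
      z0 * a 0 + (z1 * a 1 + z1 * ∑ j, c j * (τ a j : ℝ)) := by
    intro a
    rw [Fin.sum_univ_succ, Fin.sum_univ_succ, Finset.mul_sum]
    congr 2
    refine Finset.sum_congr rfl fun j _ => ?_
    simp only [hc, hτ]
    field_simp
  have hmaps : ∀ a ∈ Bad, τ a ∈ Dl k e := by
    intro a ha
    have h3 := (mem_Dl a).1 (Finset.mem_filter.1 ha).1
    rw [Fin.sum_univ_succ, Fin.sum_univ_succ] at h3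
    rw [mem_Dl]
    show ∑ j : Fin k, a j.succ.succ ≤ e
    omega
  have h3 : Bad.card = ∑ b ∈ Dl k e, (Bad.filter fun a => τ a = b).card :=
    Finset.card_eq_sum_card_fiberwise hmaps
  have h4 : ∀ b ∈ Dl k e, ((Bad.filter fun a => τ a = b).card : ℝ) ≤
      (max 0 (T b)) ^ 2 / (2 * z0 * z1) + ((e : ℝ) * (1 / z0 + 1 / z1) + 1) := by
    intro b _
    have h5 : (Bad.filter fun a => τ a = b).card ≤ ((Finset.range (e + 1) ×ˢ
        Finset.range (e + 1)).filter fun p : ℕ × ℕ => z0 * p.1 + z1 * p.2 < T b).card := by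
      refine Finset.card_le_card_of_injOn (fun a => (a 0, a 1)) ?_ ?_
      · intro a ha
        rw [Finset.mem_coe, Finset.mem_filter, hBad, Finset.mem_filter] at ha
        rw [Finset.mem_coe, Finset.mem_filter, Finset.mem_product, Finset.mem_range,
          Finset.mem_range]
        have h6 := le_of_mem_Dl ha.1.1 0
        have h7 := le_of_mem_Dl ha.1.1 1
        refine ⟨⟨by show a 0 < e + 1; omega, by show a 1 < e + 1; omega⟩, ?_⟩
        have h8 := ha.1.2
        rw [hsuma, ha.2] at h8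
        simp only [hT]
        linarith
      · intro a ha a' ha' h
        rw [Finset.mem_coe, Finset.mem_filter] at ha ha'
        simp only [Prod.mk.injEq] at h
        funext i
        refine Fin.cases h.1 (fun i => Fin.cases h.2 (fun i => ?_) i) i
        have h9 : τ a i = τ a' i := by rw [ha.2, ha'.2]
        exact h9
    have h6 := cnt2 z0 z1 (T b) hz0pos hz1pos (e + 1)
    have h7 : ((Bad.filter fun a => τ a = b).card : ℝ) ≤ _ := (Nat.cast_le.2 h5).trans h6
    have h8 := mul_le_mul_of_nonneg_right (hTle b)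
      (by positivity : 0 ≤ 1 / z0 + 1 / z1)
    linarith
  have h5 : (Bad.card : ℝ) ≤ hs c z1 e / (2 * z0 * z1) +
      (Dl k e).card * ((e : ℝ) * (1 / z0 + 1 / z1) + 1) := by
    rw [h3]
    push_cast
    refine (Finset.sum_le_sum h4).trans (le_of_eq ?_)
    rw [Finset.sum_add_distrib, Finset.sum_const, nsmul_eq_mul, ← Finset.sum_div]
    rfl
  obtain ⟨D, hD⟩ : ∃ D : ℝ, D = ((Dl k e).card : ℝ) := ⟨_, rfl⟩
  obtain ⟨D2, hD2⟩ : ∃ D : ℝ, D = ((Dl (k + 2) e).card : ℝ) := ⟨_, rfl⟩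
  have hstep : (e : ℝ) ^ 2 * D ≤ 2 * N * D2 := by
    have h6 : (e : ℝ) ^ 2 * (Dl k e).card ≤ ((k : ℝ) + 1) * (k + 2) * (Dl (k + 2) e).card := by
      exact_mod_cast Dl_step2 k e
    rw [← hD, ← hD2] at h6
    have e2 : 2 * N = ((k : ℝ) + 1) * (k + 2) := by rw [hN]; ring
    rw [e2]
    exact h6
  rw [← hD] at h2 h5
  rw [← hD2]
  have hD0 : 0 ≤ D := by rw [hD]; exact Nat.cast_nonneg _
  have hD20 : 0 ≤ D2 := by rw [hD2]; exact Nat.cast_nonneg _
  -- `e² * Bad ≤ ...`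
  have h6 : hs c z1 e / (2 * z0 * z1) ≤ D * (e : ℝ) ^ 2 / (2 * P) := by
    rw [div_le_div_iff₀ (by positivity) (by positivity), hP]
    have := mul_le_mul_of_nonneg_left h2 (by positivity : 0 ≤ 2 * z0 * z1)
    linarith
  have h7 : (Bad.card : ℝ) ≤ D * ((e : ℝ) ^ 2 / (2 * P) + e * (1 / z0 + 1 / z1 + 1)) := by
    have h8 : D * ((e : ℝ) * (1 / z0 + 1 / z1) + 1) ≤ D * (e * (1 / z0 + 1 / z1 + 1)) :=
      mul_le_mul_of_nonneg_left (by linarith) hD0
    have e3 : D * (e : ℝ) ^ 2 / (2 * P) = D * ((e : ℝ) ^ 2 / (2 * P)) := mul_div_assoc _ _ _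
    rw [mul_add]
    linarith
  have h8 : (e : ℝ) ^ 2 * Bad.card ≤
      2 * N * D2 * ((e : ℝ) ^ 2 / (2 * P) + e * (1 / z0 + 1 / z1 + 1)) := by
    have h9 := mul_le_mul_of_nonneg_left h7 (sq_nonneg (e : ℝ))
    have h10 := mul_le_mul_of_nonneg_right hstep
      (by positivity : 0 ≤ (e : ℝ) ^ 2 / (2 * P) + e * (1 / z0 + 1 / z1 + 1))
    linarith
  have h9 : 2 * N * D2 * ((e : ℝ) ^ 2 / (2 * P) + e * (1 / z0 + 1 / z1 + 1)) ≤
      (e : ℝ) ^ 2 * (η * D2) := by
    have e4 : 2 * N * D2 * ((e : ℝ) ^ 2 / (2 * P) + e * (1 / z0 + 1 / z1 + 1)) =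
        D2 * ((e : ℝ) ^ 2 * (N / P) + e * C) := by
      rw [hC]
      field_simp
    rw [e4]
    have h10 : (e : ℝ) ^ 2 * (N / P) + e * C ≤ (e : ℝ) ^ 2 * η := by
      have h11 := mul_le_mul_of_nonneg_left heC (by linarith : (0 : ℝ) ≤ e)
      calc (e : ℝ) ^ 2 * (N / P) + e * C ≤ (e : ℝ) ^ 2 * (N / P) + e * ((η - N / P) * e) :=
            add_le_add le_rfl h11
        _ = (e : ℝ) ^ 2 * η := by ring
    have := mul_le_mul_of_nonneg_left h10 hD20
    linarith
  exact le_of_mul_le_mul_left (h8.trans h9) (by positivity)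

end Pool.Agent.TH875
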