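import Pool.Agent.TH875.Mp3
import Pool.Agent.TH875.Cm3

set_option autoImplicit false

/-!
The number of monomials of small weight: monomials in forms.
-/

namespace Pool.Agent.TH875

open Finset

lemma fib_ge {n k D M : ℕ} (hD : 1 ≤ D) (E : Finset (Fin n →₀ ℕ)) (β : Fin n →₀ ℕ) (hβ : β ∈ E)
    (e : ℕ) (he : D * e + β.degree = M) :
    (Dl (k + 2) e).card ≤ ((Sm D E (k + 3) M).filter fun s => s.2 = β).card := by
  classical
  refine Finset.card_le_card_of_injOn
    (fun a => ((Fin.snoc a (e - ∑ i, a i) : Fin (k + 3) → ℕ), β)) ?_ ?_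
  · intro a ha
    have h1 := (mem_Dl a).1 (Finset.mem_coe.1 ha)
    rw [Finset.mem_coe, Finset.mem_filter, mem_Sm hD]
    refine ⟨⟨hβ, ?_⟩, rfl⟩
    unfold dg
    rw [Fin.sum_univ_castSucc]
    simp only [Fin.snoc_castSucc, Fin.snoc_last]
    rw [Nat.add_sub_cancel' h1]
    exact he
  · intro a ha a' ha' h
    simp only [Prod.mk.injEq] at h
    have h1 := congrArg (fun f : Fin (k + 3) → ℕ => (Fin.init f : Fin (k + 2) → ℕ)) h.1
    simpa [Fin.init_snoc] using h1

lemma fib_bad {n k D M : ℕ} (hD : 1 ≤ D) (E : Finset (Fin n →₀ ℕ)) (β : Fin n →₀ ℕ)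
    (e : ℕ) (he : D * e + β.degree = M) (w z : Fin (k + 2) → ℝ) (t : ℝ)
    (h : ∀ a : Fin (k + 2) → ℕ, D * ∑ i, w i * (a i : ℝ) < t * M → ∑ i, z i * (a i : ℝ) < e) :
    (((Sm D E (k + 3) M).filter fun s => D * ∑ i : Fin (k + 2), w i * (s.1 i.castSucc : ℝ) <
      t * M).filter fun s => s.2 = β).card ≤
      ((Dl (k + 2) e).filter fun a => ∑ i, z i * (a i : ℝ) < e).card := by
  classical
  have hkey : ∀ s ∈ Sm D E (k + 3) M, s.2 = β → ∑ i, s.1 i = e := by
    intro s hs h2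
    have h3 := ((mem_Sm hD E M s).1 hs).2
    unfold dg at h3
    rw [h2] at h3
    exact Nat.eq_of_mul_eq_mul_left hD (by omega)
  refine Finset.card_le_card_of_injOn (fun s i => s.1 i.castSucc) ?_ ?_
  · intro s hs
    rw [Finset.mem_coe, Finset.mem_filter, Finset.mem_filter] at hs
    rw [Finset.mem_coe, Finset.mem_filter, mem_Dl]
    have h1 := hkey s hs.1.1 hs.2
    rw [Fin.sum_univ_castSucc] at h1
    exact ⟨by show ∑ i : Fin (k + 2), s.1 i.castSucc ≤ e; omega, h _ hs.1.2⟩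
  · intro s hs s' hs' hss
    rw [Finset.mem_coe, Finset.mem_filter, Finset.mem_filter] at hs hs'
    have h1 := hkey s hs.1.1 hs.2
    have h2 := hkey s' hs'.1.1 hs'.2
    rw [Fin.sum_univ_castSucc] at h1 h2
    refine Prod.ext ?_ (hs.2.trans hs'.2.symm)
    funext i
    have h3 : ∀ i : Fin (k + 2), s.1 i.castSucc = s'.1 i.castSucc := fun i => congrFun hss i
    refine Fin.lastCases ?_ h3 i
    have h4 : ∑ i : Fin (k + 2), s.1 i.castSucc = ∑ i : Fin (k + 2), s'.1 i.castSucc :=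
      Finset.sum_congr rfl fun i _ => h3 i
    omega

/-- the number of monomials of small weight -/
theorem sm_count {n k D : ℕ} (hD : 1 ≤ D) (E : Finset (Fin n →₀ ℕ)) (w : Fin (k + 2) → ℝ)
    (hw : Antitone w) (hw0 : ∀ i, 0 ≤ w i) (hw1 : w 0 ≤ 1) (X τ t η : ℝ)
    (hX : 1 + X = ∑ i, w i) (hτ : 0 < τ) (hNτ : ((k : ℝ) + 1) * (k + 2) / 2 * τ ≤ X)
    (hη : ((k : ℝ) + 1) * (k + 2) / 2 * τ ^ 2 / X < η) (ht0 : 0 ≤ t) (ht : t < τ) :
    ∃ M1 : ℕ, ∀ M, M1 ≤ M →
      (((Sm D E (k + 3) M).filter fun s => D * ∑ i : Fin (k + 2), w i * (s.1 i.castSucc : ℝ) <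
        t * M).card : ℝ) ≤ η * (Sm D E (k + 3) M).card := by
  classical
  have hk0 : (0 : ℝ) ≤ k := Nat.cast_nonneg k
  obtain ⟨N, hN⟩ : ∃ N : ℝ, N = ((k : ℝ) + 1) * (k + 2) / 2 := ⟨_, rfl⟩
  have hN1 : 1 ≤ N := by rw [hN]; nlinarith
  rw [← hN] at hNτ hη
  have hX0 : 0 < X := lt_of_lt_of_le (by positivity) hNτ
  have hη0 : 0 ≤ η := le_trans (by positivity) hη.le
  obtain ⟨e1, he1⟩ := count (fun i => w i / τ) (fun i j hij => div_le_div_of_nonneg_right
    (hw hij) hτ.le) (fun i => div_nonneg (hw0 i) hτ.le) (1 / τ) (X / τ)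
    (div_le_div_of_nonneg_right hw1 hτ.le) (by rw [← add_div, hX, Finset.sum_div])
    (by rw [← hN, le_div_iff₀ hτ]; exact hNτ) η (by
      rw [← hN]
      refine lt_of_le_of_lt (le_of_eq ?_) hη
      field_simp)
  obtain ⟨Bm, hBm⟩ : ∃ Bm, Bm = ∑ β ∈ E, β.degree := ⟨_, rfl⟩
  have hB : ∀ β ∈ E, β.degree ≤ Bm := by
    intro β hβ
    rw [hBm]
    exact Finset.single_le_sum (f := fun β : Fin n →₀ ℕ => β.degree) (fun _ _ => Nat.zero_le _) hβ
  refine ⟨D * (e1 + ⌈t * Bm / (τ - t)⌉₊) + Bm, fun M hM => ?_⟩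
  set Bad := (Sm D E (k + 3) M).filter fun s => D * ∑ i : Fin (k + 2),
    w i * (s.1 i.castSucc : ℝ) < t * M with hBad
  have h1 : Bad.card = ∑ β ∈ E, (Bad.filter fun s => s.2 = β).card :=
    Finset.card_eq_sum_card_fiberwise fun s hs =>
      ((mem_Sm hD E M s).1 (Finset.mem_filter.1 hs).1).1
  have h2 : (Sm D E (k + 3) M).card =
      ∑ β ∈ E, ((Sm D E (k + 3) M).filter fun s => s.2 = β).card :=
    Finset.card_eq_sum_card_fiberwise fun s hs => ((mem_Sm hD E M s).1 hs).1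
  rw [h1, h2]
  push_cast
  rw [Finset.mul_sum]
  refine Finset.sum_le_sum fun β hβ => ?_
  rcases Finset.eq_empty_or_nonempty ((Sm D E (k + 3) M).filter fun s => s.2 = β) with hem | hne
  · have h3 : Bad.filter (fun s => s.2 = β) = ∅ := by
      rw [← Finset.subset_empty, ← hem]
      exact Finset.filter_subset_filter _ (Finset.filter_subset _ _)
    rw [h3, hem]
    simp
  · obtain ⟨s0, hs0⟩ := hne
    rw [Finset.mem_filter, mem_Sm hD] at hs0
    obtain ⟨e, he⟩ : ∃ e, e = ∑ i, s0.1 i := ⟨_, rfl⟩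
    have heM : D * e + β.degree = M := by
      have h3 := hs0.1.2
      unfold dg at h3
      rw [hs0.2, ← he] at h3
      exact h3
    have hee : e1 + ⌈t * Bm / (τ - t)⌉₊ ≤ e := by
      have h3 := hB β hβ
      have h4 : D * (e1 + ⌈t * Bm / (τ - t)⌉₊) ≤ D * e := by omega
      exact Nat.le_of_mul_le_mul_left h4 hD
    have h3 := fib_ge (k := k) hD E β hβ e heM
    have h5 : t * Bm ≤ (τ - t) * e := by
      have h6 : t * Bm / (τ - t) ≤ e := by
        refine (Nat.le_ceil _).trans ?_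
        exact_mod_cast (by omega : ⌈t * Bm / (τ - t)⌉₊ ≤ e)
      rw [div_le_iff₀ (by linarith)] at h6
      linarith
    have h4 := fib_bad (k := k) hD E β e heM w (fun i => w i / τ) t (by
      intro a ha
      have hD1 : (1 : ℝ) ≤ D := by exact_mod_cast hD
      have h6 : (M : ℝ) ≤ D * (e + Bm) := by
        have h7 : M ≤ D * (e + Bm) := by
          rw [← heM, mul_add]
          refine add_le_add le_rfl ((hB β hβ).trans ?_)
          exact Nat.le_mul_of_pos_left _ hD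
        exact_mod_cast h7
      have h8 : D * ∑ i, w i * (a i : ℝ) < D * (τ * e) := by
        refine lt_of_lt_of_le ha ((mul_le_mul_of_nonneg_left h6 ht0).trans ?_)
        have h9 : t * (e + Bm) ≤ τ * (e : ℝ) := by linarith
        have := mul_le_mul_of_nonneg_left h9 (by linarith : (0 : ℝ) ≤ D)
        linarith
      have h9 := lt_of_mul_lt_mul_left h8 (by linarith : (0 : ℝ) ≤ D)
      have e2 : ∑ i, w i / τ * (a i : ℝ) = (∑ i, w i * (a i : ℝ)) / τ := by
        rw [Finset.sum_div]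
        exact Finset.sum_congr rfl fun i _ => by ring
      rw [e2, div_lt_iff₀ hτ]
      linarith)
    have h6 := he1 e (by omega)
    have h7 : ((Bad.filter fun s => s.2 = β).card : ℝ) ≤
      (((Dl (k + 2) e).filter fun a => ∑ i, w i / τ * (a i : ℝ) < e).card : ℝ) := by
      exact_mod_cast h4
    have h8 : ((Dl (k + 2) e).card : ℝ) ≤
        (((Sm D E (k + 3) M).filter fun s => s.2 = β).card : ℝ) := by
      exact_mod_cast h3
    exact (h7.trans h6).trans (mul_le_mul_of_nonneg_left h8 hη0)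

end Pool.Agent.TH875
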