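import Pool.Agent.TH875.Mp4

set_option autoImplicit false

/-!
The auxiliary form.
-/

namespace Pool.Agent.TH875

open MvPolynomial Finset

/-- subspaces of small codimension have a common nonzero element -/
lemma common {K W Δ : Type*} [Field K] [AddCommGroup W] [Module K W] [Module.Finite K W]
    [Fintype Δ] (V : Δ → Submodule K W)
    (h : ∑ δ, (Module.finrank K W - Module.finrank K (V δ)) < Module.finrank K W) :
    ∃ q : W, q ≠ 0 ∧ ∀ δ, q ∈ V δ := by
  classical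
  set f : W →ₗ[K] (∀ δ, W ⧸ V δ) := LinearMap.pi fun δ => (V δ).mkQ with hf
  have h1 : Module.finrank K (∀ δ, W ⧸ V δ) < Module.finrank K W := by
    rw [Module.finrank_pi_fintype]
    refine lt_of_le_of_lt (le_of_eq (Finset.sum_congr rfl fun δ _ => ?_)) h
    exact Submodule.finrank_quotient (V δ)
  have h2 := LinearMap.ker_ne_bot_of_finrank_lt (f := f) h1
  obtain ⟨q, hq, hq0⟩ := Submodule.exists_mem_ne_zero_of_ne_bot h2
  refine ⟨q, hq0, fun δ => ?_⟩
  have h3 : f q = 0 := hq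
  have h4 := congrFun h3 δ
  exact (Submodule.Quotient.mk_eq_zero _).1 h4

theorem aux {K : Type} [Field K] {n r D T : ℕ} (hD : 1 ≤ D) (hT : 1 ≤ T)
    (I : Ideal (MvPolynomial (Fin n) K)) {Δ : Type} [Fintype Δ]
    (y : Δ → Fin r → MvPolynomial (Fin n) K) (hy : ∀ δ k, (y δ k).IsHomogeneous D)
    (E : Δ → Finset (Fin n →₀ ℕ)) (hE : ∀ δ, Ind I (y δ) (E δ))
    (hcount : ∀ δ M, Module.finrank K (VM I M) ≤ (Sm D (E δ) r (M + T)).card)
    (hpos : ∀ k, 1 ≤ Module.finrank K (VM I (k * T)))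
    (bad : ∀ (_ : Δ) (_ : ℕ), ((Fin r → ℕ) × (Fin n →₀ ℕ)) → Prop) (η : Δ → ℝ)
    (hη0 : ∀ δ, 0 ≤ η δ) (hη : ∑ δ, η δ < 1)
    [∀ δ M, DecidablePred (bad δ M)]
    (hbad : ∀ δ, ∃ M1 : ℕ, ∀ M, M1 ≤ M →
      (((Sm D (E δ) r M).filter fun s => bad δ M s).card : ℝ) ≤ η δ * (Sm D (E δ) r M).card) :
    ∃ (M : ℕ) (Q : MvPolynomial (Fin n) K), 1 ≤ M ∧ Q.IsHomogeneous M ∧ Q ∉ I ∧ ∀ δ,
      ∃ c : {s // s ∈ (Sm D (E δ) r M).filter fun s => ¬ bad δ M s} → K,
        Q - ∑ s, c s • ym (y δ) s.1 ∈ I := by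
  classical
  choose M1 hM1 using hbad
  set N : ℕ → ℕ := fun M => Module.finrank K (VM I M) with hN
  obtain ⟨d0, hd0⟩ : ∃ d0 : ℝ, d0 = (1 - ∑ δ, η δ) / (2 * (Fintype.card Δ + 1)) := ⟨_, rfl⟩
  have hcard : (0 : ℝ) ≤ Fintype.card Δ := Nat.cast_nonneg _
  have hsum0 : 0 ≤ ∑ δ, η δ := Finset.sum_nonneg fun δ _ => hη0 δ
  have hd00 : 0 < d0 := by rw [hd0]; exact div_pos (by linarith) (by positivity)
  have hd01 : d0 < 1 := by
    rw [hd0, div_lt_one (by positivity)]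
    linarith
  have hd02 : ∑ δ, η δ + Fintype.card Δ * d0 < 1 := by
    have h1 : Fintype.card Δ * d0 < 1 - ∑ δ, η δ := by
      rw [hd0, mul_div_assoc', div_lt_iff₀ (by positivity)]
      nlinarith
    linarith
  obtain ⟨k, hk, hgr⟩ := growth N n T (VM_le I) hpos d0 hd00 hd01 (∑ δ, M1 δ)
  set M : ℕ := (k + 1) * T with hM
  have hkM : k ≤ M := by
    rw [hM]
    calc k ≤ k + 1 := Nat.le_succ k
      _ ≤ (k + 1) * T := Nat.le_mul_of_pos_right _ hT
  have hMδ : ∀ δ, M1 δ ≤ M := fun δ =>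
    ((Finset.single_le_sum (f := M1) (fun _ _ => Nat.zero_le _) (Finset.mem_univ δ)).trans
      hk).trans hkM
  have hfin := VM_finite I M
  set G : ∀ δ, Finset ((Fin r → ℕ) × (Fin n →₀ ℕ)) := fun δ =>
    (Sm D (E δ) r M).filter fun s => ¬ bad δ M s with hG
  have hmem : ∀ δ, ∀ s : {s // s ∈ G δ}, Ideal.Quotient.mkₐ K I (ym (y δ) s.1) ∈ VM I M := by
    intro δ s
    have h1 := ym_hom (hy δ) s.1
    have h2 := (mem_Sm hD (E δ) M s.1).1 (Finset.mem_filter.1 s.2).1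
    rw [h2.2] at h1
    exact ⟨_, h1, rfl⟩
  set v : ∀ δ, {s // s ∈ G δ} → VM I M := fun δ s => ⟨_, hmem δ s⟩ with hv
  have hvi : ∀ δ, LinearIndependent K (v δ) := by
    intro δ
    refine LinearIndependent.of_comp (VM I M).subtype ?_
    have h1 : LinearIndependent K (fun s : {s : (Fin r → ℕ) × (Fin n →₀ ℕ) | s.2 ∈ E δ} =>
      Ideal.Quotient.mkₐ K I (ym (y δ) s.1)) := hE δ
    exact h1.comp (fun s : {s // s ∈ G δ} =>
      (⟨s.1, ((mem_Sm hD (E δ) M s.1).1 (Finset.mem_filter.1 s.2).1).1⟩ :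
        {s : (Fin r → ℕ) × (Fin n →₀ ℕ) | s.2 ∈ E δ})) (by
        intro s s' h
        exact Subtype.ext (congrArg (fun z => z.1) h))
  set V : ∀ _ : Δ, Submodule K (VM I M) := fun δ => Submodule.span K (Set.range (v δ)) with hV
  have hVr : ∀ δ, Module.finrank K (V δ) = (G δ).card := by
    intro δ
    rw [hV, finrank_span_eq_card (hvi δ), Fintype.card_coe]
  obtain ⟨NM, hNM⟩ : ∃ NM : ℝ, NM = (N M : ℝ) := ⟨_, rfl⟩
  have hNM1 : 1 ≤ NM := by rw [hNM]; exact_mod_cast hpos (k + 1)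
  have hcod : ∀ δ, ((Module.finrank K (VM I M) - Module.finrank K (V δ) : ℕ) : ℝ) ≤
      (η δ + d0) * NM := by
    intro δ
    have h1 : Module.finrank K (V δ) ≤ Module.finrank K (VM I M) := Submodule.finrank_le _
    rw [Nat.cast_sub h1, hVr]
    have h2 : ((G δ).card : ℝ) + ((Sm D (E δ) r M).filter fun s => bad δ M s).card =
        (Sm D (E δ) r M).card := by
      have h3 := Finset.card_filter_add_card_filter_not (s := Sm D (E δ) r M) (bad δ M)
      rw [hG]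
      exact_mod_cast (add_comm _ _).trans h3
    have h3 := hM1 δ M (hMδ δ)
    have h4 : (N (k * T) : ℝ) ≤ (Sm D (E δ) r M).card := by
      have h5 := hcount δ (k * T)
      have e1 : k * T + T = M := by rw [hM]; ring
      rw [e1] at h5
      exact_mod_cast h5
    have h5 : (1 - d0) * NM ≤ (Sm D (E δ) r M).card := by
      rw [hNM]
      exact hgr.trans h4
    have h6 : ((Module.finrank K (VM I M) : ℕ) : ℝ) = NM := hNM.symm
    have hη1 : η δ ≤ 1 := by
      have := Finset.single_le_sum (f := η) (fun δ _ => hη0 δ) (Finset.mem_univ δ)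
      linarith
    have h7 := mul_le_mul_of_nonneg_left h5 (sub_nonneg.2 hη1)
    have h8 : 0 ≤ η δ * d0 * NM := mul_nonneg (mul_nonneg (hη0 δ) hd00.le) (by linarith)
    rw [h6]
    nlinarith
  have hlt : ∑ δ, (Module.finrank K (VM I M) - Module.finrank K (V δ)) <
      Module.finrank K (VM I M) := by
    have h1 : ((∑ δ, (Module.finrank K (VM I M) - Module.finrank K (V δ)) : ℕ) : ℝ) < NM := by
      push_cast
      refine lt_of_le_of_lt (Finset.sum_le_sum fun δ _ => hcod δ) ?_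
      rw [← Finset.sum_mul, Finset.sum_add_distrib, Finset.sum_const, Finset.card_univ,
        nsmul_eq_mul]
      have := mul_lt_mul_of_pos_right hd02 (by linarith : 0 < NM)
      linarith
    rw [hNM] at h1
    exact_mod_cast h1
  obtain ⟨q, hq0, hq⟩ := common V hlt
  obtain ⟨Q, hQh, hQ⟩ := q.2
  have hM1 : 1 ≤ M := Nat.one_le_iff_ne_zero.2 (Nat.mul_ne_zero (by omega) (by omega))
  refine ⟨M, Q, hM1, hQh, ?_, fun δ => ?_⟩
  · intro hQI
    apply hq0
    apply Subtype.ext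
    rw [← hQ]
    exact Ideal.Quotient.eq_zero_iff_mem.2 hQI
  · obtain ⟨c, hc⟩ := (Submodule.mem_span_range_iff_exists_fun K).1 (hq δ)
    refine ⟨c, ?_⟩
    rw [← Ideal.Quotient.eq_zero_iff_mem, ← Ideal.Quotient.mkₐ_eq_mk K, map_sub, map_sum]
    have h1 : Ideal.Quotient.mkₐ K I Q = (q : MvPolynomial (Fin n) K ⧸ I) := hQ
    rw [h1, ← hc, sub_eq_zero]
    have h2 := congrArg (VM I M).subtype (rfl : ∑ i, c i • v δ i = ∑ i, c i • v δ i)
    simp only [map_sum, map_smul] at h2 ⊢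
    rw [Submodule.coe_sum]
    exact Finset.sum_congr rfl fun s _ => rfl

end Pool.Agent.TH875
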