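import Pool.Agent.TH875.Mp5
import Pool.Agent.TH875.Cm7

set_option autoImplicit false

/-!
Local estimates for the auxiliary form.
-/

namespace Pool.Agent.TH875

open MvPolynomial Finset NumberField IsDedekindDomain Height
open Pool.Agent.W180.OP Pool.Agent.W180.TP

/-- the `ν + 1` largest members of a family, in decreasing order -/
theorem top_sorted {q r : ℕ} (hr : r ≤ q) (u : Fin q → ℝ) :
    ∃ e : Fin r ↪ Fin q, (Antitone fun k => u (e k)) ∧
      ∀ j, j ∉ Set.range e → ∀ k, u j ≤ u (e k) := by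
  classical
  set σ := Tuple.sort u with hσ
  have hm : Monotone (u ∘ σ) := Tuple.monotone_sort u
  refine ⟨⟨fun k => σ ⟨q - 1 - k, by omega⟩, fun k k' h => ?_⟩, fun k k' hkk => ?_,
    fun j hj k => ?_⟩
  · have h1 := σ.injective h
    have h2 := congrArg Fin.val h1
    simp only at h2
    exact Fin.ext (by omega)
  · refine hm (Fin.le_def.2 ?_)
    have := Fin.le_def.1 hkk
    show q - 1 - (k' : ℕ) ≤ q - 1 - (k : ℕ)
    omega
  · obtain ⟨i, rfl⟩ := σ.surjective j
    have hi : (i : ℕ) < q - r := by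
      by_contra hcon
      push Not at hcon
      apply hj
      refine ⟨⟨q - 1 - i, by omega⟩, ?_⟩
      show σ _ = σ i
      congr 1
      exact Fin.ext (by simp; omega)
    exact hm (Fin.le_def.2 (by simp; omega))

section loc

variable {K L : Type} [Field K] [Field L] [Algebra K L] (f : AbsoluteValue L ℝ) {n r : ℕ}

lemma rho_ym_le {d : ℕ} (y : Fin r → MvPolynomial (Fin n) K) {x : Fin n → L} (hx : x ≠ 0)
    (s : (Fin r → ℕ) × (Fin n →₀ ℕ)) :
    rho f (dg d s) (ym y s) x ≤ ∏ k, rho f d (y k) x ^ s.1 k := by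
  classical
  have h1 : rho f (dg d s) (ym y s) x = (∏ k, rho f d (y k) x ^ s.1 k) *
      rho f s.2.degree (monomial s.2 1 : MvPolynomial (Fin n) K) x := by
    unfold rho ym dg
    rw [map_mul, map_mul, map_prod, map_prod, pow_add, mul_div_mul_comm]
    congr 1
    simp only [div_pow]
    rw [Finset.prod_div_distrib]
    congr 1
    · exact Finset.prod_congr rfl fun k _ => by rw [map_pow, map_pow]
    · rw [pow_mul, ← Finset.prod_pow_eq_pow_sum]
  rw [h1]
  exact mul_le_of_le_one_right (Finset.prod_nonneg fun k _ => pow_nonneg (rho_nonneg _ _ _ _) _)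
    (rho_mono_le (K := K) f hx s.2)

end loc

variable {K : Type} [Field K] [NumberField K]

/-- a combination of monomials in the `y` is as small as one of the monomials -/
theorem loc_Q {n m r D M : ℕ} (I : Ideal (MvPolynomial (Fin n) K))
    (G : Fin m → MvPolynomial (Fin n) K) (hI : I = Ideal.span (Set.range G))
    (y : Fin r → MvPolynomial (Fin n) K)
    (S : Finset ((Fin r → ℕ) × (Fin n →₀ ℕ))) (hS : ∀ s ∈ S, dg D s = M)
    (Q : MvPolynomial (Fin n) K) (c : {s // s ∈ S} → K) (hQ : Q - ∑ s, c s • ym y s.1 ∈ I) :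
    ∃ C : ℝ, 0 ≤ C ∧ ∀ (L : Type) [Field L] [NumberField L] [Algebra K L] (p : Pl L)
      (x : Fin n → L), x ≠ 0 → (∀ k, aeval x (G k) = 0) → (∀ k, aeval x (y k) ≠ 0) →
        aeval x Q ≠ 0 → ∃ s ∈ S,
          wt p * ∑ k, (s.1 k : ℝ) * lam (av p) D (bc L (y k)) x ≤
            wt p * lam (av p) M (bc L Q) x + C * Module.finrank ℚ L := by
  classical
  obtain ⟨C, hC0, hC⟩ := comb_le (m := M) (fun s : {s // s ∈ S} => ym y s.1)
    (∑ s, c s • ym y s.1) c rfl
  refine ⟨C, hC0, fun L _ _ _ p x hx hGx hyx hQx => ?_⟩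
  obtain ⟨R, hR, h1⟩ := hC L p
  have hval : aeval x Q = aeval x (∑ s : {s // s ∈ S}, c s • ym y s.1) := by
    have h2 := aeval_ideal hGx (hI.le hQ)
    rw [map_sub, sub_eq_zero] at h2
    exact h2
  have hne : S.Nonempty := by
    by_contra hcon
    rw [Finset.not_nonempty_iff_eq_empty] at hcon
    apply hQx
    rw [hval]
    subst hcon
    simp
  obtain ⟨s, hs, hmax⟩ := Finset.exists_max_image S
    (fun s => ∏ k, rho (av p) D (y k) x ^ s.1 k) hne
  refine ⟨s, hs, ?_⟩
  have hpos : ∀ k, 0 < rho (av p) D (y k) x := fun k => rho_pos (av p) D _ hx (hyx k)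
  have h2 := h1 x (∏ k, rho (av p) D (y k) x ^ s.1 k) hx
    (Finset.prod_nonneg fun k _ => pow_nonneg (hpos k).le _) fun s' _ => by
      have h3 := rho_ym_le (av p) (d := D) y hx s'.1
      rw [hS s'.1 s'.2] at h3
      exact h3.trans (hmax s'.1 s'.2)
  have h3 : rho (av p) M Q x ≤ R * ∏ k, rho (av p) D (y k) x ^ s.1 k := by
    unfold rho at h2 ⊢
    rw [hval]
    exact h2
  have h4 := rho_pos (av p) M Q hx hQx
  have hR0 : 0 < R := by linarith [hR.1]
  have hprod : 0 < ∏ k, rho (av p) D (y k) x ^ s.1 k :=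
    Finset.prod_pos fun k _ => pow_pos (hpos k) _
  have h5 := Real.log_le_log h4 h3
  rw [Real.log_mul hR0.ne' hprod.ne', Real.log_prod fun k _ => (pow_pos (hpos k) _).ne'] at h5
  have h6 : ∑ k, (s.1 k : ℝ) * lam (av p) D (bc L (y k)) x =
      - ∑ k, Real.log (rho (av p) D (y k) x ^ s.1 k) := by
    rw [← Finset.sum_neg_distrib]
    refine Finset.sum_congr rfl fun k _ => ?_
    rw [lam_rho, Real.log_pow]
    ring
  have h7 := mul_le_mul_of_nonneg_left h5 (wt_nonneg p)
  have h8 := hR.2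
  rw [h6, lam_rho]
  linarith

/-- local heights of powers -/
lemma lam_pow_div {n q D : ℕ} (F : Fin q → MvPolynomial (Fin n) K) (d : Fin q → ℕ)
    (hd : ∀ i, 1 ≤ d i) (hdD : ∀ i, d i ∣ D) {L : Type} [Field L] [NumberField L] [Algebra K L]
    (p : Pl L) (x : Fin n → L) (j : Fin q) :
    lam (av p) D (bc L (F j ^ (D / d j))) x =
      D * (lam (av p) (d j) (bc L (F j)) x / d j) := by
  have hdk : (d j : ℝ) ≠ 0 := by
    have : (1 : ℝ) ≤ d j := by exact_mod_cast hd j
    linarith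
  have e1 : (D : ℝ) = d j * ((D / d j : ℕ) : ℝ) := by
    exact_mod_cast (Nat.mul_div_cancel' (hdD j)).symm
  have e2 : rho (av p) D (F j ^ (D / d j)) x = rho (av p) (d j) (F j) x ^ (D / d j) := by
    have h1 := rho_pow (K := K) (av p) (d j) (D / d j) (F j) x
    rw [Nat.mul_div_cancel' (hdD j)] at h1
    exact h1
  rw [lam_rho, e2, Real.log_pow, lam_rho]
  conv_rhs => rw [e1]
  field_simp

/-- the sum of the local heights is, up to a constant, the sum of the `ν` largest ones -/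
theorem sum_top {n m q ν D : ℕ} (hD : 1 ≤ D) (G : Fin m → MvPolynomial (Fin n) K) (g : Fin m → ℕ)
    (hG : ∀ k, (G k).IsHomogeneous (g k))
    (F : Fin q → MvPolynomial (Fin n) K) (d : Fin q → ℕ) (hd : ∀ i, 1 ≤ d i)
    (hF : ∀ i, (F i).IsHomogeneous (d i)) (hdD : ∀ i, d i ∣ D)
    (hgp : ∀ e : Fin (ν + 1) ↪ Fin q, ∀ (L : Type) [Field L] [Algebra K L] (x : Fin n → L),
      (∀ k, aeval x (G k) = 0) → (∀ k, aeval x (F (e k)) = 0) → x = 0) :
    ∃ C : ℝ, 0 ≤ C ∧ ∀ (L : Type) [Field L] [NumberField L] [Algebra K L] (p : Pl L)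
      (x : Fin n → L), x ≠ 0 → (∀ k, aeval x (G k) = 0) → (∀ i, aeval x (F i) ≠ 0) →
        ∀ e : Fin (ν + 1) ↪ Fin q,
        (Antitone fun k => lam (av p) (d (e k)) (bc L (F (e k))) x / d (e k)) →
        (∀ j, j ∉ Set.range e → ∀ k, lam (av p) (d j) (bc L (F j)) x / d j ≤
          lam (av p) (d (e k)) (bc L (F (e k))) x / d (e k)) →
        wt p * ∑ i, lam (av p) (d i) (bc L (F i)) x / d i ≤
          ∑ i : Fin ν, wt p * max 0 (lam (av p) (d (e i.castSucc)) (bc L (F (e i.castSucc))) x /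
            d (e i.castSucc)) + C * Module.finrank ℚ L := by
  classical
  have hyh : ∀ (e : Fin (ν + 1) ↪ Fin q) k, (F (e k) ^ (D / d (e k))).IsHomogeneous D := by
    intro e k
    have := (hF (e k)).pow (D / d (e k))
    rwa [Nat.mul_div_cancel' (hdD (e k))] at this
  have h0y : ∀ e : Fin (ν + 1) ↪ Fin q, ∀ (L : Type) [Field L] [Algebra K L] (x : Fin n → L),
      (∀ k, aeval x (G k) = 0) → (∀ k, aeval x (F (e k) ^ (D / d (e k))) = 0) → x = 0 := by
    intro e L _ _ x hx hxy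
    refine hgp e L x hx fun k => ?_
    have h1 := hxy k
    rw [map_pow] at h1
    exact eq_zero_of_pow_eq_zero h1
  choose Ca hCa0 hCa using fun e : Fin (ν + 1) ↪ Fin q =>
    not_all (Nat.succ_pos ν) G g hG (fun k => F (e k) ^ (D / d (e k))) (hyh e) (h0y e)
  obtain ⟨Cs, hCs⟩ : ∃ Cs : ℝ, Cs = ∑ e, Ca e := ⟨_, rfl⟩
  have hCs0 : 0 ≤ Cs := by rw [hCs]; exact Finset.sum_nonneg fun e _ => hCa0 e
  refine ⟨q * Cs, by positivity, fun L _ _ _ p x hx hGx hFx e hanti htop => ?_⟩
  set u : Fin q → ℝ := fun i => lam (av p) (d i) (bc L (F i)) x / d i with hu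
  obtain ⟨Nq, hNq⟩ : ∃ Nq : ℝ, Nq = (Module.finrank ℚ L : ℝ) := ⟨_, rfl⟩
  have hNq0 : 0 ≤ Nq := by rw [hNq]; exact Nat.cast_nonneg _
  rw [← hNq]
  have hwt := wt_nonneg p
  have hD1 : (1 : ℝ) ≤ D := by exact_mod_cast hD
  obtain ⟨k1, hk1⟩ := hCa e L p x hx hGx (fun k => by
    rw [map_pow]
    exact pow_ne_zero _ (hFx _))
  rw [lam_pow_div F d hd hdD, ← hNq] at hk1
  have hCe : Ca e ≤ Cs := by
    rw [hCs]
    exact Finset.single_le_sum (f := Ca) (fun e _ => hCa0 e) (Finset.mem_univ e)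
  have hCN : 0 ≤ Ca e * Nq := mul_nonneg (hCa0 e) hNq0
  have huk1 : wt p * u (e k1) ≤ Cs * Nq := by
    have h2 : wt p * u (e k1) ≤ Ca e * Nq := by
      rcases le_total (wt p * u (e k1)) 0 with h | h
      · linarith
      · have h3 : wt p * u (e k1) ≤ D * (wt p * u (e k1)) := le_mul_of_one_le_left h hD1
        simp only [hu] at h3 ⊢
        linarith
    exact h2.trans (mul_le_mul_of_nonneg_right hCe hNq0)
  have hlast : wt p * u (e (Fin.last ν)) ≤ Cs * Nq :=
    (mul_le_mul_of_nonneg_left (hanti (Fin.le_last k1)) hwt).trans huk1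
  have hrest : ∀ j, j ∉ Set.range e → wt p * u j ≤ Cs * Nq := fun j hj =>
    (mul_le_mul_of_nonneg_left (htop j hj (Fin.last ν)) hwt).trans hlast
  set A : Finset (Fin q) := Finset.univ.map ((Fin.castSuccEmb).trans e) with hA
  have e1 : ∑ i, wt p * u i = ∑ i ∈ A, wt p * u i +
      ∑ i ∈ Finset.univ.filter (fun i => i ∉ A), wt p * u i := by
    rw [← Finset.sum_filter_add_sum_filter_not Finset.univ (fun i => i ∈ A)]
    congr 1
    refine Finset.sum_congr ?_ fun _ _ => rfl
    ext i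
    simp
  have h1 : ∑ i ∈ A, wt p * u i ≤ ∑ i : Fin ν, wt p * max 0 (u (e i.castSucc)) := by
    rw [hA, Finset.sum_map]
    exact Finset.sum_le_sum fun i _ => mul_le_mul_of_nonneg_left (le_max_right _ _) hwt
  have h2 : ∑ i ∈ Finset.univ.filter (fun i => i ∉ A), wt p * u i ≤ q * Cs * Nq := by
    have h3 : ∀ i ∈ Finset.univ.filter (fun i => i ∉ A), wt p * u i ≤ Cs * Nq := by
      intro i hi
      rw [Finset.mem_filter] at hi
      by_cases hr : i ∈ Set.range e
      · obtain ⟨k, rfl⟩ := hr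
        rcases Fin.eq_castSucc_or_eq_last k with ⟨k', rfl⟩ | rfl
        · exfalso
          apply hi.2
          rw [hA, Finset.mem_map]
          exact ⟨k', Finset.mem_univ _, rfl⟩
        · exact hlast
      · exact hrest i hr
    refine (Finset.sum_le_sum h3).trans ?_
    rw [Finset.sum_const, nsmul_eq_mul, mul_assoc]
    refine mul_le_mul_of_nonneg_right ?_ (by positivity)
    have h4 := Finset.card_le_univ (Finset.univ.filter fun i : Fin q => i ∉ A)
    rw [Fintype.card_fin] at h4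
    exact_mod_cast h4
  rw [Finset.mul_sum]
  show ∑ i, wt p * u i ≤ _
  rw [e1]
  exact add_le_add h1 h2

end Pool.Agent.TH875
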