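import Pool.Agent.TH875.Mp6

set_option autoImplicit false

/-!
One configuration of local heights.
-/

namespace Pool.Agent.TH875

open MvPolynomial Finset NumberField IsDedekindDomain Height
open Pool.Agent.W180.OP Pool.Agent.W180.TP

/-- the data attached to a place: the divisors with the largest local heights and the
approximate sizes of the local heights -/
abbrev Dat (k q M0 : ℕ) : Type := (Fin (k + 3) ↪ Fin q) × (Fin (k + 2) → Fin (M0 + 1))

/-- the approximate size -/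
noncomputable def dw {k q M0 : ℕ} (δ : Dat k q M0) (i : Fin (k + 2)) : ℝ :=
  ((δ.2 i : ℕ) : ℝ) / M0

/-- the excess -/
noncomputable def exc {k q M0 : ℕ} (δ : Dat k q M0) : ℝ := max 0 (∑ i, dw δ i - 1)

lemma exc_nonneg {k q M0 : ℕ} (δ : Dat k q M0) : 0 ≤ exc δ := le_max_left _ _

lemma dw_nonneg {k q M0 : ℕ} (δ : Dat k q M0) (i : Fin (k + 2)) : 0 ≤ dw δ i := by
  unfold dw
  positivity

lemma dw_le {k q M0 : ℕ} (hM0 : 1 ≤ M0) (δ : Dat k q M0) (i : Fin (k + 2)) : dw δ i ≤ 1 := by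
  unfold dw
  have h1 : (0 : ℝ) < M0 := by exact_mod_cast hM0
  rw [div_le_one h1]
  exact_mod_cast (by have := (δ.2 i).2; omega : (δ.2 i : ℕ) ≤ M0)

/-- the numbers -/
lemma choose_num {N ε E : ℝ} (hN : 1 ≤ N) (hε : 0 < ε) (hE : N + ε < E) :
    ∃ a b θ : ℝ, 1 < a ∧ a < b ∧ N * b ^ 2 / E < θ ∧ θ < 1 ∧ N * b ≤ E := by
  obtain ⟨d, hd⟩ : ∃ d, d = min 1 (ε / (6 * N)) := ⟨_, rfl⟩
  have hN0 : 0 < N := by linarith
  have hd0 : 0 < d := by rw [hd]; exact lt_min one_pos (by positivity)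
  have hd1 : d ≤ 1 := by rw [hd]; exact min_le_left _ _
  have hd2 : 6 * N * d ≤ ε := by
    have : d ≤ ε / (6 * N) := by rw [hd]; exact min_le_right _ _
    rw [le_div_iff₀ (by positivity)] at this
    linarith
  have hE0 : 0 < E := by linarith
  have h1 : N * (1 + d) ^ 2 < E := by
    have : N * (1 + d) ^ 2 ≤ N * (1 + 3 * d) := mul_le_mul_of_nonneg_left (by nlinarith) hN0.le
    nlinarith
  have h2 : N * (1 + d) ^ 2 / E < 1 := (div_lt_one hE0).2 h1
  refine ⟨1 + d / 2, 1 + d, (N * (1 + d) ^ 2 / E + 1) / 2, by linarith, by linarith, by linarith,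
    by linarith, ?_⟩
  have : N * (1 + d) ≤ N * (1 + d) ^ 2 := mul_le_mul_of_nonneg_left (by nlinarith) hN0.le
  linarith

variable {K : Type} [Field K] [NumberField K]

/-- the value of a monomial at a place -/
lemma place_low {n q k D M : ℕ} (hD : 1 ≤ D)
    (F : Fin q → MvPolynomial (Fin n) K) (d : Fin q → ℕ) (hd : ∀ i, 1 ≤ d i)
    (hdD : ∀ i, d i ∣ D) (e : Fin (k + 3) ↪ Fin q) (w : Fin (k + 2) → ℝ)
    (s : (Fin (k + 3) → ℕ) × (Fin n →₀ ℕ)) (hdg : dg D s = M)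
    {L : Type} [Field L] [NumberField L] [Algebra K L] (p : Pl L) (x : Fin n → L)
    (H B th : ℝ) (hH0 : 0 ≤ H) (hB : 0 ≤ B)
    (hul : ∀ i, -B ≤ wt p * (lam (av p) (d i) (bc L (F i)) x / d i))
    (hlow : ∀ i : Fin (k + 2), w i * H ≤ wt p * max 0 (lam (av p) (d (e i.castSucc))
      (bc L (F (e i.castSucc))) x / d (e i.castSucc)))
    (hnb : th * M ≤ D * ∑ i : Fin (k + 2), w i * (s.1 i.castSucc : ℝ)) :
    th * M * H - M * B ≤
      wt p * ∑ j, (s.1 j : ℝ) * lam (av p) D (bc L (F (e j) ^ (D / d (e j)))) x := by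
  set u : Fin q → ℝ := fun i => lam (av p) (d i) (bc L (F i)) x / d i with hu
  have hui : ∀ i : Fin (k + 2), w i * H - B ≤ wt p * u (e i.castSucc) := by
    intro i
    have h1 := hlow i
    have h2 := hul (e i.castSucc)
    rcases le_total 0 (u (e i.castSucc)) with h | h
    · have h3 : wt p * max 0 (u (e i.castSucc)) = wt p * u (e i.castSucc) := by
        rw [max_eq_right h]
      have h4 : w i * H ≤ wt p * max 0 (u (e i.castSucc)) := h1
      linarith
    · have h3 : wt p * max 0 (u (e i.castSucc)) = 0 := by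
        rw [max_eq_left h, mul_zero]
      have h4 : w i * H ≤ wt p * max 0 (u (e i.castSucc)) := h1
      have h5 : -B ≤ wt p * u (e i.castSucc) := h2
      linarith
  have hlam : wt p * ∑ j, (s.1 j : ℝ) * lam (av p) D (bc L (F (e j) ^ (D / d (e j)))) x =
      D * (∑ i : Fin (k + 2), (s.1 i.castSucc : ℝ) * (wt p * u (e i.castSucc)) +
        (s.1 (Fin.last (k + 2)) : ℝ) * (wt p * u (e (Fin.last (k + 2))))) := by
    rw [Fin.sum_univ_castSucc, mul_add, mul_add, Finset.mul_sum, Finset.mul_sum]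
    congr 1
    · refine Finset.sum_congr rfl fun i _ => ?_
      rw [lam_pow_div F d hd hdD]
      simp only [hu]
      ring
    · rw [lam_pow_div F d hd hdD]
      simp only [hu]
      ring
  have h1 : ∑ i : Fin (k + 2), (s.1 i.castSucc : ℝ) * (w i * H - B) ≤
      ∑ i : Fin (k + 2), (s.1 i.castSucc : ℝ) * (wt p * u (e i.castSucc)) :=
    Finset.sum_le_sum fun i _ => mul_le_mul_of_nonneg_left (hui i) (Nat.cast_nonneg _)
  have h2 : (s.1 (Fin.last (k + 2)) : ℝ) * (-B) ≤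
      (s.1 (Fin.last (k + 2)) : ℝ) * (wt p * u (e (Fin.last (k + 2)))) :=
    mul_le_mul_of_nonneg_left (hul _) (Nat.cast_nonneg _)
  have e1 : ∑ i : Fin (k + 2), (s.1 i.castSucc : ℝ) * (w i * H - B) =
      H * ∑ i : Fin (k + 2), w i * (s.1 i.castSucc : ℝ) -
        (∑ i : Fin (k + 2), (s.1 i.castSucc : ℝ)) * B := by
    rw [Finset.mul_sum, Finset.sum_mul, ← Finset.sum_sub_distrib]
    exact Finset.sum_congr rfl fun i _ => by ring
  rw [e1] at h1
  rw [hlam]
  obtain ⟨S1, hS1⟩ : ∃ S1 : ℝ, S1 = ∑ i : Fin (k + 2), (s.1 i.castSucc : ℝ) := ⟨_, rfl⟩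
  obtain ⟨S2, hS2⟩ : ∃ S2 : ℝ, S2 = (s.1 (Fin.last (k + 2)) : ℝ) := ⟨_, rfl⟩
  obtain ⟨A, hA⟩ : ∃ A : ℝ, A = ∑ i : Fin (k + 2), w i * (s.1 i.castSucc : ℝ) := ⟨_, rfl⟩
  have h3 : (D : ℝ) * (S1 + S2) ≤ M := by
    have h4 : D * (∑ i : Fin (k + 2), s.1 i.castSucc + s.1 (Fin.last (k + 2))) ≤ M := by
      rw [← Fin.sum_univ_castSucc, ← hdg]
      exact Nat.le_add_right _ _
    rw [hS1, hS2]
    exact_mod_cast h4
  rw [← hA] at h1 hnb
  rw [← hS1] at h1
  rw [← hS2] at h2 ⊢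
  have h4 := mul_le_mul_of_nonneg_left (add_le_add h1 h2) (by positivity : (0 : ℝ) ≤ D)
  have h5 := mul_le_mul_of_nonneg_right h3 hB
  have h6 := mul_le_mul_of_nonneg_left hnb hH0
  refine le_trans ?_ h4
  have e2 : (D : ℝ) * (H * A - S1 * B + S2 * -B) = H * (D * A) - D * (S1 + S2) * B := by ring
  rw [e2]
  linarith

/-- the number of bad monomials -/
lemma bad_count {n k D : ℕ} (hD : 1 ≤ D) (E : Finset (Fin n →₀ ℕ)) {N Et a b θ : ℝ}
    (hN : N = ((k : ℝ) + 1) * (k + 2) / 2) (hEt0 : 0 < Et) (ha0 : 0 < a)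
    (hab : a < b) (hbθ : N * b ^ 2 / Et < θ) (hNb : N * b ≤ Et) {q M0 : ℕ} (hM0 : 1 ≤ M0)
    (δ : Dat k q M0) (hanti : Antitone (dw δ)) (h : 0 < exc δ) :
    ∃ M1 : ℕ, ∀ M, M1 ≤ M →
      (((Sm D E (k + 3) M).filter fun s => D * ∑ i : Fin (k + 2),
        dw δ i * (s.1 i.castSucc : ℝ) < (a / Et * exc δ) * M).card : ℝ) ≤
          θ * exc δ / Et * (Sm D E (k + 3) M).card := by
  have hX : ∑ i, dw δ i - 1 = exc δ := by
    unfold exc at h ⊢
    rcases lt_max_iff.1 h with h1 | h1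
    · exact absurd h1 (lt_irrefl _)
    · rw [max_eq_right h1.le]
  have hb0 : 0 < b := by linarith
  refine sm_count (k := k) hD E (dw δ) hanti (dw_nonneg δ)
    (dw_le hM0 δ 0) (exc δ) (b / Et * exc δ) (a / Et * exc δ) (θ * exc δ / Et)
    (by linarith) (by positivity) ?_ ?_ (by positivity) ?_
  · rw [← hN]
    have h2 : N * (b / Et) ≤ 1 := by
      rw [mul_div_assoc', div_le_one hEt0]
      exact hNb
    have h3 := mul_le_mul_of_nonneg_right h2 h.le
    linarith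
  · rw [← hN]
    have e1 : N * (b / Et * exc δ) ^ 2 / exc δ = (N * b ^ 2 / Et) * (exc δ / Et) := by
      field_simp
    rw [e1]
    have h3 := mul_lt_mul_of_pos_right hbθ (div_pos h hEt0)
    refine lt_of_lt_of_le h3 (le_of_eq ?_)
    ring
  · refine mul_lt_mul_of_pos_right ?_ h
    exact div_lt_div_of_pos_right hab hEt0

/-- the module data of all choices of divisors -/
lemma setup {n m q k : ℕ} (hrq : k + 3 ≤ q) (G : Fin m → MvPolynomial (Fin n) K)
    (g : Fin m → ℕ) (hG : ∀ k, (G k).IsHomogeneous (g k))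
    (hprime : (Ideal.span (Set.range G)).IsPrime)
    (htr : Algebra.trdeg K (MvPolynomial (Fin n) K ⧸ Ideal.span (Set.range G)) = (k + 3 : ℕ))
    (F : Fin q → MvPolynomial (Fin n) K) (d : Fin q → ℕ)
    (hF : ∀ i, (F i).IsHomogeneous (d i))
    (hgp : ∀ e : Fin (k + 3) ↪ Fin q, ∀ (L : Type) [Field L] [Algebra K L] (x : Fin n → L),
      (∀ k, aeval x (G k) = 0) → (∀ k, aeval x (F (e k)) = 0) → x = 0)
    (D : ℕ) (hD : 1 ≤ D) (hdD : ∀ i, d i ∣ D) :
    ∃ (E : (Fin (k + 3) ↪ Fin q) → Finset (Fin n →₀ ℕ)) (T : ℕ), 1 ≤ T ∧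
      (∀ e, Ind (Ideal.span (Set.range G)) (fun j => F (e j) ^ (D / d (e j))) (E e)) ∧
      (∀ e M, Module.finrank K (VM (Ideal.span (Set.range G)) M) ≤
        (Sm D (E e) (k + 3) (M + T)).card) ∧
      ∀ j, 1 ≤ Module.finrank K (VM (Ideal.span (Set.range G)) (j * T)) := by
  classical
  set y : (Fin (k + 3) ↪ Fin q) → Fin (k + 3) → MvPolynomial (Fin n) K := fun e k =>
    F (e k) ^ (D / d (e k)) with hy
  have hyh : ∀ e k, (y e k).IsHomogeneous D := by
    intro e k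
    have := (hF (e k)).pow (D / d (e k))
    rwa [Nat.mul_div_cancel' (hdD (e k))] at this
  have h0y : ∀ e, ∀ (L : Type) [Field L] [Algebra K L] (x : Fin n → L),
      (∀ k, aeval x (G k) = 0) → (∀ k, aeval x (y e k) = 0) → x = 0 := by
    intro e L _ _ x hx hxy
    refine hgp e L x hx fun k => ?_
    have h1 := hxy k
    simp only [hy, map_pow] at h1
    exact eq_zero_of_pow_eq_zero h1
  have halg : ∀ e, AlgebraicIndependent K
      (fun k => Ideal.Quotient.mkₐ K (Ideal.span (Set.range G)) (y e k)) :=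
    fun e => alg_ind G g hG D hD (y e) (hyh e) (h0y e) hprime htr
  have hr : 0 < k + 3 := by omega
  have hmod : ∀ e, ∃ (E : Finset (Fin n →₀ ℕ)) (t0 : ℕ),
      Ind (Ideal.span (Set.range G)) (y e) E ∧ ∀ t, t0 ≤ t →
      ∀ M, Module.finrank K (VM (Ideal.span (Set.range G)) M) ≤
        (Sm D E (k + 3) (M + D * t)).card :=
    fun e => module_main G g hG D hD (y e) (hyh e) ⟨0, hr⟩ (h0y e) hprime (halg e)
  choose E t0 hE hcount using hmod
  obtain ⟨t, ht⟩ : ∃ t : ℕ, t = 1 + ∑ e, t0 e := ⟨_, rfl⟩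
  have htle : ∀ e, t0 e ≤ t := fun e => by
    have := Finset.single_le_sum (f := t0) (fun _ _ => Nat.zero_le _) (Finset.mem_univ e)
    omega
  refine ⟨E, D * t, Nat.one_le_iff_ne_zero.2 (Nat.mul_ne_zero (by omega) (by omega)), hE,
    fun e M => hcount e t (htle e) M, ?_⟩
  intro j
  set e0 : Fin (k + 3) ↪ Fin q := Fin.castLEEmb hrq with he0
  set a := Ideal.Quotient.mkₐ K (Ideal.span (Set.range G)) (y e0 ⟨0, hr⟩) with ha
  have ha0 : a ≠ 0 := (halg e0).ne_zero ⟨0, hr⟩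
  have hmem : a ^ (j * t) ∈ VM (Ideal.span (Set.range G)) (j * (D * t)) := by
    refine ⟨y e0 ⟨0, hr⟩ ^ (j * t), ?_, ?_⟩
    · have h1 := (hyh e0 ⟨0, hr⟩).pow (j * t)
      have e1 : D * (j * t) = j * (D * t) := by ring
      rw [e1] at h1
      exact h1
    · show Ideal.Quotient.mkₐ K (Ideal.span (Set.range G)) (y e0 ⟨0, hr⟩ ^ (j * t)) = _
      rw [map_pow]
  have hfin := VM_finite (Ideal.span (Set.range G)) (j * (D * t))
  rw [Nat.one_le_iff_ne_zero]
  intro h0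
  rw [Submodule.finrank_eq_zero] at h0
  rw [h0] at hmem
  exact pow_ne_zero _ ha0 ((Submodule.mem_bot K).1 hmem)

end Pool.Agent.TH875
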