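import Pool.Agent.TH875.Mp7

set_option autoImplicit false

/-!
The auxiliary form of one configuration of local heights.
-/

namespace Pool.Agent.TH875

open MvPolynomial Finset NumberField IsDedekindDomain Height
open Pool.Agent.W180.OP Pool.Agent.W180.TP

variable {K : Type} [Field K] [NumberField K]

theorem aux_conf {n m q k : ℕ} (hrq : k + 3 ≤ q) (G : Fin m → MvPolynomial (Fin n) K)
    (g : Fin m → ℕ) (hG : ∀ k, (G k).IsHomogeneous (g k))
    (hprime : (Ideal.span (Set.range G)).IsPrime)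
    (htr : Algebra.trdeg K (MvPolynomial (Fin n) K ⧸ Ideal.span (Set.range G)) = (k + 3 : ℕ))
    (F : Fin q → MvPolynomial (Fin n) K) (d : Fin q → ℕ)
    (hF : ∀ i, (F i).IsHomogeneous (d i))
    (hgp : ∀ e : Fin (k + 3) ↪ Fin q, ∀ (L : Type) [Field L] [Algebra K L] (x : Fin n → L),
      (∀ k, aeval x (G k) = 0) → (∀ k, aeval x (F (e k)) = 0) → x = 0)
    (D : ℕ) (hD : 1 ≤ D) (hdD : ∀ i, d i ∣ D)
    (M0 : ℕ) (hM0 : 1 ≤ M0) (ε : ℝ) (hε : 0 < ε) (c : Dat k q M0 → ℕ)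
    (hanti : ∀ δ, 0 < c δ → Antitone (dw δ))
    (hEtot : ((k : ℝ) + 1) * (k + 2) / 2 + ε < ∑ δ, c δ * exc δ) :
    ∃ (a : ℝ) (M : ℕ) (Q : MvPolynomial (Fin n) K), 1 < a ∧ 1 ≤ M ∧ Q.IsHomogeneous M ∧
      Q ∉ Ideal.span (Set.range G) ∧ ∀ δ, 0 < c δ → 0 < exc δ →
        ∃ (S : Finset ((Fin (k + 3) → ℕ) × (Fin n →₀ ℕ))),
          (∀ s ∈ S, dg D s = M ∧ (a / (∑ δ, c δ * exc δ) * exc δ) * M ≤
            D * ∑ i : Fin (k + 2), dw δ i * (s.1 i.castSucc : ℝ)) ∧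
          ∃ cc : {s // s ∈ S} → K,
            Q - ∑ s, cc s • ym (fun j => F (δ.1 j) ^ (D / d (δ.1 j))) s.1 ∈
              Ideal.span (Set.range G) := by
  classical
  have hk0 : (0 : ℝ) ≤ k := Nat.cast_nonneg k
  obtain ⟨N, hN⟩ : ∃ N : ℝ, N = ((k : ℝ) + 1) * (k + 2) / 2 := ⟨_, rfl⟩
  have hN1 : 1 ≤ N := by rw [hN]; nlinarith
  rw [← hN] at hEtot
  obtain ⟨Et, hEt⟩ : ∃ Et : ℝ, Et = ∑ δ, c δ * exc δ := ⟨_, rfl⟩
  rw [← hEt] at hEtot ⊢
  have hEt0 : 0 < Et := by linarith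
  obtain ⟨a, b, θ, ha1, hab, hbθ, hθ1, hNb⟩ := choose_num hN1 hε hEtot
  have hθ0 : 0 < θ := lt_of_le_of_lt (by positivity) hbθ
  have ha0 : 0 < a := by linarith
  obtain ⟨E, T, hT, hE, hcount, hpos⟩ := setup hrq G g hG hprime htr F d hF hgp D hD hdD
  have hyh : ∀ (e : Fin (k + 3) ↪ Fin q) j, (F (e j) ^ (D / d (e j))).IsHomogeneous D := by
    intro e j
    have := (hF (e j)).pow (D / d (e j))
    rwa [Nat.mul_div_cancel' (hdD (e j))] at this
  obtain ⟨M, Q, hM1, hQh, hQI, hQrep⟩ := aux hD hT (Ideal.span (Set.range G))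
    (fun (δ : Dat k q M0) j => F (δ.1 j) ^ (D / d (δ.1 j)))
    (fun δ => hyh δ.1) (fun δ => E δ.1) (fun δ => hE δ.1)
    (fun δ M => hcount δ.1 M) hpos
    (fun δ M s => (0 < c δ ∧ 0 < exc δ) ∧
      D * ∑ i : Fin (k + 2), dw δ i * (s.1 i.castSucc : ℝ) < (a / Et * exc δ) * M)
    (fun δ => if 0 < c δ ∧ 0 < exc δ then θ * exc δ / Et else 0) (by
      intro δ
      split_ifs with h
      · have := exc_nonneg δ
        positivity
      · exact le_rfl) (by
      have h1 : ∀ δ, (if 0 < c δ ∧ 0 < exc δ then θ * exc δ / Et else 0) ≤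
          c δ * exc δ * (θ / Et) := by
        intro δ
        have h0 := exc_nonneg δ
        split_ifs with h
        · have h2 : (1 : ℝ) ≤ c δ := by exact_mod_cast h.1
          have h3 : 0 ≤ exc δ * (θ / Et) := by positivity
          have h4 := mul_le_mul_of_nonneg_right h2 h3
          calc θ * exc δ / Et = 1 * (exc δ * (θ / Et)) := by ring
            _ ≤ c δ * (exc δ * (θ / Et)) := h4
            _ = c δ * exc δ * (θ / Et) := by ring
        · positivity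
      refine lt_of_le_of_lt (Finset.sum_le_sum fun δ _ => h1 δ) ?_
      rw [← Finset.sum_mul, ← hEt]
      rw [mul_div_cancel₀ _ hEt0.ne']
      exact hθ1) (by
      intro δ
      by_cases h : 0 < c δ ∧ 0 < exc δ
      · obtain ⟨M1, hM1⟩ := bad_count hD (E δ.1) hN hEt0 ha0 hab hbθ hNb hM0 δ
          (hanti δ h.1) h.2
        refine ⟨M1, fun M hM => ?_⟩
        have h1 := hM1 M hM
        rw [if_pos h]
        refine le_trans (le_of_eq ?_) h1
        congr 2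
        refine Finset.filter_congr fun s _ => ?_
        exact ⟨fun h2 => h2.2, fun h2 => ⟨h, h2⟩⟩
      · refine ⟨0, fun M _ => ?_⟩
        rw [if_neg h]
        rw [Finset.filter_eq_empty_iff.2 fun s _ h1 => h h1.1, Finset.card_empty, Nat.cast_zero,
          zero_mul])
  refine ⟨a, M, Q, ha1, hM1, hQh, hQI, fun δ h1 h2 => ?_⟩
  obtain ⟨cc, hcc⟩ := hQrep δ
  refine ⟨_, fun s hs => ?_, cc, hcc⟩
  rw [Finset.mem_filter] at hs
  refine ⟨((mem_Sm hD (E δ.1) M s).1 hs.1).2, ?_⟩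
  by_contra hcon
  push Not at hcon
  exact hs.2 ⟨⟨h1, h2⟩, hcon⟩

end Pool.Agent.TH875
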