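import Pool.Agent.TH875.Mp8

set_option autoImplicit false

/-!
One configuration of local heights: the conclusion.
-/

namespace Pool.Agent.TH875

open MvPolynomial Finset NumberField IsDedekindDomain Height
open Pool.Agent.W180.OP Pool.Agent.W180.TP

variable {K : Type} [Field K] [NumberField K]

/-- lower bounds for normalised local heights -/
lemma low_all {n q : ℕ} (F : Fin q → MvPolynomial (Fin n) K) (d : Fin q → ℕ) (hd : ∀ i, 1 ≤ d i)
    (hF : ∀ i, (F i).IsHomogeneous (d i)) :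
    ∃ C : ℝ, 0 ≤ C ∧ ∀ (L : Type) [Field L] [NumberField L] [Algebra K L] (p : Pl L)
      (x : Fin n → L), x ≠ 0 → (∀ i, aeval x (F i) ≠ 0) → ∀ i,
        -(C * Module.finrank ℚ L) ≤ wt p * (lam (av p) (d i) (bc L (F i)) x / d i) := by
  choose Cb hCb0 hCb using fun i : Fin q => form_ub (F i) (hF i)
  refine ⟨∑ i, Cb i, Finset.sum_nonneg fun i _ => hCb0 i, fun L _ _ _ p x hx hFx i => ?_⟩
  have h1 := hCb i L p x hx (hFx i)
  have h2 : Cb i ≤ ∑ i, Cb i :=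
    Finset.single_le_sum (f := Cb) (fun i _ => hCb0 i) (Finset.mem_univ i)
  have hNq0 : (0 : ℝ) ≤ Module.finrank ℚ L := Nat.cast_nonneg _
  have h3 := mul_le_mul_of_nonneg_right h2 hNq0
  have hCN : 0 ≤ (∑ i, Cb i) * (Module.finrank ℚ L : ℝ) :=
    mul_nonneg (Finset.sum_nonneg fun i _ => hCb0 i) hNq0
  have hdi : (1 : ℝ) ≤ d i := by exact_mod_cast hd i
  have h4 : wt p * (lam (av p) (d i) (bc L (F i)) x / d i) =
      (wt p * lam (av p) (d i) (bc L (F i)) x) / d i := by ring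
  rw [h4, le_div_iff₀ (by linarith)]
  have h5 := le_mul_of_one_le_right hCN hdi
  linarith

/-- one place -/
lemma place_conf {n m q k D M M0 : ℕ} (hD : 1 ≤ D) (G : Fin m → MvPolynomial (Fin n) K)
    (F : Fin q → MvPolynomial (Fin n) K) (d : Fin q → ℕ) (hd : ∀ i, 1 ≤ d i)
    (hF : ∀ i, (F i).IsHomogeneous (d i)) (hdD : ∀ i, d i ∣ D) (δ : Dat k q M0) (th : ℝ)
    (Q : MvPolynomial (Fin n) K) (S : Finset ((Fin (k + 3) → ℕ) × (Fin n →₀ ℕ)))
    (hS : ∀ s ∈ S, dg D s = M ∧ th * M ≤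
            D * ∑ i : Fin (k + 2), dw δ i * (s.1 i.castSucc : ℝ))
    (cc : {s // s ∈ S} → K)
    (hcc : Q - ∑ s, cc s • ym (fun j => F (δ.1 j) ^ (D / d (δ.1 j))) s.1 ∈
              Ideal.span (Set.range G)) :
    ∃ C : ℝ, 0 ≤ C ∧ ∀ (L : Type) [Field L] [NumberField L] [Algebra K L] (p : Pl L)
        (x : Fin n → L), x ≠ 0 → (∀ k, aeval x (G k) = 0) → (∀ i, aeval x (F i) ≠ 0) →
        aeval x Q ≠ 0 → ∀ (H : ℝ), 0 ≤ H →
        (∀ i : Fin (k + 2), dw δ i * H ≤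
          wt p * max 0 (lam (av p) (d (δ.1 i.castSucc))
            (bc L (F (δ.1 i.castSucc))) x / d (δ.1 i.castSucc))) →
        th * M * H ≤ wt p * lam (av p) M (bc L Q) x + C * Module.finrank ℚ L := by
  obtain ⟨C1, hC10, hC1⟩ := loc_Q (D := D) (M := M) (Ideal.span (Set.range G)) G rfl _ S
    (fun s hs => (hS s hs).1) Q cc hcc
  obtain ⟨Cb, hCb0, hCb⟩ := low_all F d hd hF
  refine ⟨C1 + M * Cb, by positivity, fun L _ _ _ p x hx hGx hFx hQx H hH hlow => ?_⟩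
  obtain ⟨s, hs, hs2⟩ := hC1 L p x hx hGx (fun j => by
    rw [map_pow]
    exact pow_ne_zero _ (hFx _)) hQx
  have hNq0 : (0 : ℝ) ≤ Module.finrank ℚ L := Nat.cast_nonneg _
  have h1 := place_low hD F d hd hdD δ.1 (dw δ) s (hS s hs).1 p x H
    (Cb * Module.finrank ℚ L) th hH (by positivity) (hCb L p x hx hFx) hlow (hS s hs).2
  linarith

theorem one_conf {n m q k : ℕ} (hrq : k + 3 ≤ q) (G : Fin m → MvPolynomial (Fin n) K)
    (g : Fin m → ℕ) (hG : ∀ k, (G k).IsHomogeneous (g k))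
    (hprime : (Ideal.span (Set.range G)).IsPrime)
    (htr : Algebra.trdeg K (MvPolynomial (Fin n) K ⧸ Ideal.span (Set.range G)) = (k + 3 : ℕ))
    (F : Fin q → MvPolynomial (Fin n) K) (d : Fin q → ℕ) (hd : ∀ i, 1 ≤ d i)
    (hF : ∀ i, (F i).IsHomogeneous (d i))
    (hgp : ∀ e : Fin (k + 3) ↪ Fin q, ∀ (L : Type) [Field L] [Algebra K L] (x : Fin n → L),
      (∀ k, aeval x (G k) = 0) → (∀ k, aeval x (F (e k)) = 0) → x = 0)
    (M0 : ℕ) (hM0 : 1 ≤ M0) (ε : ℝ) (hε : 0 < ε) (c : Dat k q M0 → ℕ) :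
    ∃ Q : MvPolynomial (Fin n) K, Q ∉ Ideal.span (Set.range G) ∧ (∃ t, Q.IsHomogeneous t) ∧
      ∃ C : ℝ, 0 ≤ C ∧ ∀ (L : Type) [Field L] [NumberField L] [Algebra K L] (T : Finset (Pl L))
        (x : Fin n → L), x ≠ 0 → (∀ k, aeval x (G k) = 0) → (∀ i, aeval x (F i) ≠ 0) →
        aeval x Q ≠ 0 → ∀ (dat : Pl L → Dat k q M0) (H : ℝ), logHeight x ≤ H → 0 ≤ H →
        (∀ δ, (T.filter fun p => dat p = δ).card = c δ) →
        (∀ p ∈ T, Antitone (dw (dat p))) →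
        ((k : ℝ) + 1) * (k + 2) / 2 + ε < ∑ δ, c δ * exc δ →
        (∀ p ∈ T, ∀ i : Fin (k + 2), dw (dat p) i * H ≤
          wt p * max 0 (lam (av p) (d ((dat p).1 i.castSucc))
            (bc L (F ((dat p).1 i.castSucc))) x / d ((dat p).1 i.castSucc))) →
        H ≤ C * Module.finrank ℚ L := by
  classical
  by_cases hgood : (∀ δ, 0 < c δ → Antitone (dw δ)) ∧
      ((k : ℝ) + 1) * (k + 2) / 2 + ε < ∑ δ, c δ * exc δ
  swap
  · refine ⟨1, fun h => hprime.ne_top ((Ideal.eq_top_iff_one _).2 h), ⟨0,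
      isHomogeneous_one _ _⟩, 0, le_rfl, ?_⟩
    intro L _ _ _ T x _ _ _ _ dat H _ _ h0 h1 h2 _
    refine absurd ⟨fun δ hδ => ?_, h2⟩ hgood
    rw [← h0 δ] at hδ
    obtain ⟨p, hp⟩ := Finset.card_pos.1 hδ
    rw [Finset.mem_filter] at hp
    rw [← hp.2]
    exact h1 p hp.1
  obtain ⟨hanti, hEtot⟩ := hgood
  obtain ⟨D, hDd⟩ : ∃ D : ℕ, D = ∏ i, d i := ⟨_, rfl⟩
  have hD : 1 ≤ D := by
    rw [hDd]
    exact Nat.one_le_iff_ne_zero.2
      (Finset.prod_ne_zero_iff.2 fun i _ => (Nat.one_le_iff_ne_zero.1 (hd i)))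
  have hdD : ∀ i, d i ∣ D := fun i => by rw [hDd]; exact Finset.dvd_prod_of_mem d (Finset.mem_univ i)
  obtain ⟨a, M, Q, ha1, hM1, hQh, hQI, hS⟩ := aux_conf hrq G g hG hprime htr F d hF hgp D hD hdD
    M0 hM0 ε hε c hanti hEtot
  obtain ⟨Et, hEt⟩ : ∃ Et : ℝ, Et = ∑ δ, c δ * exc δ := ⟨_, rfl⟩
  rw [← hEt] at hEtot hS
  have hk0 : (0 : ℝ) ≤ k := Nat.cast_nonneg k
  have hEt0 : 0 < Et := by
    have : 0 ≤ ((k : ℝ) + 1) * (k + 2) / 2 := by positivity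
    linarith
  have hM1' : (1 : ℝ) ≤ M := by exact_mod_cast hM1
  obtain ⟨C2, hC20, hC2⟩ := form_ub Q hQh
  obtain ⟨C3, hC30, hC3⟩ := liou_u Q M hQh
  -- the estimate at one place
  have hplace : ∀ δ : Dat k q M0, ∃ C : ℝ, 0 ≤ C ∧ (0 < c δ → ∀ (L : Type) [Field L]
        [NumberField L] [Algebra K L] (p : Pl L)
        (x : Fin n → L), x ≠ 0 → (∀ k, aeval x (G k) = 0) → (∀ i, aeval x (F i) ≠ 0) →
        aeval x Q ≠ 0 → ∀ (H : ℝ), 0 ≤ H →
        (∀ i : Fin (k + 2), dw δ i * H ≤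
          wt p * max 0 (lam (av p) (d (δ.1 i.castSucc))
            (bc L (F (δ.1 i.castSucc))) x / d (δ.1 i.castSucc))) →
        (a / Et * exc δ) * M * H ≤ wt p * lam (av p) M (bc L Q) x + C * Module.finrank ℚ L) := by
    intro δ
    by_cases h1 : 0 < c δ
    · rcases (exc_nonneg δ).eq_or_lt with h0 | h0
      · refine ⟨C2, hC20, fun _ L _ _ _ p x hx _ _ hQx H _ _ => ?_⟩
        have h2 := hC2 L p x hx hQx
        rw [← h0]
        simp only [mul_zero, zero_mul]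
        linarith
      · obtain ⟨S, hS1, cc, hcc⟩ := hS δ h1 h0
        obtain ⟨C, hC0, hC⟩ := place_conf hD G F d hd hF hdD δ (a / Et * exc δ) Q S hS1 cc hcc
        exact ⟨C, hC0, fun _ => hC⟩
    · exact ⟨0, le_rfl, fun h => absurd h h1⟩
  choose C1 hC10 hC1 using hplace
  obtain ⟨Ct, hCt⟩ : ∃ Ct, Ct = ∑ δ, C1 δ := ⟨_, rfl⟩
  have hCt0 : 0 ≤ Ct := by rw [hCt]; exact Finset.sum_nonneg fun i _ => hC10 i
  obtain ⟨cs, hcs⟩ : ∃ cs : ℝ, cs = (∑ δ, c δ : ℕ) := ⟨_, rfl⟩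
  have hcs0 : 0 ≤ cs := by rw [hcs]; exact Nat.cast_nonneg _
  have hden : 0 < (M : ℝ) * (a - 1) := mul_pos (by linarith) (by linarith)
  refine ⟨Q, hQI, ⟨M, hQh⟩, (C3 + cs * Ct) / (M * (a - 1)),
    div_nonneg (by positivity) hden.le, ?_⟩
  intro L _ _ _ T x hx hGx hFx hQx dat H hHx hH0 hdat _ _ hlow
  obtain ⟨Nq, hNq⟩ : ∃ Nq : ℝ, Nq = (Module.finrank ℚ L : ℝ) := ⟨_, rfl⟩
  have hNq0 : 0 ≤ Nq := by rw [hNq]; exact Nat.cast_nonneg _
  rw [← hNq]
  have hkey : ∀ p ∈ T, (a / Et * exc (dat p)) * M * H ≤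
      wt p * lam (av p) M (bc L Q) x + Ct * Nq := by
    intro p hp
    have hcp : 0 < c (dat p) := by
      rw [← hdat (dat p)]
      exact Finset.card_pos.2 ⟨p, Finset.mem_filter.2 ⟨hp, rfl⟩⟩
    have h1 := hC1 (dat p) hcp L p x hx hGx hFx hQx H hH0 (hlow p hp)
    rw [← hNq] at h1
    have h2 : C1 (dat p) * Nq ≤ Ct * Nq := by
      refine mul_le_mul_of_nonneg_right ?_ hNq0
      rw [hCt]
      exact Finset.single_le_sum (f := C1) (fun e _ => hC10 e) (Finset.mem_univ _)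
    linarith
  have hsum := Finset.sum_le_sum hkey
  have hsumt : ∑ p ∈ T, (a / Et * exc (dat p)) * M * H = a * M * H := by
    have h1 : ∑ p ∈ T, exc (dat p) = Et := by
      rw [hEt, ← Finset.sum_fiberwise T dat (fun p => exc (dat p))]
      refine Finset.sum_congr rfl fun δ _ => ?_
      rw [← hdat δ, ← nsmul_eq_mul, ← Finset.sum_const]
      refine Finset.sum_congr rfl fun p hp => ?_
      rw [(Finset.mem_filter.1 hp).2]
    rw [← Finset.sum_mul, ← Finset.sum_mul, ← Finset.mul_sum, h1, div_mul_cancel₀ _ hEt0.ne']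
  have hTcard : (T.card : ℝ) = cs := by
    have h1 : T.card = ∑ δ, c δ := by
      rw [Finset.card_eq_sum_card_fiberwise (f := dat) (t := Finset.univ)
        (fun p _ => Finset.mem_univ _)]
      exact Finset.sum_congr rfl fun δ _ => hdat δ
    rw [h1, hcs]
  rw [hsumt, Finset.sum_add_distrib, Finset.sum_const, nsmul_eq_mul, hTcard] at hsum
  have hL : ∑ p ∈ T, wt p * lam (av p) M (bc L Q) x ≤ M * logHeight x + C3 * Nq := by
    rw [hNq]
    exact (Finset.sum_le_sum fun p _ => mul_le_mul_of_nonneg_left (le_max_right _ _)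
      (wt_nonneg p)).trans (hC3 L T x hx hQx)
  have hMH : (M : ℝ) * logHeight x ≤ M * H := mul_le_mul_of_nonneg_left hHx (by linarith)
  rw [div_mul_eq_mul_div, le_div_iff₀ hden]
  linarith

end Pool.Agent.TH875
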