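import Pool.Agent.W180.TP.Fam
import Pool.Agent.TH875.Flag

set_option autoImplicit false

/-!
Linearly independent forms at two places.
-/

namespace Pool.Agent.TH875

open MvPolynomial Finset NumberField IsDedekindDomain Height
open Pool.Agent.W180.OP Pool.Agent.W180.TP

variable {K : Type} [Field K] [NumberField K]

/-- a linear combination of forms is small where the forms are small -/
theorem comb_le {n m : ℕ} {κ : Type} [Fintype κ] (b : κ → MvPolynomial (Fin n) K)
    (g : MvPolynomial (Fin n) K) (c : κ → K) (hg : g = ∑ j, c j • b j) :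
    ∃ C : ℝ, 0 ≤ C ∧ ∀ (L : Type) [Field L] [NumberField L] [Algebra K L] (p : Pl L),
      ∃ R : ℝ, UB C p R ∧ ∀ (x : Fin n → L) (M : ℝ), x ≠ 0 → 0 ≤ M →
        (∀ j, c j ≠ 0 → rho (av p) m (b j) x ≤ M) → rho (av p) m g x ≤ R * M := by
  classical
  obtain ⟨C, hC0, hC⟩ := con_le c
  refine ⟨C, hC0, fun L _ _ _ p => ?_⟩
  set f := av p with hf
  have hs0 : 0 ≤ ∑ k, f (algebraMap K L (c k)) := Finset.sum_nonneg fun _ _ => f.nonneg _
  refine ⟨1 + ∑ k, f (algebraMap K L (c k)), ⟨by linarith, hC L p⟩, fun x M hx hM h => ?_⟩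
  have hpos : 0 < nrm f x ^ m := pow_pos (nrm_pos f hx) _
  unfold rho
  rw [div_le_iff₀ hpos, hg, map_sum]
  have h1 : ∀ j, f (aeval x (c j • b j)) ≤ f (algebraMap K L (c j)) * (M * nrm f x ^ m) := by
    intro j
    rw [map_smul, Algebra.smul_def, map_mul]
    by_cases hc : c j = 0
    · rw [hc, map_zero, map_zero, zero_mul, zero_mul]
    · refine mul_le_mul_of_nonneg_left ?_ (f.nonneg _)
      have := h j hc
      unfold rho at this
      rwa [div_le_iff₀ hpos] at this
  calc f (∑ j, aeval x (c j • b j)) ≤ ∑ j, f (aeval x (c j • b j)) := f.sum_le _ _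
    _ ≤ ∑ j, f (algebraMap K L (c j)) * (M * nrm f x ^ m) := Finset.sum_le_sum fun j _ => h1 j
    _ = (∑ k, f (algebraMap K L (c k))) * (M * nrm f x ^ m) := by rw [Finset.sum_mul]
    _ ≤ (1 + ∑ k, f (algebraMap K L (c k))) * (M * nrm f x ^ m) :=
        mul_le_mul_of_nonneg_right (by linarith) (mul_nonneg hM hpos.le)
    _ = _ := by ring

/-- the local height of a form in the span of an initial segment -/
theorem seg_le {n m N : ℕ} (b : Fin N → MvPolynomial (Fin n) K)
    (g : MvPolynomial (Fin n) K) (k : Fin N)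
    (hg : g ∈ Submodule.span K (b '' Set.Iic k)) :
    ∃ C : ℝ, 0 ≤ C ∧ ∀ (L : Type) [Field L] [NumberField L] [Algebra K L] (p : Pl L)
      (x : Fin n → L), x ≠ 0 → aeval x g ≠ 0 → (∀ j, aeval x (b j) ≠ 0) →
        Monotone (fun j => rho (av p) m (b j) x) →
        wt p * lam (av p) m (bc L (b k)) x ≤ wt p * lam (av p) m (bc L g) x +
          C * Module.finrank ℚ L := by
  classical
  have h1 : ∃ c : Fin N → K, (∀ j, c j ≠ 0 → j ≤ k) ∧ g = ∑ j, c j • b j := by
    rw [Finsupp.mem_span_image_iff_linearCombination] at hg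
    obtain ⟨l, hl, hl2⟩ := hg
    refine ⟨l, fun j hj => ?_, ?_⟩
    · have := (Finsupp.mem_supported K l).1 hl (Finsupp.mem_support_iff.2 hj)
      exact this
    · rw [← hl2, Finsupp.linearCombination_apply, Finsupp.sum_fintype]
      intro i
      rw [zero_smul]
  obtain ⟨c, hc, hgc⟩ := h1
  obtain ⟨C, hC0, hC⟩ := comb_le (m := m) b g c hgc
  refine ⟨C, hC0, fun L _ _ _ p x hx hgx hbx hmono => ?_⟩
  obtain ⟨R, hR, h2⟩ := hC L p
  have h3 := h2 x (rho (av p) m (b k) x) hx (rho_nonneg _ _ _ _) fun j hj => hmono (hc j hj)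
  have h4 := rho_pos (av p) m g hx hgx
  have h5 := rho_pos (av p) m (b k) hx (hbx k)
  have hR0 : 0 < R := by linarith [hR.1]
  have h6 := Real.log_le_log h4 h3
  rw [Real.log_mul hR0.ne' h5.ne'] at h6
  rw [lam_rho, lam_rho]
  have h7 := mul_le_mul_of_nonneg_left h6 (wt_nonneg p)
  have h8 := hR.2
  linarith

/-- linearly independent forms at the places of a finite set -/
theorem two_places {n m N : ℕ} {ι : Type} [Fintype ι] (P : ι → MvPolynomial (Fin n) K)
    (hP : ∀ i, (P i).IsHomogeneous m) (V : Submodule K (MvPolynomial (Fin n) K))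
    [FiniteDimensional K V] (hV : Module.finrank K V = N) (hPV : ∀ i, P i ∈ V) :
    ∃ Z : Finset (MvPolynomial (Fin n) K), (∀ z ∈ Z, z ≠ 0 ∧ z ∈ V ∧ z.IsHomogeneous m) ∧
      (∀ i, P i ≠ 0 → P i ∈ Z) ∧
      ∃ C : ℝ, 0 ≤ C ∧ ∀ (L : Type) [Field L] [NumberField L] [Algebra K L] (T : Finset (Pl L))
        (x : Fin n → L), x ≠ 0 → (∀ z ∈ Z, aeval x z ≠ 0) → ∀ b : Pl L → Fin N → ι,
        (∀ p ∈ T, LinearIndependent K fun k => P (b p k)) →
        ∑ p ∈ T, wt p * ∑ k, lam (av p) m (bc L (P (b p k))) x ≤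
          max 1 ((T.card : ℝ) / 2) * (N * (m * logHeight x)) +
            C * T.card * Module.finrank ℚ L := by
  classical
  -- the span of a linearly independent tuple
  have hspan : ∀ b : Fin N → ι, LinearIndependent K (fun k => P (b k)) →
      Submodule.span K (Set.range fun k => P (b k)) = V := by
    intro b hb
    refine Submodule.eq_of_le_of_finrank_eq (Submodule.span_le.2 ?_) ?_
    · rintro _ ⟨k, rfl⟩
      exact hPV _
    · rw [finrank_span_eq_card hb, hV, Fintype.card_fin]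
  -- the adapted families
  have h1 : ∀ t : (Fin N → ι) × (Fin N → ι), ∃ (l : Fin N → MvPolynomial (Fin n) K)
      (τ : Equiv.Perm (Fin N)), LinearIndependent K (fun k => P (t.1 k)) →
      LinearIndependent K (fun k => P (t.2 k)) →
      ∀ k, l k ∈ Submodule.span K ((fun k => P (t.1 k)) '' Set.Iic k) ∧ l k ≠ 0 ∧
        l k ∈ Submodule.span K ((fun k => P (t.2 k)) '' Set.Iic (τ k)) := by
    intro t
    by_cases ht : LinearIndependent K (fun k => P (t.1 k)) ∧
        LinearIndependent K (fun k => P (t.2 k))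
    · obtain ⟨l, τ, h⟩ := two_bases (fun k => P (t.1 k)) (fun k => P (t.2 k)) ht.1
        (by rw [hspan _ ht.1, hspan _ ht.2])
      refine ⟨l, τ, fun _ _ k => ⟨(h k).1, ?_, (h k).2.2⟩⟩
      intro h0
      exact (h k).2.1 (h0 ▸ zero_mem _)
    · exact ⟨fun _ => 0, 1, fun a b => absurd ⟨a, b⟩ ht⟩
  choose l τ hl using h1
  -- the set
  set Z : Finset (MvPolynomial (Fin n) K) := (Finset.univ.image P ∪
    Finset.univ.biUnion fun t : (Fin N → ι) × (Fin N → ι) => Finset.univ.image (l t)).filter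
      (fun z => z ≠ 0 ∧ z ∈ V ∧ z.IsHomogeneous m) with hZ
  have hmemV : ∀ (b : Fin N → ι) (k : Fin N) (g : MvPolynomial (Fin n) K),
      g ∈ Submodule.span K ((fun k => P (b k)) '' Set.Iic k) → g ∈ V ∧ g.IsHomogeneous m := by
    intro b k g hg
    constructor
    · refine (Submodule.span_le.2 ?_) hg
      rintro _ ⟨j, -, rfl⟩
      exact hPV _
    · have : g ∈ homogeneousSubmodule (Fin n) K m := by
        refine (Submodule.span_le.2 ?_) hg
        rintro _ ⟨j, -, rfl⟩
        exact hP _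
      exact this
  have hlZ : ∀ t : (Fin N → ι) × (Fin N → ι), LinearIndependent K (fun k => P (t.1 k)) →
      LinearIndependent K (fun k => P (t.2 k)) → ∀ k, l t k ∈ Z := by
    intro t h1 h2 k
    rw [hZ, Finset.mem_filter]
    refine ⟨Finset.mem_union_right _ (Finset.mem_biUnion.2 ⟨t, Finset.mem_univ _,
      Finset.mem_image_of_mem _ (Finset.mem_univ _)⟩), (hl t h1 h2 k).2.1, ?_⟩
    exact hmemV t.1 k _ (hl t h1 h2 k).1
  have hPZ : ∀ i, P i ≠ 0 → P i ∈ Z := by
    intro i hi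
    rw [hZ, Finset.mem_filter]
    exact ⟨Finset.mem_union_left _ (Finset.mem_image_of_mem _ (Finset.mem_univ _)), hi, hPV i,
      hP i⟩
  -- constants
  have h2 : ∀ (t : (Fin N → ι) × (Fin N → ι)) (k : Fin N), ∃ C : ℝ, 0 ≤ C ∧
      (LinearIndependent K (fun k => P (t.1 k)) → LinearIndependent K (fun k => P (t.2 k)) →
      ∀ (L : Type) [Field L] [NumberField L] [Algebra K L] (p : Pl L)
      (x : Fin n → L), x ≠ 0 → aeval x (l t k) ≠ 0 → (∀ j, aeval x (P (t.1 j)) ≠ 0) →
        Monotone (fun j => rho (av p) m (P (t.1 j)) x) →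
        wt p * lam (av p) m (bc L (P (t.1 k))) x ≤ wt p * lam (av p) m (bc L (l t k)) x +
          C * Module.finrank ℚ L) := by
    intro t k
    by_cases ht : LinearIndependent K (fun k => P (t.1 k)) ∧
        LinearIndependent K (fun k => P (t.2 k))
    · obtain ⟨C, hC0, hC⟩ := seg_le (m := m) (fun k => P (t.1 k)) (l t k) k
        (hl t ht.1 ht.2 k).1
      exact ⟨C, hC0, fun _ _ => hC⟩
    · exact ⟨0, le_rfl, fun a b => absurd ⟨a, b⟩ ht⟩
  choose C1 hC10 hC1 using h2
  have h3 : ∀ (t : (Fin N → ι) × (Fin N → ι)) (k : Fin N), ∃ C : ℝ, 0 ≤ C ∧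
      (LinearIndependent K (fun k => P (t.1 k)) → LinearIndependent K (fun k => P (t.2 k)) →
      ∀ (L : Type) [Field L] [NumberField L] [Algebra K L] (p : Pl L)
      (x : Fin n → L), x ≠ 0 → aeval x (l t k) ≠ 0 → (∀ j, aeval x (P (t.2 j)) ≠ 0) →
        Monotone (fun j => rho (av p) m (P (t.2 j)) x) →
        wt p * lam (av p) m (bc L (P (t.2 (τ t k)))) x ≤
          wt p * lam (av p) m (bc L (l t k)) x + C * Module.finrank ℚ L) := by
    intro t k
    by_cases ht : LinearIndependent K (fun k => P (t.1 k)) ∧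
        LinearIndependent K (fun k => P (t.2 k))
    · obtain ⟨C, hC0, hC⟩ := seg_le (m := m) (fun k => P (t.2 k)) (l t k)
        (τ t k) (hl t ht.1 ht.2 k).2.2
      exact ⟨C, hC0, fun _ _ => hC⟩
    · exact ⟨0, le_rfl, fun a b => absurd ⟨a, b⟩ ht⟩
  choose C2 hC20 hC2 using h3
  have h4 : ∀ z : Z, ∃ C : ℝ, 0 ≤ C ∧ ∀ (L : Type) [Field L] [NumberField L] [Algebra K L]
      (S : Finset (Pl L)) (x : Fin n → L), x ≠ 0 → aeval x z.1 ≠ 0 →
      ∑ p ∈ S, wt p * max 0 (lam (av p) m (bc L z.1) x) ≤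
        m * logHeight x + C * Module.finrank ℚ L := by
    intro z
    exact liou_u z.1 m (Finset.mem_filter.1 z.2).2.2.2
  choose C3 hC30 hC3 using h4
  set D : ℝ := ∑ t, ∑ k, (C1 t k + C2 t k) + N * ∑ z, C3 z with hD
  have hC12 : 0 ≤ ∑ t, ∑ k, (C1 t k + C2 t k) := Finset.sum_nonneg fun t _ =>
    Finset.sum_nonneg fun k _ => add_nonneg (hC10 t k) (hC20 t k)
  have hC3s : 0 ≤ ∑ z, C3 z := Finset.sum_nonneg fun z _ => hC30 z
  have hD0 : 0 ≤ D := add_nonneg hC12 (mul_nonneg (Nat.cast_nonneg _) hC3s)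
  refine ⟨Z, fun z hz => (Finset.mem_filter.1 hz).2, hPZ, D, hD0, ?_⟩
  intro L _ _ _ T x hx hZx b hb
  set q : ℝ := (Module.finrank ℚ L : ℝ) with hq
  have hq0 : 0 ≤ q := Nat.cast_nonneg _
  have hZC : ∀ z : Z, ∀ (S : Finset (Pl L)),
      ∑ p ∈ S, wt p * max 0 (lam (av p) m (bc L z.1) x) ≤
        m * logHeight x + (∑ z, C3 z) * q := by
    intro z S
    have h5 : C3 z ≤ ∑ z, C3 z :=
      Finset.single_le_sum (f := C3) (fun z _ => hC30 z) (Finset.mem_univ z)
    have := hC3 z L S x hx (hZx z.1 z.2)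
    nlinarith [mul_le_mul_of_nonneg_right h5 hq0]
  have hPx : ∀ p ∈ T, ∀ k, aeval x (P (b p k)) ≠ 0 := by
    intro p hp k
    exact hZx _ (hPZ _ ((hb p hp).ne_zero k))
  -- sorted tuples
  set π : Pl L → Equiv.Perm (Fin N) := fun p =>
    Tuple.sort (fun k => rho (av p) m (P (b p k)) x) with hπ
  set B : Pl L → Fin N → ι := fun p k => b p (π p k) with hB
  have hmono : ∀ p, Monotone (fun j => rho (av p) m (P (B p j)) x) := by
    intro p
    exact Tuple.monotone_sort (fun k => rho (av p) m (P (b p k)) x)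
  have hBsum : ∀ p, ∑ k, lam (av p) m (bc L (P (b p k))) x =
      ∑ k, lam (av p) m (bc L (P (B p k))) x := by
    intro p
    exact (Equiv.sum_comp (π p) (fun k => lam (av p) m (bc L (P (b p k))) x)).symm
  have hBind : ∀ p ∈ T, LinearIndependent K (fun k => P (B p k)) := by
    intro p hp
    exact (hb p hp).comp (π p) (π p).injective
  have hBx : ∀ p ∈ T, ∀ k, aeval x (P (B p k)) ≠ 0 := fun p hp k => hPx p hp _
  set H : ℝ := N * (m * logHeight x) with hH
  have hlh := Height.logHeight_nonneg x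
  have hH0 : 0 ≤ H := by positivity
  set U : Pl L → ℝ := fun p => wt p * ∑ k, lam (av p) m (bc L (P (b p k))) x - D * q with hU
  have hsingle : ∀ p ∈ T, U p ≤ H := by
    intro p hp
    have h5 : ∀ k, wt p * lam (av p) m (bc L (P (b p k))) x ≤
        m * logHeight x + (∑ z, C3 z) * q := by
      intro k
      have h6 := hZC ⟨P (b p k), hPZ _ ((hb p hp).ne_zero k)⟩ {p}
      rw [Finset.sum_singleton] at h6
      exact (mul_le_mul_of_nonneg_left (le_max_right _ _) (wt_nonneg p)).trans h6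
    have h6 : wt p * ∑ k, lam (av p) m (bc L (P (b p k))) x ≤
        ∑ _k : Fin N, (m * logHeight x + (∑ z, C3 z) * q) := by
      rw [Finset.mul_sum]
      exact Finset.sum_le_sum fun k _ => h5 k
    rw [Finset.sum_const, Finset.card_univ, Fintype.card_fin, nsmul_eq_mul] at h6
    have h7 : N * (∑ z, C3 z) * q ≤ D * q := mul_le_mul_of_nonneg_right (by linarith) hq0
    show wt p * ∑ k, lam (av p) m (bc L (P (b p k))) x - D * q ≤ N * (m * logHeight x)
    linarith
  have hpair : ∀ p ∈ T, ∀ p' ∈ T, p ≠ p' → U p + U p' ≤ H := by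
    intro p hp p' hp' hne
    set t : (Fin N → ι) × (Fin N → ι) := (B p, B p') with ht
    have ht1 : LinearIndependent K (fun k => P (t.1 k)) := hBind p hp
    have ht2 : LinearIndependent K (fun k => P (t.2 k)) := hBind p' hp'
    have hlx : ∀ k, aeval x (l t k) ≠ 0 := fun k => hZx _ (hlZ t ht1 ht2 k)
    have h5 : ∀ k, wt p * lam (av p) m (bc L (P (B p k))) x ≤
        wt p * lam (av p) m (bc L (l t k)) x + C1 t k * q := fun k =>
      hC1 t k ht1 ht2 L p x hx (hlx k) (hBx p hp) (hmono p)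
    have h6 : ∀ k, wt p' * lam (av p') m (bc L (P (B p' (τ t k)))) x ≤
        wt p' * lam (av p') m (bc L (l t k)) x + C2 t k * q := fun k =>
      hC2 t k ht1 ht2 L p' x hx (hlx k) (hBx p' hp') (hmono p')
    have h7 : ∀ k, wt p * lam (av p) m (bc L (l t k)) x +
        wt p' * lam (av p') m (bc L (l t k)) x ≤ m * logHeight x + (∑ z, C3 z) * q := by
      intro k
      have h8 := hZC ⟨l t k, hlZ t ht1 ht2 k⟩ {p, p'}
      rw [Finset.sum_pair hne] at h8
      refine le_trans (add_le_add ?_ ?_) h8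
      · exact mul_le_mul_of_nonneg_left (le_max_right _ _) (wt_nonneg p)
      · exact mul_le_mul_of_nonneg_left (le_max_right _ _) (wt_nonneg p')
    have h8 : ∑ k, (wt p * lam (av p) m (bc L (P (B p k))) x +
        wt p' * lam (av p') m (bc L (P (B p' (τ t k)))) x) ≤
        ∑ k, (m * logHeight x + (∑ z, C3 z) * q + (C1 t k + C2 t k) * q) := by
      refine Finset.sum_le_sum fun k _ => ?_
      have := h5 k
      have := h6 k
      have := h7 k
      linarith
    rw [Finset.sum_add_distrib, Finset.sum_add_distrib, Finset.sum_const, Finset.card_univ,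
      Fintype.card_fin, nsmul_eq_mul, ← Finset.sum_mul,
      Equiv.sum_comp (τ t) (fun k => wt p' * lam (av p') m (bc L (P (B p' k))) x),
      ← Finset.mul_sum, ← Finset.mul_sum, ← hBsum, ← hBsum] at h8
    have h9 : ∑ k, (C1 t k + C2 t k) ≤ ∑ t, ∑ k, (C1 t k + C2 t k) :=
      Finset.single_le_sum (f := fun t => ∑ k, (C1 t k + C2 t k)) (fun t _ =>
        Finset.sum_nonneg fun k _ => add_nonneg (hC10 t k) (hC20 t k)) (Finset.mem_univ t)
    have h10 : (∑ k, (C1 t k + C2 t k)) * q ≤ (∑ t, ∑ k, (C1 t k + C2 t k)) * q :=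
      mul_le_mul_of_nonneg_right h9 hq0
    have h11 : 0 ≤ D * q := mul_nonneg hD0 hq0
    have h12 : D * q = (∑ t, ∑ k, (C1 t k + C2 t k)) * q + N * (∑ z, C3 z) * q := by
      rw [hD]; ring
    show wt p * ∑ k, lam (av p) m (bc L (P (b p k))) x - D * q +
      (wt p' * ∑ k, lam (av p') m (bc L (P (b p' k))) x - D * q) ≤ N * (m * logHeight x)
    linarith
  have h5 := pair_sum T U H hH0 hsingle hpair
  have h6 : ∑ p ∈ T, U p = ∑ p ∈ T, wt p * ∑ k, lam (av p) m (bc L (P (b p k))) x -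
      T.card * (D * q) := by
    rw [hU, Finset.sum_sub_distrib, Finset.sum_const, nsmul_eq_mul]
  rw [h6] at h5
  linarith

end Pool.Agent.TH875
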